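import Pool.Agent.TH396.IN.Defs
import Pool.Agent.TH159.IA.Defs2

/-! Independence of the conditions imposed by multiple points in several variables: definitions. -/

set_option autoImplicit false

namespace Pool.Agent.TH176.RK

open Pool.Agent.TH396.IN Pool.Agent.TH159.IA

/-- the elements with exponents in `S` -/
def spn (K : Type) [Field K] {P : Type} [AddCommMonoid P] (S : Set (ℤ × P)) :
    Submodule K (LP K P) where
  carrier := {f | ∀ m, f.coeff m ≠ 0 → m ∈ S}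
  add_mem' {f g} hf hg m hm := by
    rw [AddMonoidAlgebra.coeff_add, Finsupp.add_apply] at hm
    by_cases h : f.coeff m = 0
    · rw [h, zero_add] at hm
      exact hg m hm
    · exact hf m h
  zero_mem' m hm := by simp at hm
  smul_mem' c f hf m hm := by
    refine hf m fun h => hm ?_
    rw [AddMonoidAlgebra.coeff_smul, Finsupp.smul_apply, h, smul_zero]

/-- the elements with multiplicities at least `w` at the points `e` -/
def mu {K : Type} [Field K] {P : Type} [AddCommMonoid P] {ι : Type}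
    (e : ι → (LP K P →ₐ[K] K)) (w : ι → ℕ) : Submodule K (LP K P) where
  carrier := {f | Mult e w f}
  add_mem' {f g} hf hg i := Ideal.add_mem _ (hf i) (hg i)
  zero_mem' i := Ideal.zero_mem _
  smul_mem' c f hf i := by
    have h := Ideal.mul_mem_left (RingHom.ker (e i) ^ w i) (algebraMap K (LP K P) c) (hf i)
    rwa [← Algebra.smul_def] at h

/-- the number of conditions in `m` variables -/
def Jn {ι : Type} [Fintype ι] (m : ℕ) (w : ι → ℕ) : ℕ := ∑ i, (w i + (m - 1)).choose m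

/-- the conditions are independent on the polynomials with exponents in `S` -/
def Ind {K : Type} [Field K] {P : Type} [AddCommMonoid P] {ι : Type} [Fintype ι]
    (e : ι → (LP K P →ₐ[K] K)) (w : ι → ℕ) (m : ℕ) (S : Set (ℤ × P)) : Prop :=
  S.Finite ∧ Module.finrank K ↥(spn K S ⊓ mu e w) + Jn m w ≤ S.ncard

/-- the columns with more than `c` points, along `(-v, 1)` -/
def layer {P : Type} (v : ℤ) (S : Set (ℤ × (ℕ × P))) (c : ℕ) : Set (ℤ × P) :=
  {x | c < {n : ℕ | (x.1 - v * n, (n, x.2)) ∈ S}.ncard}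

/-- the window of length `L` at the real `σ` -/
def win (σ L : ℝ) : Set ℤ := {l | -(σ * L) ≤ l ∧ (l : ℝ) ≤ (1 - σ) * L}

/-- independence for the regions with two real slopes -/
def RGood (ι : Type) [Fintype ι] (k : ℕ) (α β c κ : ℝ) : Prop :=
  ∀ B : ℝ, ∃ (K : Type) (_ : Field K) (_ : CharZero K) (e : ι → (LP K (Sp k) →ₐ[K] K)),
    ∀ (p q : ℝ) (w : ι → ℕ) (W : ℕ), (∀ i, w i ≤ W) → q - p ≤ B → c * (W + κ) ≤ q - p →
      Ind e w (k + 1) (Rg (dgp k) α β p q)

/-- independence for the regions of the tube -/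
def TGood (ι : Type) [Fintype ι] (k : ℕ) (σ a b c κ : ℝ) : Prop :=
  ∀ B : ℝ, ∃ (K : Type) (_ : Field K) (_ : CharZero K) (e : ι → (LP K (ℕ × Sp k) →ₐ[K] K)),
    ∀ (L₀ : ℝ) (w : ι → ℕ) (W : ℕ), (∀ i, w i ≤ W) → L₀ ≤ B → c * (W + κ) ≤ L₀ →
      Ind e w (k + 2) (Tb (dgp k) σ L₀ a b)

/-- independence for the polynomials of degree at most `d` -/
def SGood (ι : Type) [Fintype ι] (k : ℕ) (c κ : ℝ) : Prop :=
  ∀ B : ℕ, ∃ (K : Type) (_ : Field K) (_ : CharZero K) (e : ι → (LP K (ℕ × Sp k) →ₐ[K] K)),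
    ∀ (d : ℕ) (w : ι → ℕ) (W : ℕ), (∀ i, w i ≤ W) → d ≤ B → c * (W + κ) ≤ d →
      Ind e w (k + 2) (Sx (dgp k) d)

/-- the statement of the key lemma -/
def KeyInd (ι : Type) [Fintype ι] : Prop :=
  ∀ (F : Type) [Field F] [CharZero F] (P : Type) [AddCommMonoid P] (k : ℕ) (σ s : ℝ), k ≤ 1 →
    0 < σ → σ < 1 / 2 → 1 ≤ s → ∀ e : ι → (LP F (ℕ × P) →ₐ[F] F),
    ∃ e' : ι → (LP (HK F) (ℕ × P) →ₐ[HK F] HK F),
      ∀ (w : ι → ℕ) (m : ℕ) (J : Finset (ℕ × P)) (G : ℕ × P → Set (ℤ × ℕ))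
        (p₀ p₁ : ℕ × P → ℝ) (S : Set (ℤ × (ℕ × P))), S.Finite →
        (∀ j ∈ J, (G j).Finite ∧ Win F k (G j) (p₀ j) (p₁ j) ∧ p₁ j - p₀ j < s ∧
          (win σ (p₁ j - p₀ j)).ncard ≤ (G j).ncard ∧
          ∀ x ∈ G j, ∀ y, ((AddMonoidAlgebra.single (x.1, (x.2, 0)) 1 *
            Hk P k (HahnSeries.single 1 1) ^ j.1 *
            AddMonoidAlgebra.single (0, (0, j.2)) 1 : LP (HK F) (ℕ × P))).coeff y ≠ 0 → y ∈ S) →
        Ind e w m {x | x.2 ∈ J ∧ x.1 ∈ win σ (p₁ x.2 - p₀ x.2)} → Ind e' w m S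

end Pool.Agent.TH176.RK
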