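import Pool.Agent.TH396.IN.Base
import Pool.Agent.TH176.RK.Defs

/-! The base of the induction for ranks. -/

set_option autoImplicit false

namespace Pool.Agent.TH176.RK

open Pool.Agent.TH396.IN Pool.Agent.TH159.IA

namespace BaseRk_

theorem mem_Rg0 (α β p q : ℝ) (m : ℤ × Sp 0) :
    m ∈ Rg (dgp 0) α β p q ↔ ⌈p⌉ ≤ m.1 ∧ m.1 ≤ ⌊q⌋ := by
  have h0 : ((dgp 0 m.2 : ℕ) : ℝ) = 0 := by
    have : dgp 0 m.2 = 0 := rfl
    rw [this, Nat.cast_zero]
  unfold Rg
  rw [Set.mem_ofPred_eq, h0, mul_zero, mul_zero, add_zero, sub_zero, Int.ceil_le, Int.le_floor]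

theorem Rg0_eq (α β p q : ℝ) : Rg (dgp 0) α β p q =
    (fun a : ℤ => ((a, (() : Unit)) : ℤ × Sp 0)) '' ((Finset.Icc ⌈p⌉ ⌊q⌋ : Finset ℤ) : Set ℤ) := by
  ext m
  rw [mem_Rg0, Set.mem_image]
  constructor
  · intro h
    exact ⟨m.1, by rw [Finset.coe_Icc]; exact h, rfl⟩
  · rintro ⟨a, ha, rfl⟩
    rw [Finset.coe_Icc] at ha
    exact ha

theorem inj0 : Function.Injective (fun a : ℤ => ((a, (() : Unit)) : ℤ × Sp 0)) := by
  intro a b h
  exact congrArg Prod.fst h

/-- the coefficients above a bound -/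
noncomputable def cof {K : Type} [Field K] (V : Submodule K (LP K (Sp 0))) (s : Finset ℤ) :
    ↥V →ₗ[K] (s → K) where
  toFun f a := (f : LP K (Sp 0)).coeff ((a : ℤ), (() : Unit))
  map_add' f g := by
    funext a
    simp only [Submodule.coe_add, AddMonoidAlgebra.coeff_add, Finsupp.add_apply, Pi.add_apply]
  map_smul' c f := by
    funext a
    simp only [Submodule.coe_smul, AddMonoidAlgebra.coeff_smul, Finsupp.smul_apply, Pi.smul_apply,
      RingHom.id_apply]

end BaseRk_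

open BaseRk_ in
theorem rgood_base (ι : Type) [Fintype ι] (α β : ℝ) : RGood ι 0 α β (Fintype.card ι) 0 := by
  intro B
  obtain ⟨K, i1, i2, e, he⟩ := good_base ι α β B
  refine ⟨K, i1, i2, e, ?_⟩
  intro p q w W hW hB hc
  obtain ⟨N, hNdef⟩ : ∃ N : ℕ, N = ∑ i, w i := ⟨_, rfl⟩
  have hN1 : N ≤ Fintype.card ι * W := by
    rw [hNdef]
    calc ∑ i, w i ≤ ∑ _i : ι, W := Finset.sum_le_sum fun i _ => hW i
      _ = Fintype.card ι * W := by rw [Finset.sum_const, Finset.card_univ, smul_eq_mul]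
  have hN2 : (N : ℝ) ≤ q - p := by
    rw [add_zero] at hc
    have : (N : ℝ) ≤ (Fintype.card ι : ℝ) * W := by exact_mod_cast hN1
    linarith
  have hN3 : ⌈p⌉ + (N : ℤ) - 1 ≤ ⌊q⌋ := by
    rw [Int.le_floor]
    push_cast
    have := Int.ceil_lt_add_one p
    linarith
  have hcard : (Rg (dgp 0) α β p q).ncard = (⌊q⌋ + 1 - ⌈p⌉).toNat := by
    rw [Rg0_eq, Set.ncard_image_of_injective _ inj0, Set.ncard_coe_finset, Int.card_Icc]
  refine ⟨?_, ?_⟩
  · rw [Rg0_eq]
    exact (Finset.finite_toSet _).image _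
  · have hJ : Jn (0 + 1) w = N := by
      unfold Jn
      rw [hNdef]
      refine Finset.sum_congr rfl fun i _ => ?_
      rw [Nat.zero_add, Nat.sub_self, add_zero, Nat.choose_one_right]
    rw [hJ, hcard]
    have hinj : Function.Injective (cof (spn K (Rg (dgp 0) α β p q) ⊓ mu e w)
        (Finset.Icc (⌈p⌉ + (N : ℤ)) ⌊q⌋)) := by
      rw [injective_iff_map_eq_zero]
      rintro ⟨f, hf1, hf2⟩ hf0
      have hz : f = 0 := by
        refine he (⌈p⌉ : ℝ) (((⌈p⌉ + (N : ℤ) - 1 : ℤ)) : ℝ) w ?_ ?_ f ?_ hf2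
        · push_cast
          linarith
        · rw [mul_one]
          have : (∑ i, (w i : ℝ)) = N := by rw [hNdef]; push_cast; rfl
          rw [this]
          push_cast
          linarith
        · intro m hm
          have h1 := hf1 m hm
          rw [mem_Rg0] at h1
          rw [mem_Rg0, Int.ceil_intCast, Int.floor_intCast]
          refine ⟨h1.1, ?_⟩
          by_contra hcon
          push Not at hcon
          apply hm
          have h2 := congrFun hf0 ⟨m.1, by
            rw [Finset.mem_Icc]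
            exact ⟨by omega, h1.2⟩⟩
          exact h2
      exact Subtype.ext hz
    have h1 := LinearMap.finrank_le_finrank_of_injective hinj
    rw [Module.finrank_fintype_fun_eq_card, Fintype.card_coe, Int.card_Icc] at h1
    have h2 : (⌊q⌋ + 1 - (⌈p⌉ + (N : ℤ))).toNat + N = (⌊q⌋ + 1 - ⌈p⌉).toNat := by omega
    omega

end Pool.Agent.TH176.RK
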