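import Pool.Agent.TH176.RK.Defs

/-! Counting for two slopes (job RK8). -/

set_option autoImplicit false

namespace Pool.Agent.TH176.RK

open Pool.Agent.TH396.IN Pool.Agent.TH159.IA

namespace Card2_

theorem ncard_Icc (a b : ℤ) : (Set.Icc a b).ncard = (b + 1 - a).toNat := by
  rw [← Finset.coe_Icc, Set.ncard_coe_finset, Int.card_Icc]

theorem ncard_Ico (a b : ℤ) : (Set.Ico a b).ncard = (b - a).toNat := by
  rw [← Finset.coe_Ico, Set.ncard_coe_finset, Int.card_Ico]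

/-- the injection -/
def g (P₁ j : ℤ) : ℤ × ℕ :=
  if j % 2 = 0 then (j / 2, 0) else if j + 1 = P₁ then (P₁ / 2, 0) else ((j + 1) / 2, 1)

end Card2_

theorem card2 {σ : ℝ} (h0 : 0 < σ) (h1 : σ < 1) (hσ : Irrational σ) {P₀ P₁ : ℤ} (h : P₀ < P₁) :
    {m : ℤ × ℕ | m.2 ≤ 1 ∧ P₀ + m.2 ≤ 2 * m.1 ∧ 2 * m.1 ≤ P₁ - m.2}.Finite ∧
    (win σ (P₁ - P₀)).ncard ≤
      {m : ℤ × ℕ | m.2 ≤ 1 ∧ P₀ + m.2 ≤ 2 * m.1 ∧ 2 * m.1 ≤ P₁ - m.2}.ncard := by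
  have hfin : {m : ℤ × ℕ | m.2 ≤ 1 ∧ P₀ + m.2 ≤ 2 * m.1 ∧ 2 * m.1 ≤ P₁ - m.2}.Finite := by
    refine Set.Finite.subset (Set.Finite.prod (Set.finite_Icc (-|P₀|) |P₁|) (Set.finite_Iic 1)) ?_
    rintro ⟨a, n⟩ ⟨h2, h3, h4⟩
    simp only at h2 h3 h4
    refine ⟨⟨?_, ?_⟩, h2⟩
    · have := neg_abs_le P₀
      have := abs_nonneg P₀
      show -|P₀| ≤ a
      omega
    · have := le_abs_self P₁
      have := abs_nonneg P₁
      show a ≤ |P₁|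
      omega
  refine ⟨hfin, ?_⟩
  -- the window
  have hM : (0 : ℝ) < (P₁ : ℝ) - P₀ := by
    have : (P₀ : ℝ) < P₁ := by exact_mod_cast h
    linarith
  have hirr : Irrational (-(σ * ((P₁ : ℝ) - P₀))) := by
    have h5 : ((P₁ : ℝ) - P₀) = ((P₁ - P₀ : ℤ) : ℝ) := by push_cast; ring
    rw [h5]
    exact (hσ.mul_intCast (by omega)).neg
  set c : ℝ := -(σ * ((P₁ : ℝ) - P₀)) with hc
  have hwin : win σ (P₁ - P₀) ⊆ Set.Icc (⌊c⌋ + 1) (⌊c⌋ + (P₁ - P₀)) := by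
    rintro l ⟨h6, h7⟩
    have h8 : c < l := lt_of_le_of_ne h6 fun h9 => (irrational_iff_ne_rational c).1 hirr l 1
      one_ne_zero (by rw [h9]; simp)
    refine ⟨?_, ?_⟩
    · have h9 : (⌊c⌋ : ℝ) ≤ c := Int.floor_le c
      have h10 : ((⌊c⌋ : ℤ) : ℝ) < (l : ℝ) := lt_of_le_of_lt h9 h8
      have h11 : ⌊c⌋ < l := by exact_mod_cast h10
      omega
    · have h9 : ((l - (P₁ - P₀) : ℤ) : ℝ) ≤ c := by
        push_cast
        have h7' : (l : ℝ) ≤ (1 - σ) * ((P₁ : ℝ) - P₀) := h7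
        rw [hc]
        linarith
      have h10 : l - (P₁ - P₀) ≤ ⌊c⌋ := Int.le_floor.2 h9
      omega
  have hA : (win σ (P₁ - P₀)).ncard ≤ (P₁ - P₀).toNat := by
    refine (Set.ncard_le_ncard hwin (Set.finite_Icc _ _)).trans (le_of_eq ?_)
    rw [Card2_.ncard_Icc]
    congr 1
    omega
  refine hA.trans ?_
  rw [← Card2_.ncard_Ico]
  refine Set.ncard_le_ncard_of_injOn (Card2_.g P₁) ?_ ?_ hfin
  · rintro j ⟨h2, h3⟩
    unfold Card2_.g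
    split_ifs with h4 h5
    · refine ⟨by norm_num, ?_, ?_⟩ <;> simp only [Nat.cast_zero] <;> omega
    · refine ⟨by norm_num, ?_, ?_⟩ <;> simp only [Nat.cast_zero] <;> omega
    · refine ⟨le_refl 1, ?_, ?_⟩ <;> simp only [Nat.cast_one] <;> omega
  · rintro j ⟨h2, h3⟩ j' ⟨h2', h3'⟩ hjj
    unfold Card2_.g at hjj
    split_ifs at hjj <;> simp only [Prod.mk.injEq] at hjj <;> omega

end Pool.Agent.TH176.RK
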