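import Pool.Agent.TH176.RK.Defs
set_option autoImplicit false
namespace Pool.Agent.TH176.RK
open Pool.Agent.TH396.IN Pool.Agent.TH159.IA

namespace Card3_

/-- the second set as a finite set -/
def fs (D : ℕ) : Finset (ℤ × ℕ) :=
  ((Finset.range (D + 1)).image fun j : ℕ => ((0 : ℤ), j)) ∪
    (((Finset.range D).image fun j : ℕ => ((1 : ℤ), j)) ∪
      ((Finset.range (D - 1)).image fun j : ℕ => ((2 : ℤ), j)))

theorem fs_card (D : ℕ) : (fs D).card = (D + 1) + (D + (D - 1)) := by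
  unfold fs
  rw [Finset.card_union_of_disjoint, Finset.card_union_of_disjoint]
  · rw [Finset.card_image_of_injective _ (fun a b h => (Prod.ext_iff.mp h).2),
      Finset.card_image_of_injective _ (fun a b h => (Prod.ext_iff.mp h).2),
      Finset.card_image_of_injective _ (fun a b h => (Prod.ext_iff.mp h).2)]
    simp only [Finset.card_range]
  · rw [Finset.disjoint_left]
    intro x hx hx'
    simp only [Finset.mem_image] at hx hx'
    obtain ⟨a, _, rfl⟩ := hx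
    obtain ⟨b, _, h⟩ := hx'
    have := (Prod.ext_iff.mp h).1
    simp at this
  · rw [Finset.disjoint_left]
    intro x hx hx'
    simp only [Finset.mem_image, Finset.mem_union] at hx hx'
    obtain ⟨a, _, rfl⟩ := hx
    rcases hx' with ⟨b, _, h⟩ | ⟨b, _, h⟩
    · have := (Prod.ext_iff.mp h).1
      simp at this
    · have := (Prod.ext_iff.mp h).1
      simp at this

theorem fs_sub (D : ℕ) : (fs D : Set (ℤ × ℕ)) ⊆ {m : ℤ × ℕ | 0 ≤ m.1 ∧ m.1 ≤ 2 ∧ m.1 + m.2 ≤ D} := by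
  intro x hx
  simp only [fs, Finset.coe_union, Finset.coe_image, Set.mem_union, Set.mem_image,
    Finset.mem_coe, Finset.mem_range] at hx
  rcases hx with ⟨j, hj, rfl⟩ | ⟨j, hj, rfl⟩ | ⟨j, hj, rfl⟩ <;>
    simp only [Set.mem_setOf_eq] <;> omega

theorem fin (D : ℕ) : {m : ℤ × ℕ | 0 ≤ m.1 ∧ m.1 ≤ 2 ∧ m.1 + m.2 ≤ D}.Finite := by
  refine Set.Finite.subset ((Set.finite_Icc (0 : ℤ) 2).prod (Set.finite_Icc (0 : ℕ) D)) ?_
  rintro ⟨a, b⟩ ⟨h1, h2, h3⟩
  simp only at h1 h2 h3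
  simp only [Set.mem_prod, Set.mem_Icc]
  omega

theorem win_le {σ : ℝ} (hσ : Irrational σ) (D : ℕ) :
    (win σ (3 * D)).ncard ≤ (D + 1) + (D + (D - 1)) := by
  rcases Nat.eq_zero_or_pos D with rfl | hD
  · have h : win σ (3 * ((0 : ℕ) : ℝ)) ⊆ ({0} : Set ℤ) := by
      rintro l ⟨h1, h2⟩
      simp only [Nat.cast_zero, mul_zero, neg_zero] at h1 h2
      have h3 : (0 : ℤ) ≤ l := by exact_mod_cast h1
      have h4 : l ≤ (0 : ℤ) := by exact_mod_cast h2
      simp only [Set.mem_singleton_iff]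
      omega
    calc _ ≤ ({0} : Set ℤ).ncard := Set.ncard_le_ncard h (Set.finite_singleton 0)
      _ = 1 := Set.ncard_singleton 0
      _ ≤ _ := by omega
  · have h3D : (3 * (D : ℝ)) = ((3 * D : ℕ) : ℝ) := by push_cast; ring
    have hirr : Irrational (-(σ * (3 * (D : ℝ)))) := by
      rw [h3D]
      exact (hσ.mul_natCast (by omega)).neg
    set y : ℝ := -(σ * (3 * (D : ℝ))) with hy
    have h : win σ (3 * (D : ℝ)) ⊆ (Finset.Icc (⌊y⌋ + 1) (⌊y⌋ + 3 * D) : Finset ℤ) := by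
      rintro l ⟨h1, h2⟩
      simp only [Finset.coe_Icc, Set.mem_Icc]
      rw [← hy] at h1
      have h4 : y ≠ l := hirr.ne_int l
      have h5 : y < l := lt_of_le_of_ne h1 h4
      have h6 : ⌊y⌋ < l := Int.floor_lt.mpr h5
      have h7 : l - 3 * D ≤ ⌊y⌋ := by
        apply Int.le_floor.mpr
        push_cast
        rw [hy]
        linarith
      omega
    calc _ ≤ ((Finset.Icc (⌊y⌋ + 1) (⌊y⌋ + 3 * D) : Finset ℤ) : Set ℤ).ncard :=
          Set.ncard_le_ncard h (Finset.finite_toSet _)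
      _ = (Finset.Icc (⌊y⌋ + 1) (⌊y⌋ + 3 * D)).card := Set.ncard_coe_finset _
      _ = 3 * D := by
          rw [Int.card_Icc]
          omega
      _ ≤ _ := by omega

end Card3_

theorem card3 {σ : ℝ} (h0 : 0 < σ) (h1 : σ < 1) (hσ : Irrational σ) (D : ℕ) :
    {m : ℤ × ℕ | 0 ≤ m.1 ∧ m.1 ≤ 2 ∧ m.1 + m.2 ≤ D}.Finite ∧
    (win σ (3 * D)).ncard ≤ {m : ℤ × ℕ | 0 ≤ m.1 ∧ m.1 ≤ 2 ∧ m.1 + m.2 ≤ D}.ncard := by
  refine ⟨Card3_.fin D, (Card3_.win_le hσ D).trans ?_⟩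
  rw [← Card3_.fs_card D, ← Set.ncard_coe_finset]
  exact Set.ncard_le_ncard (Card3_.fs_sub D) (Card3_.fin D)

end Pool.Agent.TH176.RK
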