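import Pool.Agent.TH176.RK.Defs

/-! The number of monomials of degree at most `d` (written by helper429). -/

set_option autoImplicit false

namespace Pool.Agent.TH176.RK

open Pool.Agent.TH396.IN Pool.Agent.TH159.IA

namespace CardSx_

/-- the vectors of degree at most `d` in `k + 1` variables, by the first coordinate -/
def eqv (k d : ℕ) : {c : Sp (k + 1) // dgp (k + 1) c ≤ d} ≃
    (Σ n : Fin (d + 1), {c : Sp k // dgp k c ≤ d - (n : ℕ)}) where
  toFun c := ⟨⟨c.1.1, by
    have h : c.1.1 + dgp k c.1.2 ≤ d := c.2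
    omega⟩, ⟨c.1.2, by
    have h : c.1.1 + dgp k c.1.2 ≤ d := c.2
    change dgp k c.1.2 ≤ d - c.1.1
    omega⟩⟩
  invFun x := ⟨((x.1 : ℕ), x.2.1), by
    have h := x.2.2
    have h1 := x.1.2
    change (x.1 : ℕ) + dgp k x.2.1 ≤ d
    omega⟩
  left_inv _ := rfl
  right_inv _ := rfl

theorem ball (k : ℕ) : ∀ d : ℕ, Finite {c : Sp k // dgp k c ≤ d} ∧
    Nat.card {c : Sp k // dgp k c ≤ d} = (d + k).choose k := by
  induction k with
  | zero =>
    intro d
    have e : {c : Sp 0 // dgp 0 c ≤ d} ≃ Unit :=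
      { toFun := fun _ => ()
        invFun := fun _ => ⟨(() : Unit), Nat.zero_le d⟩
        left_inv := fun _ => rfl
        right_inv := fun _ => rfl }
    refine ⟨Finite.of_equiv _ e.symm, ?_⟩
    rw [Nat.card_congr e]
    simp
  | succ k ih =>
    intro d
    have h1 : ∀ n : Fin (d + 1), Finite {c : Sp k // dgp k c ≤ d - (n : ℕ)} := fun n => (ih _).1
    refine ⟨Finite.of_equiv _ (eqv k d).symm, ?_⟩
    rw [Nat.card_congr (eqv k d), Nat.card_sigma]
    have h2 : ∀ n : Fin (d + 1), Nat.card {c : Sp k // dgp k c ≤ d - (n : ℕ)} =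
        (d - (n : ℕ) + k).choose k := fun n => (ih _).2
    rw [Finset.sum_congr rfl fun n _ => h2 n,
      Fin.sum_univ_eq_sum_range (fun i => (d - i + k).choose k) (d + 1)]
    have h3 := Finset.sum_range_reflect (fun i => (i + k).choose k) (d + 1)
    simp only [Nat.add_sub_cancel] at h3
    rw [h3, Nat.sum_range_add_choose]
    rfl

end CardSx_

theorem card_Sx (k d : ℕ) : (Sx (dgp k) d).ncard = (d + (k + 2)).choose (k + 2) := by
  let g : ℕ × (ℕ × Sp k) → ℤ × (ℕ × Sp k) := fun x => ((x.1 : ℤ), x.2)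
  have hg : Function.Injective g := by
    intro x y h
    have h1 : (x.1 : ℤ) = y.1 := congrArg Prod.fst h
    have h2 : x.2 = y.2 := (Prod.ext_iff.1 h).2
    exact Prod.ext (by exact_mod_cast h1) h2
  have h1 : Sx (dgp k) d = g '' {x | x.1 + (x.2.1 + dgp k x.2.2) ≤ d} := by
    ext m
    constructor
    · rintro ⟨h0, h1⟩
      refine ⟨(m.1.toNat, m.2), ?_, ?_⟩
      · change m.1.toNat + (m.2.1 + dgp k m.2.2) ≤ d
        omega
      · refine Prod.ext ?_ rfl
        exact Int.toNat_of_nonneg h0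
    · rintro ⟨x, hx, rfl⟩
      have hx' : x.1 + (x.2.1 + dgp k x.2.2) ≤ d := hx
      refine ⟨Int.natCast_nonneg _, ?_⟩
      change (x.1 : ℤ) + (x.2.1 : ℤ) + (dgp k x.2.2 : ℤ) ≤ d
      omega
  rw [h1, Set.ncard_image_of_injective _ hg, ← Nat.card_coe_set_eq]
  exact (CardSx_.ball (k + 2) d).2

end Pool.Agent.TH176.RK
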