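import Pool.Agent.TH176.RK.Defs

/-! Finiteness of the regions (job RK12 of helper176, written by helper113). -/

set_option autoImplicit false

namespace Pool.Agent.TH176.RK

open Pool.Agent.TH396.IN Pool.Agent.TH159.IA

namespace Fin_

theorem dgp_zero : ∀ k : ℕ, dgp k 0 = 0 := by
  intro k
  induction k with
  | zero => rfl
  | succ k ih =>
    show (0 : ℕ × Sp k).1 + dgp k (0 : ℕ × Sp k).2 = 0
    rw [Prod.fst_zero, Prod.snd_zero, ih]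

theorem dgp_add : ∀ (k : ℕ) (c c' : Sp k), dgp k (c + c') = dgp k c + dgp k c' := by
  intro k
  induction k with
  | zero => intro c c'; rfl
  | succ k ih =>
    rintro ⟨c1, c2⟩ ⟨c1', c2'⟩
    show (c1 + c1') + dgp k (c2 + c2') = (c1 + dgp k c2) + (c1' + dgp k c2')
    rw [ih]
    omega

theorem fin_le : ∀ (k n : ℕ), {c : Sp k | dgp k c ≤ n}.Finite := by
  intro k
  induction k with
  | zero =>
    intro n
    exact Set.Finite.subset (Set.finite_singleton (() : Unit)) fun c _ => rfl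
  | succ k ih =>
    intro n
    refine Set.Finite.subset (s := ((Set.Iic n) ×ˢ {c : Sp k | dgp k c ≤ n} : Set (ℕ × Sp k)))
      ((Set.finite_Iic n).prod (ih n)) ?_
    intro c hc
    have hc' : (c : ℕ × Sp k).1 + dgp k (c : ℕ × Sp k).2 ≤ n := hc
    exact ⟨(Nat.le_add_right _ _).trans hc', (Nat.le_add_left _ _).trans hc'⟩

/-- a bounded set is finite -/
theorem fin_of_bound (k : ℕ) (S : Set (ℤ × (ℕ × Sp k))) (A B N M : ℝ)
    (h : ∀ m ∈ S, A ≤ (m.1 : ℝ) ∧ (m.1 : ℝ) ≤ B ∧ (m.2.1 : ℝ) ≤ N ∧ (dgp k m.2.2 : ℝ) ≤ M) :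
    S.Finite := by
  refine Set.Finite.subset ((Set.finite_Icc ⌊A⌋ ⌈B⌉).prod
    ((Set.finite_Iic ⌊N⌋₊).prod (fin_le k ⌊M⌋₊))) ?_
  intro m hm
  obtain ⟨h1, h2, h3, h4⟩ := h m hm
  refine ⟨⟨?_, ?_⟩, ?_, ?_⟩
  · have : ((⌊A⌋ : ℤ) : ℝ) ≤ m.1 := (Int.floor_le A).trans h1
    exact_mod_cast this
  · have : (m.1 : ℝ) ≤ ((⌈B⌉ : ℤ) : ℝ) := h2.trans (Int.le_ceil B)
    exact_mod_cast this
  · exact Nat.le_floor h3
  · exact Nat.le_floor h4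

/-- a bounded set is finite -/
theorem fin_of_bound' (k : ℕ) (S : Set (ℤ × Sp k)) (A B M : ℝ)
    (h : ∀ m ∈ S, A ≤ (m.1 : ℝ) ∧ (m.1 : ℝ) ≤ B ∧ (dgp k m.2 : ℝ) ≤ M) :
    S.Finite := by
  refine Set.Finite.subset ((Set.finite_Icc ⌊A⌋ ⌈B⌉).prod (fin_le k ⌊M⌋₊)) ?_
  intro m hm
  obtain ⟨h1, h2, h4⟩ := h m hm
  refine ⟨⟨?_, ?_⟩, ?_⟩
  · have : ((⌊A⌋ : ℤ) : ℝ) ≤ m.1 := (Int.floor_le A).trans h1
    exact_mod_cast this
  · have : (m.1 : ℝ) ≤ ((⌈B⌉ : ℤ) : ℝ) := h2.trans (Int.le_ceil B)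
    exact_mod_cast this
  · exact Nat.le_floor h4

theorem fin_Tb (k : ℕ) {σ a b L₀ : ℝ} (ha : 0 < a) (hb : 0 < b) :
    (Tb (dgp k) σ L₀ a b).Finite := by
  refine fin_of_bound k _ (-(|σ| * L₀)) ((1 + |σ|) * L₀) (L₀ / a) (L₀ / b) ?_
  intro m hm
  obtain ⟨h1, h2⟩ := hm
  obtain ⟨L, hL⟩ : ∃ L, L = L₀ - a * m.2.1 - b * dgp k m.2.2 := ⟨_, rfl⟩
  rw [← hL] at h1 h2
  have he : (0 : ℝ) ≤ a * m.2.1 := by positivity
  have hg : (0 : ℝ) ≤ b * dgp k m.2.2 := by positivity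
  have hL0 : 0 ≤ L := by nlinarith
  have hL1 : L ≤ L₀ := by linarith
  have hs1 : σ * L ≤ |σ| * L := mul_le_mul_of_nonneg_right (le_abs_self σ) hL0
  have hs2 : -(|σ| * L) ≤ σ * L := by
    rw [← neg_mul]
    exact mul_le_mul_of_nonneg_right (neg_abs_le σ) hL0
  have hs3 : |σ| * L ≤ |σ| * L₀ := mul_le_mul_of_nonneg_left hL1 (abs_nonneg σ)
  refine ⟨by linarith, by nlinarith, ?_, ?_⟩
  · rw [le_div_iff₀ ha]
    linarith
  · rw [le_div_iff₀ hb]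
    linarith

theorem fin_Rg (k : ℕ) {α β p q : ℝ} (hαβ : 0 < α + β) : (Rg (dgp k) α β p q).Finite := by
  refine fin_of_bound' k _ (p - |α| * ((q - p) / (α + β))) (q + |β| * ((q - p) / (α + β)))
    ((q - p) / (α + β)) ?_
  intro m hm
  obtain ⟨h1, h2⟩ := hm
  have hg0 : (0 : ℝ) ≤ dgp k m.2 := Nat.cast_nonneg _
  have hg : (dgp k m.2 : ℝ) ≤ (q - p) / (α + β) := by
    rw [le_div_iff₀ hαβ]
    linarith
  have e1 : -(|α| * dgp k m.2) ≤ α * dgp k m.2 := by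
    rw [← neg_mul]
    exact mul_le_mul_of_nonneg_right (neg_abs_le α) hg0
  have e2 : -(|β| * dgp k m.2) ≤ β * dgp k m.2 := by
    rw [← neg_mul]
    exact mul_le_mul_of_nonneg_right (neg_abs_le β) hg0
  have e3 : |α| * dgp k m.2 ≤ |α| * ((q - p) / (α + β)) :=
    mul_le_mul_of_nonneg_left hg (abs_nonneg α)
  have e4 : |β| * dgp k m.2 ≤ |β| * ((q - p) / (α + β)) :=
    mul_le_mul_of_nonneg_left hg (abs_nonneg β)
  exact ⟨by linarith, by linarith, hg⟩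

theorem fin_Sx (k d : ℕ) : (Sx (dgp k) d).Finite := by
  refine fin_of_bound k _ 0 d d d ?_
  intro m hm
  obtain ⟨h1, h2⟩ := hm
  have h3 : m.1 ≤ d := by omega
  have h4 : m.2.1 ≤ d := by omega
  have h5 : dgp k m.2.2 ≤ d := by omega
  refine ⟨by exact_mod_cast h1, by exact_mod_cast h3, by exact_mod_cast h4, by exact_mod_cast h5⟩

end Fin_

theorem fin_regions (k : ℕ) {σ a b L₀ α β p q : ℝ} (ha : 0 < a)
    (hb : 0 < b) (hαβ : 0 < α + β) (d : ℕ) :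
    (∀ n : ℕ, {c : Sp k | dgp k c ≤ n}.Finite) ∧
    (Tb (dgp k) σ L₀ a b).Finite ∧ (Rg (dgp k) α β p q).Finite ∧ (Sx (dgp k) d).Finite ∧
      dgp k 0 = 0 ∧ ∀ c c' : Sp k, dgp k (c + c') = dgp k c + dgp k c' :=
  ⟨Fin_.fin_le k, Fin_.fin_Tb k ha hb, Fin_.fin_Rg k hαβ, Fin_.fin_Sx k d, Fin_.dgp_zero k,
    Fin_.dgp_add k⟩

end Pool.Agent.TH176.RK
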