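import Pool.Agent.TH176.RK.Defs

/-! The layers of the region of the tube contain the regions with two real slopes. -/

set_option autoImplicit false

namespace Pool.Agent.TH176.RK

open Pool.Agent.TH396.IN Pool.Agent.TH159.IA

namespace LayerTb_

/-- the arithmetic: the naturals `n₀, …, n₀ + j` lie in the column -/
theorem exists_start {W a v σ L x : ℝ} (j : ℕ) (hW0 : 0 < W) (hWa : 0 < W - a)
    (hv : v = W - a * σ) (h1 : W * (j + 1) ≤ x + σ * L)
    (h2 : a * x ≤ v * L - (W - a) * W * (j + 1)) :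
    ∃ n₀ : ℕ, ∀ n : ℕ, n₀ ≤ n → n ≤ n₀ + j →
      W * n ≤ x + σ * L ∧ x - (1 - σ) * L ≤ (W - a) * n := by
  refine ⟨⌈(x - (1 - σ) * L) / (W - a)⌉₊, fun n hn hn' => ?_⟩
  have hceil := Nat.le_ceil ((x - (1 - σ) * L) / (W - a))
  set n₀ : ℕ := ⌈(x - (1 - σ) * L) / (W - a)⌉₊ with hn₀
  have hnr : (n₀ : ℝ) ≤ n := by exact_mod_cast hn
  have hnr' : (n : ℝ) ≤ n₀ + j := by exact_mod_cast hn'
  constructor
  · have h3 : W * (n₀ + j) ≤ x + σ * L := by
      by_cases hA : (x - (1 - σ) * L) / (W - a) ≤ 0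
      · have h0 : n₀ = 0 := by rw [hn₀]; exact Nat.ceil_eq_zero.2 hA
        rw [h0, Nat.cast_zero, zero_add]
        nlinarith
      · have hA' : 0 ≤ (x - (1 - σ) * L) / (W - a) := (not_le.1 hA).le
        have h4 : (n₀ : ℝ) < (x - (1 - σ) * L) / (W - a) + 1 := Nat.ceil_lt_add_one hA'
        have h5 : (W - a) * n₀ < (x - (1 - σ) * L) + (W - a) := by
          have h6 := mul_lt_mul_of_pos_left h4 hWa
          have h7 : (W - a) * ((x - (1 - σ) * L) / (W - a) + 1) =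
              (x - (1 - σ) * L) + (W - a) := by
            field_simp
          rw [h7] at h6
          exact h6
        have h8 : W * ((W - a) * n₀) ≤ W * ((x - (1 - σ) * L) + (W - a)) :=
          mul_le_mul_of_nonneg_left h5.le hW0.le
        have h9 : (W - a) * (W * (n₀ + j)) ≤ (W - a) * (x + σ * L) := by
          have e1 : (W - a) * (W * (n₀ + j)) = W * ((W - a) * n₀) + (W - a) * W * j := by ring
          rw [e1]
          have e2 : W * ((x - (1 - σ) * L) + (W - a)) + (W - a) * W * j =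
              W * x - W * (1 - σ) * L + (W - a) * W * (j + 1) := by ring
          have e3 : v * L = (W - a) * σ * L + W * (1 - σ) * L := by rw [hv]; ring
          nlinarith
        exact le_of_mul_le_mul_left h9 hWa
    have h10 : W * n ≤ W * (n₀ + j) := mul_le_mul_of_nonneg_left hnr' hW0.le
    linarith
  · have h3 : x - (1 - σ) * L ≤ (W - a) * n₀ := by
      rw [div_le_iff₀ hWa] at hceil
      linarith
    have h4 : (W - a) * n₀ ≤ (W - a) * n := mul_le_mul_of_nonneg_left hnr hWa.le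
    linarith

end LayerTb_

theorem layer_Tb {P : Type} {dg : P → ℕ} {σ a b L₀ : ℝ} {v : ℤ} (hσ : 0 ≤ σ) (hσ1 : σ ≤ 1)
    (ha : 0 < a) (hW : a < v + a * σ) (hfin : (Tb dg σ L₀ a b).Finite) (j : ℕ) :
    Rg dg (σ * b) (v * b / a) (-(σ * L₀) + (v + a * σ) * (j + 1))
      ((v * L₀ - (v + a * σ - a) * (v + a * σ) * (j + 1)) / a) ⊆
        layer v (Tb dg σ L₀ a b) j := by
  rintro ⟨l, c⟩ ⟨h1, h2⟩
  simp only at h1 h2
  obtain ⟨W, hWd⟩ : ∃ W : ℝ, W = v + a * σ := ⟨_, rfl⟩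
  rw [← hWd] at hW h1 h2
  have hW0 : 0 < W := ha.trans hW
  have hWa : 0 < W - a := sub_pos.2 hW
  have hv : (v : ℝ) = W - a * σ := by rw [hWd]; ring
  obtain ⟨g, hg⟩ : ∃ g : ℝ, g = dg c := ⟨_, rfl⟩
  rw [← hg] at h1 h2
  obtain ⟨n₀, hn₀⟩ := LayerTb_.exists_start (W := W) (a := a) (v := v) (σ := σ)
    (L := L₀ - b * g) (x := l) j hW0 hWa hv (by linarith) (by
      have e1 : (v * L₀ - (W - a) * W * (j + 1)) / a - v * b / a * g =
        (v * (L₀ - b * g) - (W - a) * W * (j + 1)) / a := by ring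
      rw [e1, le_div_iff₀ ha] at h2
      linarith)
  show j < {n : ℕ | (l - v * n, (n, c)) ∈ Tb dg σ L₀ a b}.ncard
  have hC : {n : ℕ | (l - v * n, (n, c)) ∈ Tb dg σ L₀ a b}.Finite := by
    refine Set.Finite.preimage ?_ hfin
    intro n _ n' _ h
    exact (Prod.ext_iff.1 (Prod.ext_iff.1 h).2).1
  have hsub : ((Finset.Icc n₀ (n₀ + j) : Finset ℕ) : Set ℕ) ⊆
      {n : ℕ | (l - v * n, (n, c)) ∈ Tb dg σ L₀ a b} := by
    intro n hn
    rw [Finset.mem_coe, Finset.mem_Icc] at hn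
    obtain ⟨h3, h4⟩ := hn₀ n hn.1 hn.2
    refine ⟨?_, ?_⟩
    · show -(σ * (L₀ - a * (n : ℕ) - b * dg c)) ≤ ((l - v * n : ℤ) : ℝ)
      push_cast
      rw [← hg, hv]
      have e1 : -(σ * (L₀ - a * n - b * g)) = -(σ * (L₀ - b * g)) + a * σ * n := by ring
      rw [e1]
      linarith
    · show ((l - v * n : ℤ) : ℝ) ≤ (1 - σ) * (L₀ - a * (n : ℕ) - b * dg c)
      push_cast
      rw [← hg, hv]
      have e1 : (1 - σ) * (L₀ - a * n - b * g) = (1 - σ) * (L₀ - b * g) - a * n + a * σ * n := by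
        ring
      rw [e1]
      linarith
  have h5 := Set.ncard_le_ncard hsub hC
  rw [Set.ncard_coe_finset, Nat.card_Icc] at h5
  omega

end Pool.Agent.TH176.RK
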