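import Pool.Agent.TH396.IN.Proj
import Pool.Agent.TH176.RK.Defs

/-! Projection for ranks: all points on `Y = X ^ v`. -/

set_option autoImplicit false

namespace Pool.Agent.TH176.RK.ProjRank_

open Pool.Agent.TH396.IN Pool.Agent.TH159.IA

section fin
variable {K P : Type} [Field K] [AddCommMonoid P]

/-- the coefficients at the exponents in `S` -/
def res (S : Set (ℤ × P)) : ↥(spn K S) →ₗ[K] (S → K) where
  toFun f x := f.1.coeff x.1
  map_add' f g := by
    ext x
    show (f.1 + g.1).coeff x.1 = _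
    rw [AddMonoidAlgebra.coeff_add]
    rfl
  map_smul' c f := by
    ext x
    show (c • f.1).coeff x.1 = _
    rw [AddMonoidAlgebra.coeff_smul]
    rfl

theorem res_inj (S : Set (ℤ × P)) : Function.Injective (res (K := K) S) := by
  intro f g h
  apply Subtype.ext
  apply AddMonoidAlgebra.coeff_injective
  ext m
  by_cases hm : m ∈ S
  · exact congrFun h ⟨m, hm⟩
  · have h1 : f.1.coeff m = 0 := by
      by_contra hc
      exact hm (f.2 m hc)
    have h2 : g.1.coeff m = 0 := by
      by_contra hc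
      exact hm (g.2 m hc)
    rw [h1, h2]

theorem fin_spn {S : Set (ℤ × P)} (hS : S.Finite) : Module.Finite K ↥(spn K S) := by
  have := hS.to_subtype
  exact Module.Finite.of_injective (res S) (res_inj S)

theorem finrank_spn_le {S : Set (ℤ × P)} (hS : S.Finite) :
    Module.finrank K ↥(spn K S) ≤ S.ncard := by
  have := hS.fintype
  have h := LinearMap.finrank_le_finrank_of_injective (res_inj (K := K) S)
  rw [Module.finrank_fintype_fun_eq_card] at h
  rwa [← Nat.card_coe_set_eq, Nat.card_eq_fintype_card]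

end fin

/-- rank and nullity -/
theorem step {K V V' : Type} [Field K] [AddCommGroup V] [Module K V] [AddCommGroup V']
    [Module K V'] (N N' : Submodule K V) (L : Submodule K V') (φ : V →ₗ[K] V')
    (hφ : ∀ f ∈ N, φ f ∈ L) (hk : ∀ f ∈ N, φ f = 0 → f ∈ N') [Module.Finite K N]
    [Module.Finite K N'] [Module.Finite K L] :
    Module.finrank K N ≤ Module.finrank K N' + Module.finrank K L := by
  let ψ : N →ₗ[K] L := φ.restrict hφ
  have h1 := LinearMap.finrank_range_add_finrank_ker ψ
  have h2 : Module.finrank K (LinearMap.range ψ) ≤ Module.finrank K L :=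
    Submodule.finrank_le _
  let χ : LinearMap.ker ψ →ₗ[K] N' :=
    { toFun := fun f => ⟨f.1.1, hk f.1.1 f.1.2 (by
        have := f.2
        rw [LinearMap.mem_ker] at this
        exact congrArg Subtype.val this)⟩
      map_add' := fun _ _ => rfl
      map_smul' := fun _ _ => rfl }
  have h3 : Module.finrank K (LinearMap.ker ψ) ≤ Module.finrank K N' := by
    refine LinearMap.finrank_le_finrank_of_injective (f := χ) ?_
    intro f g h
    have h' : (f.1.1 : V) = g.1.1 := congrArg (fun z : N' => (z : V)) h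
    exact Subtype.ext (Subtype.ext h')
  omega

section tc
variable {P K : Type} [AddCommMonoid P] [Field K]

/-- the Taylor coefficients -/
noncomputable def tc (v : ℤ) (c : ℕ) : LP K (ℕ × P) →ₗ[K] LP K P where
  toFun f := PowerSeries.coeff c (tay v f)
  map_add' f g := by rw [map_add, map_add]
  map_smul' a f := by
    rw [map_smul, PowerSeries.coeff_smul]
    rfl

theorem tc_apply (v : ℤ) (c : ℕ) (f : LP K (ℕ × P)) : tc v c f = PowerSeries.coeff c (tay v f) :=
  rfl

/-- the elements whose Taylor coefficients below `c` vanish -/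
def Z (v : ℤ) (c : ℕ) : Submodule K (LP K (ℕ × P)) where
  carrier := {f | ∀ j < c, tc v j f = 0}
  add_mem' {f g} hf hg j hj := by rw [map_add, hf j hj, hg j hj, add_zero]
  zero_mem' j _ := map_zero _
  smul_mem' a f hf j hj := by rw [map_smul, hf j hj, smul_zero]

theorem fib_fin (v : ℤ) {S : Set (ℤ × (ℕ × P))} (hS : S.Finite) (m : ℤ × P) :
    {n : ℕ | (m.1 - v * n, (n, m.2)) ∈ S}.Finite := by
  refine hS.preimage (f := fun n : ℕ => (m.1 - v * (n : ℤ), (n, m.2))) ?_
  intro a _ b _ h
  exact congrArg (fun x : ℤ × (ℕ × P) => x.2.1) h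

theorem fbr_card_le (v : ℤ) {S : Set (ℤ × (ℕ × P))} (hS : S.Finite) {f : LP K (ℕ × P)}
    (hf : f ∈ spn K S) (m : ℤ × P) :
    (fbr v f m).card ≤ {n : ℕ | (m.1 - v * n, (n, m.2)) ∈ S}.ncard := by
  rw [← Set.ncard_coe_finset]
  refine Set.ncard_le_ncard ?_ (fib_fin v hS m)
  intro n hn
  exact hf _ (mem_fbr.1 hn)

theorem zero_of [CharZero K] (v : ℤ) {c : ℕ} {f : LP K (ℕ × P)} (hf : f ∈ Z v c) {m : ℤ × P}
    (h : (fbr v f m).card ≤ c) : ∀ n ∈ fbr v f m, f.coeff (m.1 - v * n, (n, m.2)) = 0 := by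
  refine Pool.Agent.TH176.Nag.vand (F := K) (B := fbr v f m)
    (v := fun n => f.coeff (m.1 - v * n, (n, m.2))) (fun l hl => ?_)
  have h2 := hf l (by omega)
  rw [tc_apply] at h2
  rw [← coeff_coeff_tay, h2]
  rfl

theorem tc_mem [CharZero K] (v : ℤ) {S : Set (ℤ × (ℕ × P))} (hS : S.Finite) {c : ℕ}
    {f : LP K (ℕ × P)} (hf : f ∈ spn K S) (hz : f ∈ Z v c) : tc v c f ∈ spn K (layer v S c) := by
  intro m hm
  show c < _
  refine lt_of_lt_of_le ?_ (fbr_card_le v hS hf m)
  by_contra hcon
  apply hm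
  rw [tc_apply, coeff_coeff_tay]
  exact Finset.sum_eq_zero fun n hn => by rw [zero_of v hz (by omega) n hn, mul_zero]

theorem tc_mult {ι : Type} (v : ℤ) (e : ι → (LP K P →ₐ[K] K)) (w : ι → ℕ) (c : ℕ)
    {f : LP K (ℕ × P)}
    (hf : f ∈ mu (fun i => (e i).comp (AddMonoidAlgebra.mapDomainAlgHom K K (pz (P := P) v))) w) :
    tc v c f ∈ mu e (fun i => w i - c) := by
  intro i
  have h1 : RingHom.ker ((e i).comp (AddMonoidAlgebra.mapDomainAlgHom K K (pz (P := P) v))) ≤
      (TJ (RingHom.ker (e i)) 1).comap (tay v) := by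
    intro g hg
    rw [Ideal.mem_comap, mem_TJ]
    intro k
    rcases Nat.eq_zero_or_pos k with rfl | hk
    · rw [constCoeff_tay, Nat.sub_zero, pow_one]
      exact hg
    · rw [Nat.sub_eq_zero_of_le hk, pow_zero, Ideal.one_eq_top]
      exact Submodule.mem_top
  have h2 := Ideal.pow_right_mono h1 (w i) (hf i)
  have h3 := Ideal.le_comap_pow (tay v) (w i) h2
  rw [Ideal.mem_comap] at h3
  exact TJ_pow_le _ _ h3 c

theorem Z_zero [CharZero K] (v : ℤ) {S : Set (ℤ × (ℕ × P))} (hS : S.Finite) {c : ℕ}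
    (hc : S.ncard ≤ c) {f : LP K (ℕ × P)} (hf : f ∈ spn K S) (hz : f ∈ Z v c) : f = 0 := by
  rw [← AddMonoidAlgebra.coeff_eq_zero]
  ext x
  by_contra hx
  have h3 : ((pz v x).1 - v * x.2.1, (x.2.1, (pz v x).2)) = x := by
    rw [pz_apply]
    ext
    · simp
    · rfl
    · rfl
  have h2 : x.2.1 ∈ fbr v f (pz v x) := by
    rw [mem_fbr, h3]
    exact hx
  have hcard : (fbr v f (pz v x)).card ≤ c := by
    refine (fbr_card_le v hS hf _).trans (le_trans ?_ hc)
    refine Set.ncard_le_ncard_of_injOn (fun n : ℕ => ((pz v x).1 - v * (n : ℤ), (n, (pz v x).2)))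
      (fun n hn => hn) ?_ hS
    intro a _ b _ h
    exact congrArg (fun x : ℤ × (ℕ × P) => x.2.1) h
  exact (mem_fbr.1 h2) (zero_of v hz hcard _ h2)

end tc

open Classical in
theorem layer_sum {P : Type} [AddCommMonoid P] (v : ℤ) {S : Set (ℤ × (ℕ × P))} (hS : S.Finite)
    (C : ℕ) : (∀ c, (layer v S c).Finite) ∧ ∑ c ∈ Finset.range C, (layer v S c).ncard ≤ S.ncard := by
  set F := hS.toFinset with hF
  set X := F.image (pz v) with hX
  set k : ℤ × P → ℕ := fun x => (F.filter (fun p => pz v p = x)).card with hk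
  have hsub : ∀ c, layer v S c ⊆ ((X.filter (fun x => c < k x) : Finset (ℤ × P)) : Set (ℤ × P)) := by
    intro c x hx
    have h1 : c < {n : ℕ | (x.1 - v * n, (n, x.2)) ∈ S}.ncard := hx
    have h2 : {n : ℕ | (x.1 - v * n, (n, x.2)) ∈ S}.ncard ≤ k x := by
      rw [hk]
      simp only
      rw [← Set.ncard_coe_finset]
      refine Set.ncard_le_ncard_of_injOn (fun n : ℕ => (x.1 - v * (n : ℤ), (n, x.2))) ?_ ?_
        (Finset.finite_toSet _)
      · intro n hn
        rw [Finset.mem_coe, Finset.mem_filter, hF, Set.Finite.mem_toFinset]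
        refine ⟨hn, ?_⟩
        rw [pz_apply]
        ext
        · simp
        · rfl
      · intro a _ b _ h
        exact congrArg (fun x : ℤ × (ℕ × P) => x.2.1) h
    rw [Finset.mem_coe, Finset.mem_filter]
    refine ⟨?_, by omega⟩
    have h3 : 0 < k x := by omega
    obtain ⟨p, hp⟩ := Finset.card_pos.1 h3
    rw [Finset.mem_filter] at hp
    rw [hX, Finset.mem_image]
    exact ⟨p, hp.1, hp.2⟩
  refine ⟨fun c => (Finset.finite_toSet _).subset (hsub c), ?_⟩
  have h1 : ∀ c ∈ Finset.range C, (layer v S c).ncard ≤ ∑ x ∈ X, if c < k x then 1 else 0 := by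
    intro c _
    have := Set.ncard_le_ncard (hsub c) (Finset.finite_toSet _)
    rw [Set.ncard_coe_finset, Finset.card_filter] at this
    exact this
  refine (Finset.sum_le_sum h1).trans ?_
  rw [Finset.sum_comm]
  have h2 : S.ncard = ∑ x ∈ X, k x := by
    rw [Set.ncard_eq_toFinset_card S hS, hX]
    exact Finset.card_eq_sum_card_image (pz v) F
  rw [h2]
  refine Finset.sum_le_sum fun x _ => ?_
  rw [← Finset.card_filter]
  have h3 : (Finset.range C).filter (fun c => c < k x) ⊆ Finset.range (k x) := by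
    intro c hc
    rw [Finset.mem_filter] at hc
    exact Finset.mem_range.2 hc.2
  have h4 := Finset.card_le_card h3
  rwa [Finset.card_range] at h4

theorem hockey (m : ℕ) (hm : 1 ≤ m) : ∀ n C : ℕ, n ≤ C →
    ∑ c ∈ Finset.range C, (n - c + (m - 1)).choose m = (n + m).choose (m + 1) := by
  intro n
  induction n with
  | zero =>
    intro C _
    rw [Nat.choose_eq_zero_of_lt (by omega : 0 + m < m + 1)]
    refine Finset.sum_eq_zero fun c _ => ?_
    exact Nat.choose_eq_zero_of_lt (by omega)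
  | succ n ih =>
    intro C hC
    obtain ⟨C, rfl⟩ : ∃ D, C = D + 1 := ⟨C - 1, by omega⟩
    rw [Finset.sum_range_succ']
    have h1 : ∀ c ∈ Finset.range C, (n + 1 - (c + 1) + (m - 1)).choose m =
        (n - c + (m - 1)).choose m := by
      intro c _
      rw [Nat.add_sub_add_right]
    rw [Finset.sum_congr rfl h1, ih C (by omega)]
    have h2 : n + 1 - 0 + (m - 1) = n + m := by omega
    rw [h2, show n + 1 + m = (n + m) + 1 by ring, Nat.choose_succ_succ, add_comm]

theorem jn_sum {ι : Type} [Fintype ι] (m : ℕ) (hm : 1 ≤ m) (w : ι → ℕ) (C : ℕ)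
    (hC : ∀ i, w i ≤ C) : ∑ c ∈ Finset.range C, Jn m (fun i => w i - c) = Jn (m + 1) w := by
  unfold Jn
  rw [Finset.sum_comm]
  refine Finset.sum_congr rfl fun i _ => ?_
  rw [Nat.add_sub_cancel]
  exact hockey m hm (w i) C (hC i)

end Pool.Agent.TH176.RK.ProjRank_

namespace Pool.Agent.TH176.RK

open Pool.Agent.TH396.IN Pool.Agent.TH159.IA

theorem proj_rank {ι P K : Type} [Fintype ι] [AddCommMonoid P] [Field K] [CharZero K] (v : ℤ)
    (e : ι → (LP K P →ₐ[K] K)) : ∃ e' : ι → (LP K (ℕ × P) →ₐ[K] K),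
    ∀ (w : ι → ℕ) (m W : ℕ) (S : Set (ℤ × (ℕ × P))), 1 ≤ m → (∀ i, w i ≤ W) → S.Finite →
      (∀ c < W, Ind e (fun i => w i - c) m (layer v S c)) → Ind e' w (m + 1) S := by
  classical
  refine ⟨fun i => (e i).comp (AddMonoidAlgebra.mapDomainAlgHom K K (pz (P := P) v)), ?_⟩
  intro w m W S hm hW hS hind
  refine ⟨hS, ?_⟩
  set e' : ι → (LP K (ℕ × P) →ₐ[K] K) := fun i =>
    (e i).comp (AddMonoidAlgebra.mapDomainAlgHom K K (pz (P := P) v)) with he'
  set N : ℕ → Submodule K (LP K (ℕ × P)) := fun c => spn K S ⊓ mu e' w ⊓ ProjRank_.Z v c with hN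
  set L : ℕ → Submodule K (LP K P) := fun c => spn K (layer v S c) ⊓ mu e (fun i => w i - c)
    with hL
  have hfS : Module.Finite K ↥(spn K S) := ProjRank_.fin_spn hS
  have hlay : ∀ c, (layer v S c).Finite := (ProjRank_.layer_sum v hS 0).1
  have hfN : ∀ c, Module.Finite K ↥(N c) := fun c =>
    Submodule.finiteDimensional_of_le (inf_le_left.trans inf_le_left)
  have hfL : ∀ c, Module.Finite K ↥(L c) := fun c => by
    have := ProjRank_.fin_spn (K := K) (hlay c)
    exact Submodule.finiteDimensional_of_le inf_le_left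
  have hstep : ∀ c, Module.finrank K ↥(N c) ≤ Module.finrank K ↥(N (c + 1)) +
      Module.finrank K ↥(L c) := by
    intro c
    have := hfN c
    have := hfN (c + 1)
    have := hfL c
    refine ProjRank_.step (N c) (N (c + 1)) (L c) (ProjRank_.tc v c) ?_ ?_
    · rintro f ⟨⟨h1, h2⟩, h3⟩
      exact ⟨ProjRank_.tc_mem v hS h1 h3, ProjRank_.tc_mult v e w c h2⟩
    · rintro f ⟨⟨h1, h2⟩, h3⟩ h4
      refine ⟨⟨h1, h2⟩, fun j hj => ?_⟩
      rcases Nat.lt_succ_iff_lt_or_eq.1 hj with h | rfl
      · exact h3 j h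
      · exact h4
  have hsum : ∀ C, Module.finrank K ↥(N 0) ≤ Module.finrank K ↥(N C) +
      ∑ c ∈ Finset.range C, Module.finrank K ↥(L c) := by
    intro C
    induction C with
    | zero => simp
    | succ C ih =>
      rw [Finset.sum_range_succ]
      have := hstep C
      omega
  have hN0 : N 0 = spn K S ⊓ mu e' w := by
    rw [hN]
    refine inf_eq_left.2 fun f _ => ?_
    intro j hj
    omega
  set C := max W S.ncard with hCdef
  have hNC : Module.finrank K ↥(N C) = 0 := by
    have : N C = ⊥ := by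
      rw [Submodule.eq_bot_iff]
      rintro f ⟨⟨h1, -⟩, h3⟩
      exact ProjRank_.Z_zero v hS (le_max_right _ _) h1 h3
    rw [this]
    exact finrank_bot K _
  have hterm : ∀ c ∈ Finset.range C, Module.finrank K ↥(L c) + Jn m (fun i => w i - c) ≤
      (layer v S c).ncard := by
    intro c _
    by_cases hc : c < W
    · exact (hind c hc).2
    · have h1 : Jn m (fun i => w i - c) = 0 := by
        unfold Jn
        refine Finset.sum_eq_zero fun i _ => ?_
        have h5 : w i - c = 0 := by
          have := hW i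
          omega
        show (w i - c + (m - 1)).choose m = 0
        rw [h5]
        exact Nat.choose_eq_zero_of_lt (by omega)
      rw [h1, add_zero]
      have := ProjRank_.fin_spn (K := K) (hlay c)
      refine le_trans ?_ (ProjRank_.finrank_spn_le (K := K) (hlay c))
      exact Submodule.finrank_mono inf_le_left
  have h2 := Finset.sum_le_sum hterm
  rw [Finset.sum_add_distrib, ProjRank_.jn_sum m hm w C (fun i => (hW i).trans (le_max_left _ _))] at h2
  have h3 := (ProjRank_.layer_sum v hS C).2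
  have h4 := hsum C
  rw [hNC, hN0] at h4
  omega

end Pool.Agent.TH176.RK
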