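import Pool.Agent.TH176.RK.Mono
import Pool.Agent.TH176.RK.Fin
import Pool.Agent.TH176.RK.ProjRank
import Pool.Agent.TH176.RK.LayerTb

/-! The flattening step for ranks. -/

set_option autoImplicit false

namespace Pool.Agent.TH176.RK

open Pool.Agent.TH396.IN Pool.Agent.TH159.IA

namespace FlatRank_

theorem finite_layer {P : Type} {v : ℤ} {S : Set (ℤ × (ℕ × P))} (hS : S.Finite) (c : ℕ) :
    (layer v S c).Finite := by
  refine (hS.image fun y => (y.1 + v * y.2.1, y.2.2)).subset fun x hx => ?_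
  have h1 : c < {n : ℕ | (x.1 - v * n, (n, x.2)) ∈ S}.ncard := hx
  obtain ⟨n, hn⟩ := Set.nonempty_of_ncard_ne_zero (Nat.ne_zero_of_lt h1)
  refine ⟨_, hn, ?_⟩
  simp

end FlatRank_

theorem flat_rank {ι : Type} [Fintype ι] {k : ℕ} {σ a b c κ : ℝ} {v : ℤ} (hσ : 0 ≤ σ)
    (hσ1 : σ ≤ 1) (ha : 0 < a) (hb : 0 < b) (hc : 0 ≤ c) (hκ : 0 ≤ κ) (hW : a < v + a * σ)
    (hac : a * c ≤ (v + a * σ) ^ 2) (h : RGood ι k (σ * b) (v * b / a) c κ) :
    TGood ι k σ a b (v + a * σ) (κ + 1) := by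
  intro B
  obtain ⟨V, hV⟩ : ∃ V : ℝ, V = v + a * σ := ⟨_, rfl⟩
  have hv : (v : ℝ) = V - a * σ := by rw [hV]; ring
  rw [← hV] at hW hac
  have hV0 : 0 < V := ha.trans hW
  obtain ⟨K, _, _, e, he⟩ := h (V / a * max B 0)
  obtain ⟨e', he'⟩ := proj_rank v e
  refine ⟨K, inferInstance, inferInstance, e', fun L₀ w W hw hL hWL => ?_⟩
  rw [← hV] at hWL
  have hfin : (Tb (dgp k) σ L₀ a b).Finite :=
    (fin_regions k (α := 1) (β := 1) (p := 0) (q := 0) ha hb (by norm_num) 0).2.1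
  refine he' w (k + 1) W _ (by omega) hw hfin fun j hj => ?_
  have hlay := layer_Tb hσ hσ1 ha (by rw [← hV]; exact hW) hfin j
  rw [← hV] at hlay
  refine Ind.mono ?_ hlay (FlatRank_.finite_layer hfin j)
  have hqp : (v * L₀ - (V - a) * V * (j + 1)) / a - (-(σ * L₀) + V * (j + 1)) =
      V / a * (L₀ - V * (j + 1)) := by
    rw [hv]
    field_simp
    ring
  have hj0 : (0 : ℝ) ≤ j := Nat.cast_nonneg j
  have hjW : (j : ℝ) + 1 ≤ W := by exact_mod_cast hj
  refine he _ _ (fun i => w i - j) (W - j) (fun i => Nat.sub_le_sub_right (hw i) j) ?_ ?_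
  · rw [hqp]
    refine mul_le_mul_of_nonneg_left ?_ (by positivity)
    have h1 : 0 ≤ V * (j + 1) := by positivity
    have h2 := le_max_left B 0
    linarith
  · rw [hqp, Nat.cast_sub hj.le]
    have h1 : V * (W - j + κ) ≤ L₀ - V * (j + 1) := by
      have h2 : V * (W + (κ + 1)) = V * (W - j + κ) + V * (j + 1) := by ring
      linarith
    have h3 : 0 ≤ (W : ℝ) - j + κ := by linarith
    have h4 : c ≤ V / a * V := by
      rw [div_mul_eq_mul_div, le_div_iff₀ ha]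
      linarith
    calc c * ((W : ℝ) - j + κ) ≤ V / a * V * (W - j + κ) := mul_le_mul_of_nonneg_right h4 h3
      _ = V / a * (V * (W - j + κ)) := by ring
      _ ≤ V / a * (L₀ - V * (j + 1)) := mul_le_mul_of_nonneg_left h1 (by positivity)

end Pool.Agent.TH176.RK
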