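import Pool.Agent.TH176.RK.Defs
set_option autoImplicit false
namespace Pool.Agent.TH176.RK
open Pool.Agent.TH396.IN Pool.Agent.TH159.IA

namespace Irr_

theorem countable_bad (g : ℝ → ℝ) (hg : Function.Injective g) :
    {x : ℝ | ¬ Irrational (g x)}.Countable := by
  have h1 : {x : ℝ | ¬ Irrational (g x)} = g ⁻¹' (Set.range ((↑) : ℚ → ℝ)) := by
    ext x
    simp only [Irrational, Set.mem_setOf_eq, not_not, Set.mem_preimage]
  rw [h1]
  exact (Set.countable_range _).preimage_of_injOn hg.injOn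

end Irr_

theorem exists_good {κ' u₀ u : ℝ} (hκ : 0 < κ') (h : u₀ < u) : ∃ u' : ℝ, u₀ < u' ∧ u' < u ∧
    ∀ v : ℤ, Irrational ((2 * κ' * u' - v) / (4 * κ')) ∧ Irrational ((3 * u' - v) / 9) := by
  set B : Set ℝ := ⋃ v : ℤ, ({x : ℝ | ¬ Irrational ((2 * κ' * x - v) / (4 * κ'))} ∪
    {x : ℝ | ¬ Irrational ((3 * x - v) / 9)}) with hB
  have hc : B.Countable := by
    refine Set.countable_iUnion fun v => Set.Countable.union
      (Irr_.countable_bad (fun x : ℝ => (2 * κ' * x - v) / (4 * κ')) ?_)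
      (Irr_.countable_bad (fun x : ℝ => (3 * x - v) / 9) ?_)
    · intro x y hxy
      have h1 : (2 * κ' * x - v) / (4 * κ') = (2 * κ' * y - v) / (4 * κ') := hxy
      have h4 : (4 * κ') ≠ 0 := by positivity
      rw [div_left_inj' h4] at h1
      have h5 : 2 * κ' ≠ 0 := by positivity
      exact mul_left_cancel₀ h5 (by linarith)
    · intro x y hxy
      have h1 : (3 * x - v) / 9 = (3 * y - v) / 9 := hxy
      linarith
  obtain ⟨x, hx, h1, h2⟩ := (hc.dense_compl ℝ).exists_between h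
  refine ⟨x, h1, h2, fun v => ?_⟩
  by_contra h3
  apply hx
  rw [hB, Set.mem_iUnion]
  refine ⟨v, ?_⟩
  rw [not_and_or] at h3
  exact h3

end Pool.Agent.TH176.RK
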