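import Pool.Agent.TH176.RK.Defs

/-! Monotony of independence. -/

set_option autoImplicit false

namespace Pool.Agent.TH176.RK

open Pool.Agent.TH396.IN

variable {K : Type} [Field K] {P : Type} [AddCommMonoid P]

theorem mem_spn {S : Set (ℤ × P)} {f : LP K P} : f ∈ spn K S ↔ ∀ m, f.coeff m ≠ 0 → m ∈ S :=
  Iff.rfl

theorem mem_mu {ι : Type} {e : ι → (LP K P →ₐ[K] K)} {w : ι → ℕ} {f : LP K P} :
    f ∈ mu e w ↔ Mult e w f := Iff.rfl

theorem spn_mono {S S' : Set (ℤ × P)} (h : S ⊆ S') : spn K S ≤ spn K S' :=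
  fun _ hf m hm => h (hf m hm)

/-- the elements with exponents in `S` as functions on `S` -/
noncomputable def eqv (S : Finset (ℤ × P)) : spn K (S : Set (ℤ × P)) ≃ₗ[K] (S → K) where
  toFun f := fun m => f.1.coeff m.1
  map_add' f g := by ext m; simp
  map_smul' c f := by ext m; simp
  invFun u := ⟨AddMonoidAlgebra.ofCoeff (Finsupp.onFinset S
      (fun m => by classical exact if h : m ∈ S then u ⟨m, h⟩ else 0)
      (fun m hm => by
        classical
        by_contra h
        exact hm (dif_neg h))), by
    classical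
    intro m hm
    by_contra h
    apply hm
    simp only [Finsupp.onFinset_apply]
    exact dif_neg h⟩
  left_inv f := by
    classical
    apply Subtype.ext
    apply AddMonoidAlgebra.coeff_injective
    ext m
    simp only [Finsupp.onFinset_apply]
    split_ifs with h
    · rfl
    · by_contra hne
      exact h (f.2 m (fun h0 => hne h0.symm))
  right_inv u := by
    classical
    ext m
    simp only [Finsupp.onFinset_apply]
    exact dif_pos m.2

theorem finite_spn {S : Set (ℤ × P)} (h : S.Finite) : FiniteDimensional K (spn K S) := by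
  obtain ⟨S, rfl⟩ := h.exists_finset_coe
  exact Module.Finite.equiv (eqv (K := K) S).symm

theorem finrank_spn {S : Set (ℤ × P)} (h : S.Finite) :
    Module.finrank K (spn K S) = S.ncard := by
  obtain ⟨S, rfl⟩ := h.exists_finset_coe
  rw [(eqv (K := K) S).finrank_eq, Module.finrank_fintype_fun_eq_card, Fintype.card_coe,
    Set.ncard_coe_finset]

/-- the general monotony -/
theorem mono_sub {V V' M : Submodule K (LP K P)} [FiniteDimensional K V] (h : V' ≤ V) :
    Module.finrank K ↥(V ⊓ M) + Module.finrank K V' ≤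
      Module.finrank K V + Module.finrank K ↥(V' ⊓ M) := by
  have f1 : FiniteDimensional K V' := Submodule.finiteDimensional_of_le h
  have f2 : FiniteDimensional K ↥(V ⊓ M) := Submodule.finiteDimensional_of_le inf_le_left
  have h1 := Submodule.finrank_sup_add_finrank_inf_eq (V ⊓ M) V'
  have h2 : V ⊓ M ⊓ V' = V' ⊓ M := by
    apply le_antisymm
    · exact le_inf inf_le_right (inf_le_left.trans inf_le_right)
    · exact le_inf (le_inf (inf_le_left.trans h) inf_le_right) inf_le_left
  rw [h2] at h1
  have h3 : Module.finrank K ↥(V ⊓ M ⊔ V') ≤ Module.finrank K V :=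
    Submodule.finrank_mono (sup_le inf_le_left h)
  omega

theorem Ind.of_sub {ι : Type} [Fintype ι] {e : ι → (LP K P →ₐ[K] K)} {w : ι → ℕ} {m : ℕ}
    {S : Set (ℤ × P)} (hS : S.Finite) {V' : Submodule K (LP K P)} (h : V' ≤ spn K S)
    (hV : Module.finrank K ↥(V' ⊓ mu e w) + Jn m w ≤ Module.finrank K V') : Ind e w m S := by
  have f1 := finite_spn (K := K) hS
  have h1 := mono_sub (M := mu e w) h
  rw [finrank_spn hS] at h1
  exact ⟨hS, by omega⟩

theorem Ind.mono {ι : Type} [Fintype ι] {e : ι → (LP K P →ₐ[K] K)} {w : ι → ℕ} {m : ℕ}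
    {S S' : Set (ℤ × P)} (h : Ind e w m S) (hS : S ⊆ S') (hS' : S'.Finite) : Ind e w m S' := by
  refine Ind.of_sub hS' (spn_mono hS) ?_
  rw [finrank_spn h.1]
  exact h.2

end Pool.Agent.TH176.RK
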