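import Pool.Agent.TH176.RK.Defs

/-! Supports of the products of monomials with powers of the equation, for two slopes. -/

set_option autoImplicit false

namespace Pool.Agent.TH176.RK

open Pool.Agent.TH396.IN Pool.Agent.TH159.IA

namespace Sup2_

theorem mul_sup {K M : Type} [Field K] [AddCommMonoid M] (x y : AddMonoidAlgebra K M) {m : M}
    (h : (x * y).coeff m ≠ 0) : ∃ a b, x.coeff a ≠ 0 ∧ y.coeff b ≠ 0 ∧ a + b = m := by
  classical
  rw [AddMonoidAlgebra.coeff_mul, Finsupp.sum] at h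
  obtain ⟨a, ha, h2⟩ := Finset.exists_ne_zero_of_sum_ne_zero h
  rw [Finsupp.sum] at h2
  obtain ⟨b, hb, h3⟩ := Finset.exists_ne_zero_of_sum_ne_zero h2
  refine ⟨a, b, Finsupp.mem_support_iff.1 ha, Finsupp.mem_support_iff.1 hb, ?_⟩
  by_contra h4
  exact h3 (if_neg h4)

theorem single_sup {K M : Type} [Field K] [AddCommMonoid M] {a m : M} {r : K}
    (h : (AddMonoidAlgebra.single a r : AddMonoidAlgebra K M).coeff m ≠ 0) : m = a := by
  classical
  rw [AddMonoidAlgebra.coeff_single, Finsupp.single_apply] at h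
  by_contra h2
  exact h (if_neg fun h3 => h2 h3.symm)

theorem add_sup {K M : Type} [Field K] [AddCommMonoid M] {x y : AddMonoidAlgebra K M} {m : M}
    (h : (x + y).coeff m ≠ 0) : x.coeff m ≠ 0 ∨ y.coeff m ≠ 0 := by
  by_contra h2
  push Not at h2
  exact h (by rw [AddMonoidAlgebra.coeff_add, Finsupp.add_apply, h2.1, h2.2, add_zero])

theorem sub_sup {K M : Type} [Field K] [AddCommMonoid M] {x y : AddMonoidAlgebra K M} {m : M}
    (h : (x - y).coeff m ≠ 0) : x.coeff m ≠ 0 ∨ y.coeff m ≠ 0 := by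
  by_contra h2
  push Not at h2
  exact h (by rw [AddMonoidAlgebra.coeff_sub, Finsupp.sub_apply, h2.1, h2.2, sub_zero])

theorem Hk_sup {K : Type} [Field K] {P : Type} [AddCommMonoid P] {t : K} {y : ℤ × (ℕ × P)}
    (h : (Hk P 0 t).coeff y ≠ 0) :
    y.2.2 = 0 ∧ ((y.2.1 = 2 ∧ y.1 = 0) ∨ (y.2.1 = 0 ∧ |y.1| ≤ 1)) := by
  unfold Hk at h
  rcases add_sup h with h | h
  · rcases sub_sup h with h | h
    · rcases add_sup h with h | h
      · rcases sub_sup h with h | h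
        · rw [single_sup h]
          exact ⟨rfl, Or.inl ⟨rfl, rfl⟩⟩
        · rw [single_sup h]
          exact ⟨rfl, Or.inr ⟨rfl, by simp⟩⟩
      · rw [single_sup h]
        exact ⟨rfl, Or.inr ⟨rfl, by simp⟩⟩
    · rw [single_sup h]
      exact ⟨rfl, Or.inr ⟨rfl, by simp⟩⟩
  · rw [single_sup h]
    exact ⟨rfl, Or.inr ⟨rfl, by simp⟩⟩

theorem pow_sup {K : Type} [Field K] {P : Type} [AddCommMonoid P] {t : K} (e : ℕ) :
    ∀ y : ℤ × (ℕ × P), (Hk P 0 t ^ e).coeff y ≠ 0 →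
      y.2.2 = 0 ∧ ∃ i : ℕ, i ≤ e ∧ y.2.1 = 2 * i ∧ |y.1| ≤ (e : ℤ) - i := by
  induction e with
  | zero =>
    intro y h
    rw [pow_zero, AddMonoidAlgebra.one_def] at h
    rw [single_sup h]
    exact ⟨rfl, 0, le_rfl, rfl, by simp⟩
  | succ e ih =>
    intro y h
    rw [pow_succ] at h
    obtain ⟨a, b, ha, hb, rfl⟩ := mul_sup _ _ h
    obtain ⟨h1, i, hi, h2, h3⟩ := ih a ha
    obtain ⟨h4, h5⟩ := Hk_sup hb
    refine ⟨by rw [Prod.snd_add, Prod.snd_add, h1, h4, add_zero], ?_⟩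
    rw [Prod.snd_add, Prod.fst_add, Prod.fst_add, h2]
    rcases h5 with ⟨h6, h7⟩ | ⟨h6, h7⟩
    · refine ⟨i + 1, by omega, by omega, ?_⟩
      rw [h7, add_zero]
      push_cast
      linarith
    · refine ⟨i, by omega, by omega, ?_⟩
      have := abs_add_le a.1 b.1
      push_cast
      linarith

end Sup2_

open Sup2_ in
theorem sup2 {K : Type} [Field K] {P : Type} [AddCommMonoid P] {dg : P → ℕ} (h0 : dg 0 = 0)
    (hdg : ∀ c c', dg (c + c') = dg c + dg c') (t : K) {α β p q : ℝ} (hα : 1 / 2 ≤ α)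
    (hβ : 1 / 2 ≤ β) {j : ℕ × P} {x : ℤ × ℕ}
    (hx : p + α * (x.2 + 2 * j.1 + dg j.2) ≤ x.1)
    (hx' : (x.1 : ℝ) ≤ q - β * (x.2 + 2 * j.1 + dg j.2)) (y : ℤ × (ℕ × P))
    (hy : ((AddMonoidAlgebra.single (x.1, (x.2, 0)) 1 * Hk P 0 t ^ j.1 *
      AddMonoidAlgebra.single (0, (0, j.2)) 1 : LP K (ℕ × P))).coeff y ≠ 0) :
    y ∈ Rg (dgS dg) α β p q := by
  obtain ⟨a, b, ha, hb, rfl⟩ := mul_sup _ _ hy
  obtain ⟨a', c, ha', hc, rfl⟩ := mul_sup _ _ ha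
  obtain ⟨h1, i, hi, h2, h3⟩ := pow_sup j.1 c hc
  rw [single_sup hb, single_sup ha']
  have e1 : (((x.1, (x.2, (0 : P))) + c + (0, (0, j.2)) : ℤ × (ℕ × P))).1 = x.1 + c.1 := by
    simp
  have e2 : dgS dg (((x.1, (x.2, (0 : P))) + c + (0, (0, j.2)) : ℤ × (ℕ × P))).2 =
      x.2 + 2 * i + dg j.2 := by
    unfold dgS
    simp [h1, h2]
  have h4 := abs_le.1 h3
  have h5 : -((j.1 : ℝ) - i) ≤ c.1 := by exact_mod_cast h4.1
  have h6 : (c.1 : ℝ) ≤ (j.1 : ℝ) - i := by exact_mod_cast h4.2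
  have h7 : (0 : ℝ) ≤ (j.1 : ℝ) - i := by
    have : (i : ℝ) ≤ j.1 := by exact_mod_cast hi
    linarith
  refine ⟨?_, ?_⟩
  · rw [e1, e2]
    push_cast
    nlinarith [mul_nonneg (by linarith : (0 : ℝ) ≤ α - 1 / 2) h7]
  · rw [e1, e2]
    push_cast
    nlinarith [mul_nonneg (by linarith : (0 : ℝ) ≤ β - 1 / 2) h7]

end Pool.Agent.TH176.RK
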