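import Pool.Agent.TH386.IA.Div2
import Pool.Agent.TH176.RK.Defs
set_option autoImplicit false
namespace Pool.Agent.TH176.RK
open Pool.Agent.TH396.IN Pool.Agent.TH159.IA

theorem win2 (F : Type) [Field F] (P₀ P₁ : ℤ) :
    Win F 0 {m : ℤ × ℕ | m.2 ≤ 1 ∧ P₀ + m.2 ≤ 2 * m.1 ∧ 2 * m.1 ≤ P₁ - m.2} P₀ P₁ := by
  have h := Pool.Agent.TH386.IA.win2 F
    (T := {m : ℤ × ℕ | m.2 ≤ 1 ∧ P₀ + m.2 ≤ 2 * m.1 ∧ 2 * m.1 ≤ P₁ - m.2})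
    (α := 1 / 2) (β := 1 / 2) (p := (P₀ : ℝ) / 2) (q := (P₁ : ℝ) / 2) le_rfl le_rfl
    (fun m hm => by
      obtain ⟨h1, h2, h3⟩ := hm
      have h2' : (P₀ : ℝ) + (m.2 : ℝ) ≤ 2 * (m.1 : ℝ) := by exact_mod_cast h2
      have h3' : 2 * (m.1 : ℝ) ≤ (P₁ : ℝ) - (m.2 : ℝ) := by exact_mod_cast h3
      exact ⟨h1, by linarith, by linarith⟩)
  convert h using 1 <;> ring

end Pool.Agent.TH176.RK
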