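import Pool.Agent.TH176.RK.Defs
import Pool.Agent.TH176.RK.Win2
import Pool.Agent.TH176.RK.Card2
import Pool.Agent.TH176.RK.Sup2
import Pool.Agent.TH176.RK.Fin
import Pool.Agent.TH176.RK.Mono

/-! The key lemma for ranks: regions with two slopes. -/

set_option autoImplicit false

namespace Pool.Agent.TH176.RK

open Pool.Agent.TH396.IN Pool.Agent.TH159.IA

namespace Key2Rank_

/-- the lower end of the window -/
noncomputable def pl (α p a : ℝ) : ℤ := ⌈2 * (p + α * a) + 2 * α - 1⌉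

/-- the upper end of the window -/
noncomputable def pu (β q a : ℝ) : ℤ := ⌊2 * (q - β * a) - 2 * β + 1⌋

theorem lt_sub (α β p q a : ℝ) :
    2 * (q - p) - 2 * (α + β) - 2 * (α + β) * a < (pu β q a : ℝ) - (pl α p a : ℝ) := by
  have h1 := Int.ceil_lt_add_one (2 * (p + α * a) + 2 * α - 1)
  have h2 := Int.lt_floor_add_one (2 * (q - β * a) - 2 * β + 1)
  unfold pl pu
  linarith

theorem sub_le (α β p q a : ℝ) :
    (pu β q a : ℝ) - (pl α p a : ℝ) ≤ 2 * (q - p) - 2 * (α + β) - 2 * (α + β) * a + 2 := by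
  have h1 := Int.le_ceil (2 * (p + α * a) + 2 * α - 1)
  have h2 := Int.floor_le (2 * (q - β * a) - 2 * β + 1)
  unfold pl pu
  linarith

theorem le_pl (α p a : ℝ) : 2 * (p + α * a) + 2 * α - 1 ≤ pl α p a := Int.le_ceil _

theorem pu_le (β q a : ℝ) : (pu β q a : ℝ) ≤ 2 * (q - β * a) - 2 * β + 1 := Int.floor_le _

theorem win_fin (σ L : ℝ) : (win σ L).Finite := by
  refine (Set.finite_Icc ⌈-(σ * L)⌉ ⌊(1 - σ) * L⌋).subset ?_
  intro l hl
  exact ⟨Int.ceil_le.2 hl.1, Int.le_floor.2 hl.2⟩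

theorem fib_fin {P : Type} (σ : ℝ) (J : Finset P) (f : P → ℝ) :
    {x : ℤ × P | x.2 ∈ J ∧ x.1 ∈ win σ (f x.2)}.Finite := by
  refine (Set.Finite.biUnion J.finite_toSet
    (fun j _ => (win_fin σ (f j)).prod (Set.finite_singleton j))).subset ?_
  intro x hx
  simp only [Set.mem_iUnion]
  exact ⟨x.2, hx.1, hx.2, rfl⟩

end Key2Rank_

open Key2Rank_ in
theorem key2_rank {ι : Type} [Fintype ι] (H : KeyInd ι) {k : ℕ} {α β σ c κ : ℝ} (hα : 1 / 2 ≤ α)
    (hβ : 1 / 2 ≤ β) (h0 : 0 < σ) (h1 : σ < 1 / 2) (hσ : Irrational σ) (hc : 0 < c)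
    (h : TGood ι k σ (4 * (α + β)) (2 * (α + β)) c κ) :
    RGood ι (k + 1) α β (c / 2) (κ + 2 * (α + β) / c) := by
  intro B
  obtain ⟨F, hF, hF0, e, he⟩ := h (2 * B)
  obtain ⟨e', he'⟩ := H F (Sp k) 0 σ (max 1 (2 * B + 1)) (by norm_num) h0 h1 (le_max_left _ _) e
  have hchar : CharZero (HK F) :=
    charZero_of_injective_ringHom (f := (HahnSeries.C : F →+* HK F)) HahnSeries.C_injective
  refine ⟨HK F, inferInstance, hchar, e', ?_⟩
  intro p q w W hw hB hW
  have hκ : 1 ≤ α + β := by linarith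
  have hκ0 : 0 < α + β := by linarith
  have hL : c * (W + κ) ≤ 2 * (q - p) - 2 * (α + β) := by
    have e1 : c / 2 * (W + (κ + 2 * (α + β) / c)) = c * (W + κ) / 2 + (α + β) := by
      field_simp
      ring
    rw [e1] at hW
    linarith
  have hI := he (2 * (q - p) - 2 * (α + β)) w W hw (by linarith) hL
  obtain ⟨f1, -, -, -, f5, f6⟩ := fin_regions k (σ := σ) (a := 1) (b := 1) (L₀ := 0) (α := α)
    (β := β) (p := p) (q := q) one_pos one_pos hκ0 0
  obtain ⟨g1, -, g3, -, -, -⟩ := fin_regions (k + 1) (σ := σ) (a := 1) (b := 1) (L₀ := 0) (α := α)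
    (β := β) (p := p) (q := q) one_pos one_pos hκ0 0
  have hS : (Rg (dgS (dgp k)) α β p q).Finite := g3
  -- the index set
  have hJ : {j : ℕ × Sp k | 0 ≤ 2 * (q - p) - 2 * (α + β) - 4 * (α + β) * j.1 -
      2 * (α + β) * dgp k j.2}.Finite := by
    refine (g1 ⌊2 * (q - p)⌋₊).subset ?_
    intro j hj
    have hj' : 0 ≤ 2 * (q - p) - 2 * (α + β) - 4 * (α + β) * j.1 - 2 * (α + β) * dgp k j.2 := hj
    have e1 : (0 : ℝ) ≤ j.1 := Nat.cast_nonneg _
    have e2 : (0 : ℝ) ≤ dgp k j.2 := Nat.cast_nonneg _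
    have e3 : ((j.1 + dgp k j.2 : ℕ) : ℝ) ≤ 2 * (q - p) := by
      push_cast
      nlinarith
    exact Nat.le_floor e3
  set J : Finset (ℕ × Sp k) := hJ.toFinset with hJd
  have hJm : ∀ j, j ∈ J ↔ 0 ≤ 2 * (q - p) - 2 * (α + β) - 4 * (α + β) * j.1 -
      2 * (α + β) * dgp k j.2 := by
    intro j
    rw [hJd, Set.Finite.mem_toFinset]
    exact Iff.rfl
  set A : ℕ × Sp k → ℝ := fun j => 2 * j.1 + dgp k j.2 with hA
  refine he' w (k + 2) J (fun j => {m : ℤ × ℕ | m.2 ≤ 1 ∧ pl α p (A j) + m.2 ≤ 2 * m.1 ∧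
      2 * m.1 ≤ pu β q (A j) - m.2}) (fun j => pl α p (A j)) (fun j => pu β q (A j))
    (Rg (dgS (dgp k)) α β p q) hS ?_ ?_
  · intro j hj
    have hj' := (hJm j).1 hj
    have k1 := lt_sub α β p q (A j)
    have k2 := sub_le α β p q (A j)
    have e1 : (0 : ℝ) ≤ j.1 := Nat.cast_nonneg _
    have e2 : (0 : ℝ) ≤ dgp k j.2 := Nat.cast_nonneg _
    have hAj : A j = 2 * j.1 + dgp k j.2 := rfl
    have hA0 : 0 ≤ A j := by rw [hAj]; linarith
    have k3 : pl α p (A j) < pu β q (A j) := by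
      have : (pl α p (A j) : ℝ) < pu β q (A j) := by
        rw [hAj] at k1 ⊢
        linarith
      exact_mod_cast this
    obtain ⟨c1, c2⟩ := card2 h0 (by linarith) hσ k3
    refine ⟨c1, win2 F _ _, ?_, c2, ?_⟩
    · refine lt_of_lt_of_le ?_ (le_max_right _ _)
      nlinarith
    · intro x hx y hy
      obtain ⟨x1, x2, x3⟩ := hx
      have x2' : (pl α p (A j) : ℝ) + x.2 ≤ 2 * x.1 := by exact_mod_cast x2
      have x3' : (2 : ℝ) * x.1 ≤ pu β q (A j) - x.2 := by exact_mod_cast x3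
      have y1 := le_pl α p (A j)
      have y2 := pu_le β q (A j)
      have x1' : (x.2 : ℝ) ≤ 1 := by exact_mod_cast x1
      have x0 : (0 : ℝ) ≤ x.2 := Nat.cast_nonneg _
      have hd0 : dgp k 0 = 0 := f5
      refine sup2 hd0 f6 (HahnSeries.single 1 1) hα hβ (j := j) (x := x) ?_ ?_ y hy
      · rw [hAj] at x2' y1
        nlinarith
      · rw [hAj] at x3' y2
        nlinarith
  · refine Ind.mono hI ?_ (fib_fin σ J (fun j => (pu β q (A j) : ℝ) - pl α p (A j)))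
    intro x hx
    obtain ⟨z1, z2⟩ := hx
    have k1 := lt_sub α β p q (A x.2)
    have hAj : A x.2 = 2 * x.2.1 + dgp k x.2.2 := rfl
    have hL0 : 0 ≤ 2 * (q - p) - 2 * (α + β) - 4 * (α + β) * x.2.1 -
        2 * (α + β) * dgp k x.2.2 := by linarith
    refine ⟨(hJm x.2).2 hL0, ?_, ?_⟩
    · refine le_trans ?_ z1
      have : 2 * (q - p) - 2 * (α + β) - 4 * (α + β) * x.2.1 - 2 * (α + β) * dgp k x.2.2 ≤
          (pu β q (A x.2) : ℝ) - pl α p (A x.2) := by
        rw [hAj] at k1 ⊢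
        linarith
      have := mul_le_mul_of_nonneg_left this h0.le
      linarith
    · refine le_trans z2 ?_
      have : 2 * (q - p) - 2 * (α + β) - 4 * (α + β) * x.2.1 - 2 * (α + β) * dgp k x.2.2 ≤
          (pu β q (A x.2) : ℝ) - pl α p (A x.2) := by
        rw [hAj] at k1 ⊢
        linarith
      exact mul_le_mul_of_nonneg_left this (by linarith)

end Pool.Agent.TH176.RK
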