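import Pool.Agent.TH176.RK.Defs

/-! Supports for the cubic (piece RK6, written by helper989). -/

set_option autoImplicit false

namespace Pool.Agent.TH176.RK

open Pool.Agent.TH396.IN Pool.Agent.TH159.IA

namespace Sup3_

variable {K : Type} [Field K] {P : Type} [AddCommMonoid P]

theorem mul_supp {f g : LP K (ℕ × P)} {y : ℤ × (ℕ × P)} (h : (f * g).coeff y ≠ 0) :
    ∃ a b, f.coeff a ≠ 0 ∧ g.coeff b ≠ 0 ∧ a + b = y := by
  classical
  have h1 := AddMonoidAlgebra.support_coeff_mul_subset f g (Finsupp.mem_support_iff.2 h)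
  obtain ⟨a, ha, b, hb, hab⟩ := Finset.mem_add.1 h1
  exact ⟨a, b, Finsupp.mem_support_iff.1 ha, Finsupp.mem_support_iff.1 hb, hab⟩

theorem single_supp {a y : ℤ × (ℕ × P)} {r : K}
    (h : (AddMonoidAlgebra.single a r : LP K (ℕ × P)).coeff y ≠ 0) : y = a := by
  classical
  rw [AddMonoidAlgebra.coeff_single, Finsupp.single_apply] at h
  by_contra hne
  exact h (if_neg (Ne.symm hne))

theorem Hk_supp (t : K) {y : ℤ × (ℕ × P)} (h : (Hk P 1 t).coeff y ≠ 0) :
    0 ≤ y.1 ∧ y.1 + y.2.1 ≤ 3 ∧ y.2.2 = 0 := by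
  unfold Hk at h
  have key : ∀ (f g : LP K (ℕ × P)), (f + g).coeff y ≠ 0 → f.coeff y ≠ 0 ∨ g.coeff y ≠ 0 := by
    intro f g hfg
    by_contra hcon
    push Not at hcon
    apply hfg
    rw [AddMonoidAlgebra.coeff_add, Finsupp.add_apply, hcon.1, hcon.2, add_zero]
  have key2 : ∀ (f g : LP K (ℕ × P)), (f - g).coeff y ≠ 0 → f.coeff y ≠ 0 ∨ g.coeff y ≠ 0 := by
    intro f g hfg
    by_contra hcon
    push Not at hcon
    apply hfg
    rw [AddMonoidAlgebra.coeff_sub, Finsupp.sub_apply, hcon.1, hcon.2, sub_zero]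
  rcases key _ _ h with h | h
  · rcases key2 _ _ h with h | h
    · rcases key _ _ h with h | h
      · rcases key2 _ _ h with h | h
        · rw [single_supp h]
          exact ⟨by norm_num, by norm_num, rfl⟩
        · rw [single_supp h]
          exact ⟨by norm_num, by norm_num, rfl⟩
      · rw [single_supp h]
        exact ⟨by norm_num, by norm_num, rfl⟩
    · rw [single_supp h]
      exact ⟨by norm_num, by norm_num, rfl⟩
  · rw [single_supp h]
    exact ⟨by norm_num, by norm_num, rfl⟩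

theorem pow_supp (t : K) (j : ℕ) : ∀ {y : ℤ × (ℕ × P)}, (Hk P 1 t ^ j).coeff y ≠ 0 →
    0 ≤ y.1 ∧ y.1 + y.2.1 ≤ 3 * j ∧ y.2.2 = 0 := by
  induction j with
  | zero =>
    intro y h
    rw [pow_zero, AddMonoidAlgebra.one_def] at h
    rw [single_supp h]
    exact ⟨le_rfl, by simp, rfl⟩
  | succ j ih =>
    intro y h
    rw [pow_succ] at h
    obtain ⟨a, b, ha, hb, rfl⟩ := mul_supp h
    obtain ⟨a1, a2, a3⟩ := ih ha
    obtain ⟨b1, b2, b3⟩ := Hk_supp t hb
    refine ⟨?_, ?_, ?_⟩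
    · rw [Prod.fst_add]
      omega
    · rw [Prod.fst_add, Prod.snd_add, Prod.fst_add]
      push_cast
      omega
    · rw [Prod.snd_add, Prod.snd_add, a3, b3, add_zero]

end Sup3_

theorem sup3 {K : Type} [Field K] {P : Type} [AddCommMonoid P] {dg : P → ℕ} (h0 : dg 0 = 0)
    (hdg : ∀ c c', dg (c + c') = dg c + dg c') (t : K) {d : ℕ} {j : ℕ × P} {x : ℤ × ℕ}
    (hx0 : 0 ≤ x.1) (hx : x.1 + x.2 + 3 * j.1 + dg j.2 ≤ d) (y : ℤ × (ℕ × P))
    (hy : ((AddMonoidAlgebra.single (x.1, (x.2, 0)) 1 * Hk P 1 t ^ j.1 *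
      AddMonoidAlgebra.single (0, (0, j.2)) 1 : LP K (ℕ × P))).coeff y ≠ 0) : y ∈ Sx dg d := by
  obtain ⟨a, b, ha, hb, rfl⟩ := Sup3_.mul_supp hy
  obtain ⟨a', c, ha', hc, rfl⟩ := Sup3_.mul_supp ha
  rw [Sup3_.single_supp hb, Sup3_.single_supp ha']
  obtain ⟨c1, c2, c3⟩ := Sup3_.pow_supp t j.1 hc
  unfold Sx
  simp only [Set.mem_setOf_eq, Prod.fst_add, Prod.snd_add, add_zero, c3, zero_add]
  push_cast
  exact ⟨by omega, by omega⟩

end Pool.Agent.TH176.RK
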