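import Pool.Agent.TH386.IA.Div2
import Pool.Agent.TH176.RK.Defs

/-! The window of the cubic `z = u ^ 2`, `Z = u ^ 3 - u`. -/

set_option autoImplicit false

namespace Pool.Agent.TH176.RK

open Pool.Agent.TH396.IN Pool.Agent.TH159.IA

namespace Win3_

variable {F : Type} [Field F]

theorem coeff_single_mul (k : ℤ) (r : F) (x : LZ F) (i : ℤ) :
    (AddMonoidAlgebra.single k r * x : LZ F).coeff i = r * x.coeff (i - k) :=
  AddMonoidAlgebra.coeff_single_mul_eq_mul_coeff (i - k) (fun m _ => by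
    constructor
    · rintro rfl; ring
    · rintro rfl; ring)

theorem om1 : om 1 (uu F) = AddMonoidAlgebra.single 3 1 - AddMonoidAlgebra.single 1 1 := by
  unfold om
  have h1 : ((uu F : (LZ F)ˣ) : LZ F) = AddMonoidAlgebra.single 1 1 := rfl
  have h2 : (((uu F)⁻¹ : (LZ F)ˣ) : LZ F) = AddMonoidAlgebra.single (-1) 1 := rfl
  rw [h1, h2, mul_one, pow_two, AddMonoidAlgebra.single_mul_single, mul_sub,
    AddMonoidAlgebra.single_mul_single, AddMonoidAlgebra.single_mul_single]
  norm_num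

/-- powers of `ω` -/
noncomputable def Pw (F : Type) [Field F] (n : ℕ) : LZ F :=
  (AddMonoidAlgebra.single 3 1 - AddMonoidAlgebra.single 1 1) ^ n

theorem Pw_succ (n : ℕ) (i : ℤ) :
    (Pw F (n + 1)).coeff i = (Pw F n).coeff (i - 3) - (Pw F n).coeff (i - 1) := by
  unfold Pw
  rw [pow_succ', sub_mul, AddMonoidAlgebra.coeff_sub, Finsupp.sub_apply, coeff_single_mul,
    coeff_single_mul, one_mul, one_mul]

theorem Pw_supp (n : ℕ) : ∀ i : ℤ, (Pw F n).coeff i ≠ 0 → (0 : ℤ) ≤ i ∧ i ≤ 3 * n := by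
  classical
  induction n with
  | zero =>
    intro i hi
    unfold Pw at hi
    rw [pow_zero, AddMonoidAlgebra.one_def, AddMonoidAlgebra.coeff_single,
      Finsupp.single_apply] at hi
    by_cases h : (0 : ℤ) = i
    · subst h; simp
    · rw [if_neg h] at hi; exact absurd rfl hi
  | succ n ih =>
    intro i hi
    rw [Pw_succ] at hi
    by_cases h : (Pw F n).coeff (i - 3) = 0
    · have h' : (Pw F n).coeff (i - 1) ≠ 0 := by
        intro h0; rw [h, h0, sub_zero] at hi; exact hi rfl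
      obtain ⟨h1, h2⟩ := ih _ h'
      push_cast
      constructor <;> omega
    · obtain ⟨h1, h2⟩ := ih _ h
      push_cast
      constructor <;> omega

theorem Pw_top (n : ℕ) : (Pw F n).coeff (3 * n : ℤ) = 1 := by
  classical
  induction n with
  | zero =>
    unfold Pw
    rw [pow_zero, AddMonoidAlgebra.one_def, AddMonoidAlgebra.coeff_single,
      Finsupp.single_apply]
    simp
  | succ n ih =>
    rw [Pw_succ]
    have h1 : (Pw F n).coeff ((3 * ((n + 1 : ℕ) : ℤ)) - 1) = 0 := by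
      by_contra h
      have := (Pw_supp n _ h).2
      push_cast at this
      omega
    rw [h1, sub_zero]
    have h2 : (3 * ((n + 1 : ℕ) : ℤ)) - 3 = 3 * n := by push_cast; ring
    rw [h2]
    exact ih

theorem GG_single (m : ℤ × ℕ) (r : F) (i : ℤ) :
    (GG 1 (AddMonoidAlgebra.single m r)).coeff i = r * (Pw F m.2).coeff (i - 2 * m.1) := by
  unfold GG
  rw [Pool.Agent.TH386.IA.bi_single, Pool.Agent.TH386.IA.uu_zpow, om1]
  have h0 : algebraMap F (LZ F) r = AddMonoidAlgebra.single 0 r := rfl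
  rw [h0, ← mul_assoc, AddMonoidAlgebra.single_mul_single, zero_add, mul_one, coeff_single_mul]
  rfl

theorem GG_coeff (g : AddMonoidAlgebra F (ℤ × ℕ)) (i : ℤ) :
    (GG 1 g).coeff i = ∑ m ∈ g.coeff.support, g.coeff m * (Pw F m.2).coeff (i - 2 * m.1) := by
  classical
  have key : ∀ s : Finset (ℤ × ℕ),
      (GG 1 (∑ m ∈ s, AddMonoidAlgebra.single m (g.coeff m))).coeff i =
        ∑ m ∈ s, g.coeff m * (Pw F m.2).coeff (i - 2 * m.1) := by
    intro s
    induction s using Finset.induction_on with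
    | empty => unfold GG; simp
    | insert m s hm ih =>
      rw [Finset.sum_insert hm, Finset.sum_insert hm, ← ih, ← GG_single]
      unfold GG
      rw [map_add, AddMonoidAlgebra.coeff_add, Finsupp.add_apply]
  have h4 : ∑ m ∈ g.coeff.support, AddMonoidAlgebra.single m (g.coeff m) = g :=
    AddMonoidAlgebra.sum_coeff_single g
  have := key g.coeff.support
  rwa [h4] at this

end Win3_

open Win3_ in
theorem win3 (F : Type) [Field F] (D : ℕ) :
    Win F 1 {m : ℤ × ℕ | 0 ≤ m.1 ∧ m.1 ≤ 2 ∧ m.1 + m.2 ≤ D} 0 (3 * D) := by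
  classical
  intro g hg hT
  have hT' : ∀ m ∈ g.coeff.support, 0 ≤ m.1 ∧ m.1 ≤ 2 ∧ m.1 + m.2 ≤ D := fun m hm =>
    hT m (Finsupp.mem_support_iff.1 hm)
  constructor
  · intro h0
    have hne : g.coeff.support.Nonempty := by
      rw [Finset.nonempty_iff_ne_empty]
      intro he
      exact hg (AddMonoidAlgebra.coeff_eq_zero.1 (Finsupp.support_eq_empty.1 he))
    obtain ⟨m, hm, hmax⟩ := Finset.exists_max_image g.coeff.support
      (fun m : ℤ × ℕ => 2 * m.1 + 3 * (m.2 : ℤ)) hne
    have h1 := GG_coeff g (2 * m.1 + 3 * (m.2 : ℤ))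
    rw [h0, Finset.sum_eq_single m] at h1
    · have e : 2 * m.1 + 3 * (m.2 : ℤ) - 2 * m.1 = 3 * (m.2 : ℤ) := by ring
      rw [e, Pw_top, mul_one] at h1
      exact Finsupp.mem_support_iff.1 hm (by simpa using h1.symm)
    · intro m' hm' hne'
      by_cases hc : (Pw F m'.2).coeff (2 * m.1 + 3 * (m.2 : ℤ) - 2 * m'.1) = 0
      · rw [hc, mul_zero]
      · exfalso
        have h2 := (Pw_supp m'.2 _ hc).2
        have h3 : 2 * m'.1 + 3 * (m'.2 : ℤ) ≤ 2 * m.1 + 3 * (m.2 : ℤ) := hmax m' hm'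
        obtain ⟨a1, a2, _⟩ := hT' m hm
        obtain ⟨b1, b2, _⟩ := hT' m' hm'
        have h4 : m'.1 = m.1 := by omega
        have h5 : m'.2 = m.2 := by omega
        exact hne' (Prod.ext h4 h5)
    · intro hm'; exact absurd hm hm'
  · intro i hi
    rw [GG_coeff] at hi
    obtain ⟨m, hm, hne⟩ := Finset.exists_ne_zero_of_sum_ne_zero hi
    have hne2 : (Pw F m.2).coeff (i - 2 * m.1) ≠ 0 := right_ne_zero_of_mul hne
    obtain ⟨h1, h2⟩ := Pw_supp m.2 _ hne2
    obtain ⟨a1, a2, a3⟩ := hT' m hm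
    constructor
    · have : (0 : ℤ) ≤ i := by omega
      exact_mod_cast this
    · have : i ≤ 3 * (D : ℤ) := by omega
      exact_mod_cast this

end Pool.Agent.TH176.RK
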