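import Pool.Agent.TH176.RK.Defs
import Pool.Agent.TH176.RK.Win3
import Pool.Agent.TH176.RK.Card3
import Pool.Agent.TH176.RK.Sup3
import Pool.Agent.TH176.RK.Fin

/-! The key lemma for ranks, for polynomials of degree at most `d`. -/

set_option autoImplicit false

namespace Pool.Agent.TH176.RK

open Pool.Agent.TH396.IN Pool.Agent.TH159.IA

/-- the region of the tube is the union of the windows -/
theorem Key3Rank_.tb_eq {k : ℕ} {σ : ℝ} (d : ℕ) (J : Finset (ℕ × Sp k))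
    (hJ : ∀ j, j ∈ J ↔ 3 * j.1 + dgp k j.2 ≤ d) :
    {x : ℤ × (ℕ × Sp k) | x.2 ∈ J ∧
      x.1 ∈ win σ (3 * ((d - 3 * x.2.1 - dgp k x.2.2 : ℕ) : ℝ) - 0)} =
      Tb (dgp k) σ (3 * d) 9 3 := by
  ext ⟨l, e, c⟩
  have hD : ∀ h : 3 * e + dgp k c ≤ d, 3 * ((d - 3 * e - dgp k c : ℕ) : ℝ) - 0 =
      3 * d - 9 * e - 3 * dgp k c := by
    intro h
    have h1 : (d - 3 * e - dgp k c : ℕ) + (3 * e + dgp k c) = d := by omega
    have h2 : ((d - 3 * e - dgp k c : ℕ) : ℝ) + (3 * e + dgp k c) = d := by exact_mod_cast h1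
    linarith
  constructor
  · rintro ⟨h1, h2⟩
    have h3 : 3 * e + dgp k c ≤ d := (hJ _).1 h1
    simp only [win, Set.mem_ofPred_eq] at h2
    rw [hD h3] at h2
    exact h2
  · intro h
    simp only [Tb, Set.mem_ofPred_eq] at h
    obtain ⟨h1, h2⟩ := h
    have h3 : 3 * e + dgp k c ≤ d := by
      have h4 : (3 * (e : ℝ) + dgp k c) ≤ d := by nlinarith
      exact_mod_cast h4
    refine ⟨(hJ _).2 h3, ?_⟩
    simp only [win, Set.mem_ofPred_eq]
    rw [hD h3]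
    exact ⟨h1, h2⟩

theorem key3_rank {ι : Type} [Fintype ι] (H : KeyInd ι) {k : ℕ} {σ c κ : ℝ} (h0 : 0 < σ)
    (h1 : σ < 1 / 2) (hσ : Irrational σ) (hc : 0 < c) (h : TGood ι k σ 9 3 c κ) :
    SGood ι k (c / 3) κ := by
  intro B
  obtain ⟨F, hF, hchar, e, he⟩ := h (3 * B)
  obtain ⟨e', he'⟩ := H F (Sp k) 1 σ (3 * B + 1) le_rfl h0 h1
    (by have : (0 : ℝ) ≤ B := Nat.cast_nonneg B
        linarith) e
  have hchar' : CharZero (HK F) :=
    charZero_of_injective_ringHom (f := (HahnSeries.C : F →+* HK F)) HahnSeries.C_injective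
  refine ⟨HK F, inferInstance, hchar', e', ?_⟩
  intro d w W hw hdB hcd
  have hdB' : (d : ℝ) ≤ B := by exact_mod_cast hdB
  obtain ⟨f1, -, -, f4, f5, f6⟩ := fin_regions k (σ := 0) (a := 1) (b := 1) (L₀ := 0) (α := 1)
    (β := 1) (p := 0) (q := 0) one_pos one_pos (by norm_num) d
  have hJfin : {j : ℕ × Sp k | 3 * j.1 + dgp k j.2 ≤ d}.Finite := by
    refine ((Set.finite_Iic d).prod (f1 d)).subset ?_
    rintro ⟨a, b⟩ hab
    have hab' : 3 * a + dgp k b ≤ d := hab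
    exact ⟨show a ≤ d by omega, show dgp k b ≤ d by omega⟩
  have hJ : ∀ j, j ∈ hJfin.toFinset ↔ 3 * j.1 + dgp k j.2 ≤ d := fun j => by
    rw [Set.Finite.mem_toFinset]
    rfl
  refine he' w (k + 2) hJfin.toFinset
    (fun j => {m : ℤ × ℕ | 0 ≤ m.1 ∧ m.1 ≤ 2 ∧ m.1 + m.2 ≤ ((d - 3 * j.1 - dgp k j.2 : ℕ) : ℤ)})
    (fun _ => 0) (fun j => 3 * ((d - 3 * j.1 - dgp k j.2 : ℕ) : ℝ)) (Sx (dgp k) d) f4 ?_ ?_
  · intro j hj
    have hj' := (hJ j).1 hj
    obtain ⟨c1, c2⟩ := card3 h0 (by linarith) hσ (d - 3 * j.1 - dgp k j.2)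
    refine ⟨c1, win3 F _, ?_, ?_, ?_⟩
    · have h2 : ((d - 3 * j.1 - dgp k j.2 : ℕ) : ℝ) ≤ d := by
        exact_mod_cast (by omega : d - 3 * j.1 - dgp k j.2 ≤ d)
      linarith
    · rw [sub_zero]
      exact c2
    · rintro ⟨x1, x2⟩ hx y hy
      obtain ⟨a1, a2, a3⟩ := hx
      simp only at a1 a2 a3
      refine sup3 f5 f6 (HahnSeries.single 1 1) (x := (x1, x2)) (j := j) a1 ?_ y hy
      simp only
      omega
  · have h3 := Key3Rank_.tb_eq (σ := σ) d hJfin.toFinset hJ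
    rw [h3]
    refine he (3 * d) w W hw (by linarith) ?_
    linarith

end Pool.Agent.TH176.RK
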