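import Pool.Agent.TH176.RK.BaseRk
import Pool.Agent.TH176.RK.Irr
import Pool.Agent.TH176.RK.FlatRank
import Pool.Agent.TH176.RK.Key2Rank
import Pool.Agent.TH176.RK.Key3Rank

/-! The induction for ranks. -/

set_option autoImplicit false

namespace Pool.Agent.TH176.RK

open Pool.Agent.TH396.IN Pool.Agent.TH159.IA

theorem RGood.weaken {ι : Type} [Fintype ι] {k : ℕ} {α β c κ c' κ' : ℝ}
    (h : RGood ι k α β c κ) (hc : c ≤ c') (hκ : c * κ ≤ c' * κ') : RGood ι k α β c' κ' := by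
  intro B
  obtain ⟨K, i1, i2, e, he⟩ := h B
  refine ⟨K, i1, i2, e, fun p q w W hw hB hq => he p q w W hw hB (le_trans ?_ hq)⟩
  have h1 : c * (W : ℝ) ≤ c' * W := mul_le_mul_of_nonneg_right hc (Nat.cast_nonneg W)
  nlinarith

/-- a real number slightly smaller than `u` -/
theorem exists_less {n κ' l u : ℝ} (hl : l < u) (hl0 : 0 ≤ l) (hκ : 0 < κ') (m : ℕ)
    (h : n < κ' * u ^ m) : ∃ u₀ : ℝ, l ≤ u₀ ∧ u₀ < u ∧ ∀ u', u₀ < u' → n < κ' * u' ^ m := by
  have hcont : Continuous fun x : ℝ => κ' * x ^ m := by fun_prop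
  have hev : ∀ᶠ x in nhds u, n < κ' * x ^ m :=
    (hcont.tendsto u).eventually_const_lt h
  obtain ⟨ε, hε, hball⟩ := Metric.eventually_nhds_iff.1 hev
  obtain ⟨u₀, hu1, hu2⟩ : ∃ u₀, max l (u - ε) < u₀ ∧ u₀ < u :=
    exists_between (max_lt hl (by linarith))
  have h1 : l < u₀ := lt_of_le_of_lt (le_max_left _ _) hu1
  have h2 : u - ε < u₀ := lt_of_le_of_lt (le_max_right _ _) hu1
  refine ⟨u₀, h1.le, hu2, fun u' hu' => ?_⟩
  have h3 : n < κ' * u₀ ^ m := hball (by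
    rw [Real.dist_eq, abs_lt]
    constructor <;> linarith)
  have h4 : κ' * u₀ ^ m ≤ κ' * u' ^ m :=
    mul_le_mul_of_nonneg_left (pow_le_pow_left₀ (by linarith) hu'.le m) hκ.le
  linarith

theorem rgood_all {ι : Type} [Fintype ι] (H : KeyInd ι) (k : ℕ) : ∀ α β u : ℝ, 1 / 2 ≤ α →
    1 / 2 ≤ β → 2 < u → (Fintype.card ι : ℝ) < (α + β) * u ^ (k + 1) →
      RGood ι k α β ((α + β) * u) (k * (1 + 1 / u)) := by
  induction k with
  | zero =>
    intro α β u hα hβ hu hn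
    refine (rgood_base ι α β).weaken ?_ ?_
    · have : (α + β) * u ^ (0 + 1) = (α + β) * u := by ring
      linarith
    · simp
  | succ k ih =>
    intro α β u hα hβ hu hn
    obtain ⟨κ', hκ'⟩ : ∃ κ' : ℝ, κ' = α + β := ⟨_, rfl⟩
    have hκ1 : 1 ≤ κ' := by rw [hκ']; linarith
    have hκ0 : 0 < κ' := by linarith
    rw [← hκ'] at hn ⊢
    obtain ⟨u₀, hu0, hu1, hu2⟩ := exists_less hu (by norm_num) hκ0 (k + 1 + 1) hn
    obtain ⟨u', hu3, hu4, hirr⟩ := exists_good hκ0 hu1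
    have hu' : 2 < u' := lt_of_le_of_lt hu0 hu3
    have hn' := hu2 u' hu3
    obtain ⟨W, hW⟩ : ∃ W : ℝ, W = 2 * κ' * u' := ⟨_, rfl⟩
    have hW4 : 4 * κ' < W := by rw [hW]; nlinarith
    obtain ⟨v, hv⟩ : ∃ v : ℤ, v = ⌊W⌋ - 1 := ⟨_, rfl⟩
    have hv1 : (v : ℝ) ≤ W - 1 := by
      rw [hv]; push_cast
      have := Int.floor_le W
      linarith
    have hv2 : W - 2 < v := by
      rw [hv]; push_cast
      have := Int.lt_floor_add_one W
      linarith
    obtain ⟨σ, hσ⟩ : ∃ σ : ℝ, σ = (W - v) / (4 * κ') := ⟨_, rfl⟩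
    have hκ4 : 0 < 4 * κ' := by linarith
    have hσκ : 4 * κ' * σ = W - v := by rw [hσ]; field_simp
    have hσ0 : 0 < σ := by
      rw [hσ]
      apply div_pos _ hκ4
      linarith
    have hσ1 : σ < 1 / 2 := by
      rw [hσ, div_lt_iff₀ hκ4]
      linarith
    have hσi : Irrational σ := by
      rw [hσ, hW]
      exact (hirr v).1
    have hWv : (v : ℝ) + 4 * κ' * σ = W := by rw [hσκ]; ring
    have e1 : (v : ℝ) * (2 * κ') / (4 * κ') = v / 2 := by field_simp; ring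
    have e2 : σ * (2 * κ') = (W - v) / 2 := by rw [← hσκ]; ring
    have e3 : σ * (2 * κ') + (v : ℝ) * (2 * κ') / (4 * κ') = κ' * u' := by
      rw [e1, e2, hW]; ring
    have h1 : RGood ι k (σ * (2 * κ')) ((v : ℝ) * (2 * κ') / (4 * κ'))
        ((σ * (2 * κ') + (v : ℝ) * (2 * κ') / (4 * κ')) * u') (k * (1 + 1 / u')) := by
      refine ih _ _ u' ?_ ?_ hu' ?_
      · rw [e2]; linarith
      · rw [e1]; linarith
      · rw [e3]
        have : κ' * u' * u' ^ (k + 1) = κ' * u' ^ (k + 1 + 1) := by ring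
        rw [this]
        exact hn'
    rw [e3] at h1
    have h2 := flat_rank (a := 4 * κ') (b := 2 * κ') (v := v) hσ0.le (by linarith) hκ4
      (by linarith) (by positivity) (by positivity) (by rw [hWv]; exact hW4)
      (by rw [hWv, hW]; apply le_of_eq; ring) h1
    rw [hWv] at h2
    have h3 := key2_rank H hα hβ hσ0 hσ1 hσi (c := W) (by linarith)
      (by rw [← hκ']; exact h2)
    rw [← hκ'] at h3
    have hW0 : 0 < W := by linarith
    refine h3.weaken ?_ ?_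
    · rw [hW]
      nlinarith
    · have e4 : 2 * κ' / W = 1 / u' := by
        rw [hW]; field_simp
      rw [e4]
      have e5 : W / 2 * (k * (1 + 1 / u') + 1 + 1 / u') = κ' * ((k + 1) * (u' + 1)) := by
        rw [hW]; field_simp; ring
      have e6 : κ' * u * (((k + 1 : ℕ) : ℝ) * (1 + 1 / u)) = κ' * ((k + 1) * (u + 1)) := by
        push_cast; field_simp
      rw [e5, e6]
      refine mul_le_mul_of_nonneg_left (mul_le_mul_of_nonneg_left (by linarith) (by positivity))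
        hκ0.le

theorem SGood.weaken {ι : Type} [Fintype ι] {k : ℕ} {c κ c' κ' : ℝ}
    (h : SGood ι k c κ) (hc : c ≤ c') (hκ : c * κ ≤ c' * κ') : SGood ι k c' κ' := by
  intro B
  obtain ⟨K, i1, i2, e, he⟩ := h B
  refine ⟨K, i1, i2, e, fun d w W hw hB hq => he d w W hw hB (le_trans ?_ hq)⟩
  have h1 : c * (W : ℝ) ≤ c' * W := mul_le_mul_of_nonneg_right hc (Nat.cast_nonneg W)
  nlinarith

theorem sgood {ι : Type} [Fintype ι] (H : KeyInd ι) (k : ℕ) (u : ℝ) (h : 3 < u)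
    (hu : (Fintype.card ι : ℝ) < u ^ (k + 2)) : SGood ι k u (k * (1 + 1 / u) + 1) := by
  obtain ⟨u₀, hu0, hu1, hu2⟩ := exists_less (κ' := 1) h (by norm_num) one_pos (k + 2)
    (by rw [one_mul]; exact hu)
  obtain ⟨u', hu3, hu4, hirr⟩ := exists_good (κ' := 1) one_pos hu1
  have hu' : 3 < u' := lt_of_le_of_lt hu0 hu3
  have hn' := hu2 u' hu3
  rw [one_mul] at hn'
  obtain ⟨W, hW⟩ : ∃ W : ℝ, W = 3 * u' := ⟨_, rfl⟩
  have hW9 : 9 < W := by rw [hW]; linarith
  obtain ⟨v, hv⟩ : ∃ v : ℤ, v = ⌊W⌋ - 2 := ⟨_, rfl⟩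
  have hv1 : (v : ℝ) ≤ W - 2 := by
    rw [hv]; push_cast
    have := Int.floor_le W
    linarith
  have hv2 : W - 3 < v := by
    rw [hv]; push_cast
    have := Int.lt_floor_add_one W
    linarith
  obtain ⟨σ, hσ⟩ : ∃ σ : ℝ, σ = (W - v) / 9 := ⟨_, rfl⟩
  have hσ9 : 9 * σ = W - v := by rw [hσ]; ring
  have hσ0 : 0 < σ := by rw [hσ]; apply div_pos <;> linarith
  have hσ1 : σ < 1 / 2 := by rw [hσ, div_lt_iff₀ (by norm_num)]; linarith
  have hσi : Irrational σ := by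
    rw [hσ, hW]
    exact (hirr v).2
  have hWv : (v : ℝ) + 9 * σ = W := by rw [hσ9]; ring
  have e3 : σ * 3 + (v : ℝ) * 3 / 9 = u' := by
    have : σ * 3 + (v : ℝ) * 3 / 9 = W / 3 := by rw [← hWv]; ring
    rw [this, hW]; ring
  have h1 : RGood ι k (σ * 3) ((v : ℝ) * 3 / 9) ((σ * 3 + (v : ℝ) * 3 / 9) * u')
      (k * (1 + 1 / u')) := by
    refine rgood_all H k _ _ u' ?_ ?_ (by linarith) ?_
    · linarith
    · linarith
    · rw [e3]
      have : u' * u' ^ (k + 1) = u' ^ (k + 2) := by ring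
      rw [this]
      exact hn'
  rw [e3] at h1
  have h2 := flat_rank (a := 9) (b := 3) (v := v) hσ0.le (by linarith) (by norm_num)
    (by norm_num) (by positivity) (by positivity) (by rw [hWv]; exact hW9)
    (by rw [hWv, hW]; apply le_of_eq; ring) h1
  rw [hWv] at h2
  have h3 := key3_rank H hσ0 hσ1 hσi (c := W) (by linarith) h2
  refine h3.weaken ?_ ?_
  · rw [hW]; linarith
  · have e5 : W / 3 * (k * (1 + 1 / u') + 1) = k * (u' + 1) + u' := by
      rw [hW]; field_simp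
    have e6 : u * (k * (1 + 1 / u) + 1) = k * (u + 1) + u := by
      field_simp
    rw [e5, e6]
    have : (k : ℝ) * (u' + 1) ≤ k * (u + 1) :=
      mul_le_mul_of_nonneg_left (by linarith) (Nat.cast_nonneg k)
    linarith

end Pool.Agent.TH176.RK
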