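import Pool.Agent.TH176.RK.Defs

/-! Dimension bound by leading coefficients of Hahn series. -/

set_option autoImplicit false

namespace Pool.Agent.TH176.RK

open Pool.Agent.TH396.IN Pool.Agent.TH159.IA

namespace Hahn_

variable {F : Type} [Field F] {B : Type} [CommRing B] [Algebra F B]

/-- a functional applied to the coefficients -/
noncomputable def cf (l : B →ₗ[F] F) (y : HahnSeries ℝ B) : HK F := y.map l

theorem cf_coeff (l : B →ₗ[F] F) (y : HahnSeries ℝ B) (a : ℝ) :
    (cf l y).coeff a = l (y.coeff a) := rfl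

theorem cf_mul (l : B →ₗ[F] F) (x : HK F) (y : HahnSeries ℝ B) :
    cf l (inc B x * y) = x * cf l y := by
  ext a
  rw [cf_coeff, HahnSeries.coeff_mul_left' (x := inc B x) (y := y) x.isPWO_support (fun i hi h => by
      apply hi
      change algebraMap F B (x.coeff i) = 0
      rw [h, map_zero]),
    HahnSeries.coeff_mul_right' (x := x) (y := cf l y) y.isPWO_support (fun i hi h => by
      apply hi
      rw [cf_coeff, h, map_zero]), map_sum]
  refine Finset.sum_congr rfl fun i _ => ?_
  rw [cf_coeff]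
  change l (algebraMap F B (x.coeff i.1) * y.coeff i.2) = _
  rw [← Algebra.smul_def, map_smul, smul_eq_mul]

theorem cf_add (l : B →ₗ[F] F) (y z : HahnSeries ℝ B) : cf l (y + z) = cf l y + cf l z := by
  ext a
  rw [HahnSeries.coeff_add, cf_coeff, cf_coeff, cf_coeff, HahnSeries.coeff_add, map_add]

end Hahn_

open Hahn_

theorem hahn_dim {F : Type} [Field F] {B : Type} [CommRing B] [Algebra F B] {A : Type}
    [AddCommGroup A] [Module (HK F) A] (Ψ : A →+ HahnSeries ℝ B)
    (hΨ : ∀ (x : HK F) (a : A), Ψ (x • a) = inc B x * Ψ a) (U : Submodule (HK F) A)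
    (W : Submodule F B) [FiniteDimensional F W]
    (h : ∀ a ∈ U, a ≠ 0 → ∃ b : ℝ, (∀ b' < b, (Ψ a).coeff b' = 0) ∧ (Ψ a).coeff b ≠ 0 ∧
      (Ψ a).coeff b ∈ W) :
    FiniteDimensional (HK F) U ∧ Module.finrank (HK F) U ≤ Module.finrank F W := by
  classical
  let bs := Module.finBasis F W
  have hl : ∀ i, ∃ g : B →ₗ[F] F, g ∘ₗ W.subtype = bs.coord i :=
    fun i => LinearMap.exists_extend (bs.coord i)
  choose l hl using hl
  let Λ : U →ₗ[HK F] (Fin (Module.finrank F W) → HK F) :=
    { toFun := fun a i => cf (l i) (Ψ a)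
      map_add' := fun a b => by
        funext i
        change cf (l i) (Ψ ((a + b : U) : A)) = cf (l i) (Ψ a) + cf (l i) (Ψ b)
        rw [Submodule.coe_add, map_add, cf_add]
      map_smul' := fun x a => by
        funext i
        change cf (l i) (Ψ ((x • a : U) : A)) = x * cf (l i) (Ψ a)
        rw [Submodule.coe_smul, hΨ, cf_mul] }
  have hinj : Function.Injective Λ := by
    rw [← LinearMap.ker_eq_bot, LinearMap.ker_eq_bot']
    intro a ha
    by_contra hne
    obtain ⟨b, _, hb, hbW⟩ := h (a : A) a.2 fun h0 => hne (Subtype.ext h0)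
    apply hb
    have h1 : ∀ i, bs.coord i ⟨(Ψ a).coeff b, hbW⟩ = 0 := by
      intro i
      rw [← hl i]
      change l i ((Ψ a).coeff b) = 0
      have h2 := congrFun ha i
      change cf (l i) (Ψ a) = 0 at h2
      rw [← cf_coeff, h2, HahnSeries.coeff_zero]
    have h3 : (⟨(Ψ a).coeff b, hbW⟩ : W) = 0 := by
      rw [← bs.forall_coord_eq_zero_iff]
      exact h1
    exact congrArg Subtype.val h3
  have hfin : FiniteDimensional (HK F) U := Module.Finite.of_injective Λ hinj
  refine ⟨hfin, ?_⟩
  have h4 := LinearMap.finrank_le_finrank_of_injective hinj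
  rwa [Module.finrank_fin_fun] at h4

end Pool.Agent.TH176.RK
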