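import Pool.Agent.TH159.IA.KeyGen0
import Pool.Agent.TH396.IN.Edges
import Pool.Agent.TH176.RK.Defs

/-! The linear form of the key lemma. -/

set_option autoImplicit false

namespace Pool.Agent.TH176.RK

open Pool.Agent.TH396.IN Pool.Agent.TH159.IA

namespace KeyLin_

/-- leading coefficients with different exponents do not cancel -/
theorem lead_sum_low {F : Type} [Field F] {P : Type} [AddCommMonoid P]
    {J : Finset (ℕ × P)} (hJ : J.Nonempty) {x : ℕ × P → H2 F P} {A : ℕ × P → ℝ}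
    {l₀ l₁ : ℕ × P → ℝ} (h : ∀ j ∈ J, LeadAt (x j) (A j) j (l₀ j) (l₁ j)) :
    ∃ a : ℝ, (∀ b < a, (∑ j ∈ J, x j).coeff b = 0) ∧ (∑ j ∈ J, x j).coeff a ≠ 0 ∧
      ∀ m, ((∑ j ∈ J, x j).coeff a).coeff m ≠ 0 →
      m.2 ∈ J ∧ l₀ m.2 ≤ m.1 ∧ (m.1 : ℝ) ≤ l₁ m.2 := by
  classical
  obtain ⟨j₀, hj₀, hmin⟩ := Finset.exists_min_image J A hJ
  have hcf : ∀ m, ((∑ j ∈ J, x j).coeff (A j₀)).coeff m =
      ∑ j ∈ J, ((x j).coeff (A j₀)).coeff m := by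
    intro m
    rw [HahnSeries.coeff_sum, AddMonoidAlgebra.coeff_sum, Finsupp.finsetSum_apply]
  have hone : ∀ j ∈ J, ∀ m, ((x j).coeff (A j₀)).coeff m ≠ 0 →
      m.2 = j ∧ l₀ j ≤ m.1 ∧ (m.1 : ℝ) ≤ l₁ j := by
    intro j hj m hm
    obtain ⟨e1, _, e3⟩ := h j hj
    rcases lt_or_eq_of_le (hmin j hj) with h' | h'
    · exfalso
      apply hm
      rw [e1 _ h']
      rfl
    · rw [h'] at hm
      exact e3 m hm
  refine ⟨A j₀, ?_, ?_, ?_⟩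
  · intro b hb
    rw [HahnSeries.coeff_sum]
    refine Finset.sum_eq_zero fun j hj => ?_
    exact (h j hj).1 b (lt_of_lt_of_le hb (hmin j hj))
  · intro h0
    obtain ⟨_, e2, _⟩ := h j₀ hj₀
    apply e2
    apply AddMonoidAlgebra.coeff_injective
    ext m
    by_contra hm
    have hk := (hone j₀ hj₀ m hm).1
    have h3 := hcf m
    rw [h0, Finset.sum_eq_single j₀] at h3
    · exact hm h3.symm
    · intro j hj hjne
      by_contra h4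
      have h5 := (hone j hj m h4).1
      rw [hk] at h5
      exact hjne h5.symm
    · intro h4
      exact absurd hj₀ h4
  · intro m hm
    rw [hcf] at hm
    obtain ⟨j, hj, hj2⟩ := Finset.exists_ne_zero_of_sum_ne_zero hm
    obtain ⟨e1, e2, e3⟩ := hone j hj m hj2
    rw [e1]
    exact ⟨hj, e2, e3⟩

theorem Ph_smul {F : Type} [Field F] [CharZero F] {P : Type} [AddCommMonoid P]
    (C : (H2 F P)ˣ) (D : H2 F P) (x : HK F) (f : LP (HK F) (ℕ × P)) :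
    Ph C D (x • f) = inc (LP F (ℕ × P)) x * Ph C D f := by
  rw [← Ph_C C D x, ← map_mul]
  congr 1
  rw [Algebra.smul_def]
  rfl

end KeyLin_

open KeyLin_ in
theorem key_lin_of {F : Type} [Field F] [CharZero F] {P : Type} [AddCommMonoid P] {ι : Type}
    {k : ℕ} {σ s : ℝ} (h0 : 0 < σ) (h1 : σ < 1 / 2) (hs : 1 ≤ s)
    {c : (H1 F)ˣ} (hc : IsC k σ c) (e : ι → (LP F (ℕ × P) →ₐ[F] F)) :
    ∃ (e' : ι → (LP (HK F) (ℕ × P) →ₐ[HK F] HK F))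
      (Ψ : LP (HK F) (ℕ × P) →+* HahnSeries ℝ (LP F (ℕ × P))),
      (∀ (x : HK F) (f : LP (HK F) (ℕ × P)), Ψ (x • f) = inc (LP F (ℕ × P)) x * Ψ f) ∧
      (∀ (w : ι → ℕ) (f : LP (HK F) (ℕ × P)), Mult e' w f → ∀ a, Mult e w ((Ψ f).coeff a)) ∧
      ∀ (J : Finset (ℕ × P)) (g : ℕ × P → AddMonoidAlgebra (HK F) (ℤ × ℕ)) (p₀ p₁ : ℕ × P → ℝ),
        (∃ j ∈ J, g j ≠ 0) →
        (∀ j ∈ J, Win F k {m | (g j).coeff m ≠ 0} (p₀ j) (p₁ j) ∧ p₁ j - p₀ j < s) →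
        ∃ a : ℝ, (∀ b < a, (Ψ (∑ j ∈ J, emb (HK F) P (g j) *
            Hk P k (HahnSeries.single 1 1) ^ j.1 * AddMonoidAlgebra.single (0, (0, j.2)) 1)).coeff b
              = 0) ∧
          (Ψ (∑ j ∈ J, emb (HK F) P (g j) *
            Hk P k (HahnSeries.single 1 1) ^ j.1 * AddMonoidAlgebra.single (0, (0, j.2)) 1)).coeff a
              ≠ 0 ∧
          ∀ m, ((Ψ (∑ j ∈ J, emb (HK F) P (g j) *
            Hk P k (HahnSeries.single 1 1) ^ j.1 *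
              AddMonoidAlgebra.single (0, (0, j.2)) 1)).coeff a).coeff m ≠ 0 →
            m.2 ∈ J ∧ m.1 ∈ win σ (p₁ m.2 - p₀ m.2) := by
  classical
  obtain ⟨C, hC⟩ : ∃ C, C = Units.map (jj F P : H1 F →* H2 F P) c := ⟨_, rfl⟩
  obtain ⟨D, hD⟩ : ∃ D, D = DD F P σ s := ⟨_, rfl⟩
  refine ⟨fun i => pt C D (e i), Ph C D, Ph_smul C D, ?_, ?_⟩
  · intro w f hM a i
    exact transfer ((e i : LP F (ℕ × P) →ₐ[F] F) : LP F (ℕ × P) →+* F) (Ph C D) (hM i) a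
  intro J g p₀ p₁ hgne hJ
  obtain ⟨f, hdec⟩ : ∃ f, f = ∑ j ∈ J, emb (HK F) P (g j) *
      Hk P k (HahnSeries.single 1 1) ^ j.1 * AddMonoidAlgebra.single (0, (0, j.2)) 1 := ⟨_, rfl⟩
  rw [← hdec]
  obtain ⟨H, hH⟩ : ∃ H, H = Ph C D (Hk P k (HahnSeries.single 1 1)) := ⟨_, rfl⟩
  have hH' := hH
  rw [hC, hD, Ph_Hk hc] at hH'
  obtain ⟨hH1, hH2⟩ := lead_Hk h1 hs hH'
  obtain ⟨J', hJ'⟩ : ∃ J', J' = J.filter (fun j => g j ≠ 0) := ⟨_, rfl⟩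
  have hJm : ∀ j ∈ J', j ∈ J ∧ g j ≠ 0 := by
    intro j hj
    rw [hJ', Finset.mem_filter] at hj
    exact hj
  have hsp : ∀ p : P, Ph C D (AddMonoidAlgebra.single (0, (0, p)) 1) = sp F p := by
    intro p
    rw [Ph_single, mul_zero, zpow_zero, Units.val_one, pow_zero, map_one, mul_one, one_mul,
      one_mul]
  have hlead : ∀ j ∈ J', ∃ A, LeadAt (Ph C D (emb (HK F) P (g j)) * H ^ j.1 * sp F j.2) A j
      (-(σ * (p₁ j - p₀ j))) ((1 - σ) * (p₁ j - p₀ j)) := by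
    intro j hj
    obtain ⟨hj1, hj2⟩ := hJm j hj
    obtain ⟨hW, hL⟩ := hJ j hj1
    obtain ⟨A, hA⟩ := lead_emb (P := P) h0 (by linarith) (by linarith) hc
      (fun {g} hg {P0 P1} hP => edges h0 (by linarith) hc hg hP) hj2 hW hL
    rw [← hC, ← hD] at hA
    exact ⟨_, hA.mul_pow hH1 hH2 j.1 j.2⟩
  choose! A hA using hlead
  have hsum : Ph C D f = ∑ j ∈ J', Ph C D (emb (HK F) P (g j)) * H ^ j.1 * sp F j.2 := by
    conv_lhs => rw [hdec]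
    rw [map_sum, hJ', Finset.sum_filter]
    refine Finset.sum_congr rfl fun j _ => ?_
    split_ifs with h
    · rw [map_mul, map_mul, map_pow, hsp, ← hH]
    · push Not at h
      rw [h, map_zero, zero_mul, zero_mul, map_zero]
  have hJne : J'.Nonempty := by
    obtain ⟨j, hj, hgj⟩ := hgne
    exact ⟨j, by rw [hJ']; exact Finset.mem_filter.mpr ⟨hj, hgj⟩⟩
  obtain ⟨a, ha0, ha1, ha2⟩ := lead_sum_low hJne hA
  rw [← hsum] at ha0 ha1 ha2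
  refine ⟨a, ha0, ha1, ?_⟩
  intro m hm
  obtain ⟨g1, g2, g3⟩ := ha2 m hm
  exact ⟨(hJm _ g1).1, g2, g3⟩

end Pool.Agent.TH176.RK
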