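import Pool.Agent.TH176.RK.Mono
import Pool.Agent.TH176.RK.Hahn
import Pool.Agent.TH176.RK.KeyLin
import Pool.Agent.TH159.IA.T1

/-! The key lemma for ranks. -/

set_option autoImplicit false

namespace Pool.Agent.TH176.RK

open Pool.Agent.TH396.IN Pool.Agent.TH159.IA

namespace KeyInd_

variable {K : Type} [Field K] {P : Type} [AddCommMonoid P]

theorem single_mul {A : Type} [AddCommMonoid A] (c : K) (f : AddMonoidAlgebra K A) :
    AddMonoidAlgebra.single 0 c * f = c • f := by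
  rw [Algebra.smul_def]; rfl

/-- the polynomials with exponents in `G` -/
def sub2 (K : Type) [Field K] (G : Set (ℤ × ℕ)) : Submodule K (AddMonoidAlgebra K (ℤ × ℕ)) where
  carrier := {f | ∀ m, f.coeff m ≠ 0 → m ∈ G}
  add_mem' {f g} hf hg m hm := by
    rw [AddMonoidAlgebra.coeff_add, Finsupp.add_apply] at hm
    by_cases h : f.coeff m = 0
    · rw [h, zero_add] at hm
      exact hg m hm
    · exact hf m h
  zero_mem' m hm := by simp at hm
  smul_mem' c f hf m hm := by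
    refine hf m fun h => hm ?_
    rw [AddMonoidAlgebra.coeff_smul, Finsupp.smul_apply, h, smul_zero]

theorem finrank_sub2 {G : Set (ℤ × ℕ)} (h : G.Finite) :
    FiniteDimensional K (sub2 K G) ∧ Module.finrank K (sub2 K G) = G.ncard := by
  have e : sub2 K G = (spn K G : Submodule K (LP K ℕ)) := rfl
  exact ⟨finite_spn (K := K) h, finrank_spn (K := K) h⟩

/-- the sum map -/
noncomputable def bigMap (k : ℕ) (t : K) (J : Finset (ℕ × P)) (G : ℕ × P → Set (ℤ × ℕ)) :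
    (∀ j : J, sub2 K (G j)) →ₗ[K] LP K (ℕ × P) where
  toFun g := ∑ j : J, emb K P (g j).1 * Hk P k t ^ j.1.1 * AddMonoidAlgebra.single (0, (0, j.1.2)) 1
  map_add' g g' := by
    rw [← Finset.sum_add_distrib]
    refine Finset.sum_congr rfl fun j _ => ?_
    simp only [Pi.add_apply, Submodule.coe_add, map_add]
    ring
  map_smul' c g := by
    rw [RingHom.id_apply, Finset.smul_sum]
    refine Finset.sum_congr rfl fun j _ => ?_
    have h : emb K P ((c • g) j).1 = c • emb K P (g j).1 := by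
      have h1 : ((c • g) j).1 = AddMonoidAlgebra.single 0 c * (g j).1 := by
        rw [single_mul]
        rfl
      rw [h1, map_mul, emb_single]
      have h2 : (AddMonoidAlgebra.single ((0 : ℤ × ℕ).1, ((0 : ℤ × ℕ).2, (0 : P))) c :
        LP K (ℕ × P)) = AddMonoidAlgebra.single 0 c := rfl
      rw [h2, single_mul]
    rw [h]
    simp only [smul_mul_assoc]

theorem emb_smul (c : K) (g : AddMonoidAlgebra K (ℤ × ℕ)) : emb K P (c • g) = c • emb K P g := by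
  rw [← single_mul, map_mul, emb_single]
  have h2 : (AddMonoidAlgebra.single ((0 : ℤ × ℕ).1, ((0 : ℤ × ℕ).2, (0 : P))) c :
    LP K (ℕ × P)) = AddMonoidAlgebra.single 0 c := rfl
  rw [h2, single_mul]

theorem bigMap_mem {k : ℕ} {t : K} {J : Finset (ℕ × P)} {G : ℕ × P → Set (ℤ × ℕ)}
    {S : Set (ℤ × (ℕ × P))}
    (h : ∀ j ∈ J, ∀ x ∈ G j, ∀ y, ((AddMonoidAlgebra.single (x.1, (x.2, 0)) 1 *
            Hk P k t ^ j.1 *
            AddMonoidAlgebra.single (0, (0, j.2)) 1 : LP K (ℕ × P))).coeff y ≠ 0 → y ∈ S)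
    (g : ∀ j : J, sub2 K (G j)) : bigMap k t J G g ∈ spn K S := by
  classical
  show ∑ j : J, emb K P (g j).1 * Hk P k t ^ j.1.1 * AddMonoidAlgebra.single (0, (0, j.1.2)) 1 ∈ _
  refine Submodule.sum_mem _ fun j _ => ?_
  have h1 : (g j).1 = ∑ x ∈ (g j).1.coeff.support,
      ((g j).1.coeff x) • (AddMonoidAlgebra.single x (1 : K)) := by
    conv_lhs => rw [← AddMonoidAlgebra.sum_coeff_single (g j).1]
    rw [Finsupp.sum]
    refine Finset.sum_congr rfl fun x _ => ?_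
    rw [AddMonoidAlgebra.smul_single, smul_eq_mul, mul_one]
  rw [h1, map_sum, Finset.sum_mul, Finset.sum_mul]
  refine Submodule.sum_mem _ fun x hx => ?_
  rw [emb_smul, smul_mul_assoc, smul_mul_assoc]
  refine Submodule.smul_mem _ _ ?_
  have hxG : x ∈ G j := (g j).2 x (Finsupp.mem_support_iff.1 hx)
  have h2 : emb K P (AddMonoidAlgebra.single x (1 : K)) = AddMonoidAlgebra.single (x.1, (x.2, 0)) 1 :=
    emb_single K P x.1 x.2 1
  rw [h2]
  exact h j.1 j.2 x hxG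

theorem win_finite (σ L : ℝ) : (win σ L).Finite := by
  refine (Set.finite_Icc ⌈-(σ * L)⌉ ⌊(1 - σ) * L⌋).subset fun l hl => ?_
  exact ⟨Int.ceil_le.2 hl.1, Int.le_floor.2 hl.2⟩

theorem card_T (σ : ℝ) (J : Finset (ℕ × P)) (L : ℕ × P → ℝ) :
    {x : ℤ × (ℕ × P) | x.2 ∈ J ∧ x.1 ∈ win σ (L x.2)}.ncard ≤ ∑ j ∈ J, (win σ (L j)).ncard := by
  classical
  let T' : Finset (ℤ × (ℕ × P)) :=
    J.biUnion fun j => (win_finite σ (L j)).toFinset.image fun l => (l, j)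
  have h1 : {x : ℤ × (ℕ × P) | x.2 ∈ J ∧ x.1 ∈ win σ (L x.2)} ⊆ (T' : Set (ℤ × (ℕ × P))) := by
    rintro ⟨l, j⟩ ⟨hj, hl⟩
    simp only [T', Finset.coe_biUnion, Set.mem_iUnion]
    refine ⟨j, hj, ?_⟩
    rw [Finset.coe_image]
    exact ⟨l, by simpa using hl, rfl⟩
  refine (Set.ncard_le_ncard h1 T'.finite_toSet).trans ?_
  rw [Set.ncard_coe_finset]
  refine Finset.card_biUnion_le.trans (Finset.sum_le_sum fun j _ => ?_)
  refine Finset.card_image_le.trans ?_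
  rw [← Set.ncard_coe_finset, Set.Finite.coe_toFinset]

end KeyInd_

open KeyInd_ in
/-- the key lemma for ranks -/
theorem key_ind_of {F : Type} [Field F] [CharZero F] {P : Type} [AddCommMonoid P] {ι : Type}
    [Fintype ι] {k : ℕ} {σ s : ℝ} (h0 : 0 < σ) (h1 : σ < 1 / 2) (hs : 1 ≤ s)
    {c : (H1 F)ˣ} (hc : IsC k σ c) (e : ι → (LP F (ℕ × P) →ₐ[F] F)) :
    ∃ e' : ι → (LP (HK F) (ℕ × P) →ₐ[HK F] HK F),
      ∀ (w : ι → ℕ) (m : ℕ) (J : Finset (ℕ × P)) (G : ℕ × P → Set (ℤ × ℕ))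
        (p₀ p₁ : ℕ × P → ℝ) (S : Set (ℤ × (ℕ × P))), S.Finite →
        (∀ j ∈ J, (G j).Finite ∧ Win F k (G j) (p₀ j) (p₁ j) ∧ p₁ j - p₀ j < s ∧
          (win σ (p₁ j - p₀ j)).ncard ≤ (G j).ncard ∧
          ∀ x ∈ G j, ∀ y, ((AddMonoidAlgebra.single (x.1, (x.2, 0)) 1 *
            Hk P k (HahnSeries.single 1 1) ^ j.1 *
            AddMonoidAlgebra.single (0, (0, j.2)) 1 : LP (HK F) (ℕ × P))).coeff y ≠ 0 → y ∈ S) →
        Ind e w m {x | x.2 ∈ J ∧ x.1 ∈ win σ (p₁ x.2 - p₀ x.2)} → Ind e' w m S := by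
  classical
  obtain ⟨e', Ψ, hΨ1, hΨ2, hΨ3⟩ := key_lin_of (P := P) h0 h1 hs hc e
  refine ⟨e', fun w m J G p₀ p₁ S hS hJ hInd => ?_⟩
  obtain ⟨hT, hInd⟩ := hInd
  -- leading coefficients
  have hlead : ∀ g : (∀ j : J, sub2 (HK F) (G j)), g ≠ 0 → ∃ a : ℝ,
      (∀ b < a, (Ψ (bigMap k (HahnSeries.single 1 1) J G g)).coeff b = 0) ∧
      (Ψ (bigMap k (HahnSeries.single 1 1) J G g)).coeff a ≠ 0 ∧
      ∀ m, ((Ψ (bigMap k (HahnSeries.single 1 1) J G g)).coeff a).coeff m ≠ 0 →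
        m.2 ∈ J ∧ m.1 ∈ win σ (p₁ m.2 - p₀ m.2) := by
    intro g hg
    let g' : ℕ × P → AddMonoidAlgebra (HK F) (ℤ × ℕ) := fun j =>
      if h : j ∈ J then (g ⟨j, h⟩).1 else 0
    have hg' : ∀ j : J, g' j.1 = (g j).1 := fun j => dif_pos j.2
    have hsum : bigMap k (HahnSeries.single 1 1) J G g = ∑ j ∈ J, emb (HK F) P (g' j) *
        Hk P k (HahnSeries.single 1 1) ^ j.1 * AddMonoidAlgebra.single (0, (0, j.2)) 1 := by
      rw [← Finset.sum_coe_sort J (fun j => emb (HK F) P (g' j) *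
        Hk P k (HahnSeries.single 1 1) ^ j.1 * AddMonoidAlgebra.single (0, (0, j.2)) 1)]
      show ∑ j : J, _ = _
      refine Finset.sum_congr rfl fun j _ => ?_
      rw [hg' j]
    rw [hsum]
    refine hΨ3 J g' p₀ p₁ ?_ fun j hj => ?_
    · by_contra hcon
      push Not at hcon
      apply hg
      funext j
      apply Subtype.ext
      rw [← hg' j]
      exact hcon j.1 j.2
    · obtain ⟨-, h2, h3, -, -⟩ := hJ j hj
      refine ⟨?_, h3⟩
      intro g₀ hg₀ hs0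
      refine h2 g₀ hg₀ fun m hm => ?_
      have h4 := hs0 m hm
      have h5 : g' j = (g ⟨j, hj⟩).1 := dif_pos hj
      rw [Set.mem_setOf_eq, h5] at h4
      exact (g ⟨j, hj⟩).2 m h4
  -- the subspace
  obtain ⟨V', hV'⟩ : ∃ V', V' = LinearMap.range (bigMap (K := HK F) k (HahnSeries.single 1 1) J G) :=
    ⟨_, rfl⟩
  have hVS : V' ≤ spn (HK F) S := by
    rw [hV']
    rintro _ ⟨g, rfl⟩
    exact bigMap_mem (fun j hj => (hJ j hj).2.2.2.2) g
  have hfd : ∀ j : J, FiniteDimensional (HK F) (sub2 (HK F) (G j)) := fun j =>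
    (finrank_sub2 (hJ j.1 j.2).1).1
  have hinj : LinearMap.ker (bigMap (K := HK F) k (HahnSeries.single 1 1) J G) = ⊥ := by
    rw [LinearMap.ker_eq_bot']
    intro g hg
    by_contra hne
    obtain ⟨a, -, h2, -⟩ := hlead g hne
    rw [hg, map_zero, HahnSeries.coeff_zero] at h2
    exact h2 rfl
  have hdim : Module.finrank (HK F) V' = ∑ j ∈ J, (G j).ncard := by
    rw [hV', LinearMap.finrank_range_of_inj (LinearMap.ker_eq_bot.1 hinj),
      Module.finrank_pi_fintype, ← Finset.sum_coe_sort J (fun j => (G j).ncard)]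
    exact Finset.sum_congr rfl fun j _ => (finrank_sub2 (hJ j.1 j.2).1).2
  have hTc : {x : ℤ × (ℕ × P) | x.2 ∈ J ∧ x.1 ∈ win σ (p₁ x.2 - p₀ x.2)}.ncard ≤
      Module.finrank (HK F) V' := by
    rw [hdim]
    exact (card_T σ J fun j => p₁ j - p₀ j).trans
      (Finset.sum_le_sum fun j hj => (hJ j hj).2.2.2.1)
  have f1 := finite_spn (K := F) hT
  have f2 : FiniteDimensional F ↥(spn F {x : ℤ × (ℕ × P) | x.2 ∈ J ∧
      x.1 ∈ win σ (p₁ x.2 - p₀ x.2)} ⊓ mu e w) := Submodule.finiteDimensional_of_le inf_le_left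
  have h4 := (hahn_dim (Ψ : LP (HK F) (ℕ × P) →+ HahnSeries ℝ (LP F (ℕ × P)))
    (fun x a => hΨ1 x a) (V' ⊓ mu e' w)
    (spn F {x : ℤ × (ℕ × P) | x.2 ∈ J ∧ x.1 ∈ win σ (p₁ x.2 - p₀ x.2)} ⊓ mu e w) (by
      rintro f ⟨hf1, hf2⟩ hf0
      rw [hV'] at hf1
      obtain ⟨g, rfl⟩ := hf1
      have hg0 : g ≠ 0 := by
        rintro rfl
        exact hf0 (map_zero _)
      obtain ⟨a, h5, h6, h7⟩ := hlead g hg0
      exact ⟨a, h5, h6, h7, hΨ2 w _ hf2 a⟩)).2
  refine Ind.of_sub hS hVS ?_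
  omega

/-- The key lemma holds. -/
theorem keyInd (ι : Type) [Fintype ι] : KeyInd ι := by
  intro F _ _ P _ k σ s hk h0 h1 hs e
  obtain ⟨c, hc⟩ := exists_c F hk h0 (by linarith)
  exact key_ind_of h0 h1 hs hc e

end Pool.Agent.TH176.RK
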