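import Pool.Agent.TH176.RK.ToFat
import Pool.Agent.TH176.RK.CardSx
import Pool.Agent.TH176.RK.KeyInd
import Pool.Agent.TH176.RK.Ind
import Pool.Agent.TH159.IA.Key2
import Pool.Agent.TH396.IN.Key3

/-! Multiple points in projective space, at least `3 ^ N` of them: both sides. -/

set_option autoImplicit false

namespace Pool.Agent.TH176.RK

open Pool.Agent.TH396.IN Pool.Agent.TH159.IA

/-- the conditions are independent in large degree -/
theorem fat_ind (k r d W : ℕ) (w : Fin r → ℕ) (u : ℝ) (hu0 : 3 ≤ u) (hu : u ^ (k + 2) = r)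
    (hw : ∀ i, w i ≤ W) (h : u * (W + k + 1) + k < d) :
    ∃ (K : Type) (_ : Field K) (_ : CharZero K) (p : Fin r → Fin (k + 3) → K),
      Module.finrank K (FB.fat d w p) + ∑ i, (w i + (k + 1)).choose (k + 2) ≤
        (d + (k + 2)).choose (k + 2) := by
  have hcont : Continuous fun x : ℝ => x * (W + k + 1) + k := by fun_prop
  have hev : ∀ᶠ x : ℝ in nhds u, x * ((W : ℝ) + k + 1) + k < (d : ℝ) :=
    (hcont.tendsto u).eventually_lt_const h
  obtain ⟨ε, hε, hball⟩ := Metric.eventually_nhds_iff.1 hev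
  obtain ⟨v, hv⟩ : ∃ v, v = u + ε / 2 := ⟨_, rfl⟩
  have hvu : u < v := by rw [hv]; linarith
  have hvd : v * (W + k + 1) + k < d := hball (by
    rw [Real.dist_eq, abs_lt]
    constructor <;> linarith)
  have hcard : (Fintype.card (Fin r) : ℝ) < v ^ (k + 2) := by
    rw [Fintype.card_fin, ← hu]
    exact pow_lt_pow_left₀ hvu (by linarith) (by omega)
  obtain ⟨K, i1, i2, e, he⟩ := sgood (keyInd (Fin r)) k v (by linarith) hcard d
  have h1 := he d w W hw le_rfl (by
    have hv0 : v ≠ 0 := by linarith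
    have : v * ((W : ℝ) + (k * (1 + 1 / v) + 1)) = v * (W + k + 1) + k := by
      field_simp
      ring
    rw [this]
    exact hvd.le)
  obtain ⟨p, hp⟩ := to_fat k r d w e
  refine ⟨K, i1, i2, p, ?_⟩
  have h2 := h1.2
  rw [card_Sx] at h2
  refine le_trans ?_ h2
  unfold Jn
  have e1 : ∀ i : Fin r, w i + (k + 2 - 1) = w i + (k + 1) := fun i => by omega
  simp only [e1]
  exact Nat.add_le_add_right hp _

/-- the system is empty in small degree -/
theorem fat_empty (k r d : ℕ) (w : Fin r → ℕ) (u : ℝ) (hu0 : 3 ≤ u) (hu : u ^ (k + 2) = r)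
    (h : u ^ (k + 1) * d < ∑ i, (w i : ℝ)) :
    ∃ (K : Type) (_ : Field K) (_ : CharZero K) (p : Fin r → Fin (k + 3) → K),
      FB.fat d w p = ⊥ := by
  have hup : 0 < u := by linarith
  have hG : GoodS (Fin r) (dgp k) (u⁻¹⁻¹ ^ (k + 1)) := by
    refine good_space_of (Pool.Agent.TH159.IA.key2 (Fin r)) (key3 (Fin r)) (inv_pos.2 hup) ?_ k ?_
    · rw [one_div]
      exact inv_anti₀ (by norm_num) hu0
    · rw [Fintype.card_fin, inv_pow, hu]
      have : (r : ℝ) ≠ 0 := by
        rw [← hu]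
        positivity
      exact mul_inv_cancel₀ this
  rw [inv_inv] at hG
  obtain ⟨K, i1, i2, e, he⟩ := hG d
  obtain ⟨p, hp⟩ := to_fat k r d w e
  refine ⟨K, i1, i2, p, ?_⟩
  have h1 : spn K (Sx (dgp k) d) ⊓ mu e w = ⊥ := by
    rw [eq_bot_iff]
    intro f hf
    rw [Submodule.mem_bot]
    exact he d w le_rfl (by rw [mul_comm]; exact h) f hf.1 hf.2
  rw [h1, finrank_bot] at hp
  have : FiniteDimensional K (FB.fat d w p) :=
    Submodule.finiteDimensional_of_le (S₂ := MvPolynomial.homogeneousSubmodule (Fin (k + 3)) K d)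
      (fun f hf => hf.1)
  exact Submodule.finrank_eq_zero.1 (Nat.le_zero.1 hp)

end Pool.Agent.TH176.RK
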