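import Pool.Agent.TH176.RK.Fro2

/-!
Special families of forms: the predicted Hilbert function for at least `3 ^ (n - 1)` forms in `n`
variables, outside the exceptional degrees, for every polynomial family which contains all the
powers of linear forms.
-/

set_option autoImplicit false

namespace Pool.Agent.TH176.RK

open MvPolynomial Finset Pool.Agent.TH206.Fro Pool.Agent.TH176.FB

/-- Semicontinuity in a family of forms whose coefficients are integral polynomials in parameters. -/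
theorem spec_fam (K L : Type) [Field K] [CharZero K] [Field L] [CharZero L] (n r k : ℕ)
    (d : Fin r → ℕ) {τ : Type} (φ : Io n d → MvPolynomial τ ℤ) (t0 : τ → L)
    (f0 : Fin r → MvPolynomial (Fin n) L) (h0 : ∀ i, (f0 i).IsHomogeneous (d i))
    (hf0 : ∀ s : Io n d, (f0 s.1).coeff s.2.1 = aeval t0 (φ s)) :
    ∃ P : MvPolynomial τ K, P ≠ 0 ∧
      ∀ (t : τ → K) (f : Fin r → MvPolynomial (Fin n) K), (∀ i, (f i).IsHomogeneous (d i)) →
        (∀ s : Io n d, (f s.1).coeff s.2.1 = aeval t (φ s)) →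
        MvPolynomial.eval t P ≠ 0 →
        Module.finrank L (ik f0 k) ≤ Module.finrank K (ik f k) := by
  classical
  obtain ⟨f, g, hfg⟩ := exists_minor (Mx d k (fun s : Io n d => (f0 s.1).coeff s.2.1)) _ le_rfl
  let M : Matrix (Ro n k d) (Dg n k) (MvPolynomial τ ℤ) := Mx d k φ
  have hev : ∀ (F : Type) [Field F] (t : τ → F),
      MvPolynomial.eval t (MvPolynomial.map (Int.castRingHom F) (M.submatrix f g).det) =
        ((Mx d k (fun s => aeval t (φ s))).submatrix f g).det := by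
    intro F _ t
    have e1 : ∀ q : MvPolynomial τ ℤ,
        MvPolynomial.eval t (MvPolynomial.map (Int.castRingHom F) q) = aeval t q := by
      intro q
      rw [MvPolynomial.eval_map, MvPolynomial.aeval_def, algebraMap_int_eq]
    rw [e1, AlgHom.map_det]
    congr 1
    ext i j
    simp only [AlgHom.mapMatrix_apply, Matrix.map_apply, Matrix.submatrix_apply]
    show aeval t (Mx d k φ (f i) (g j)) = _
    unfold Mx
    split_ifs with h
    · rfl
    · exact map_zero _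
  have hne : (M.submatrix f g).det ≠ 0 := by
    intro h
    apply hfg
    have h1 := hev L t0
    rw [h, map_zero, map_zero] at h1
    have h2 : (fun s : Io n d => (f0 s.1).coeff s.2.1) = fun s => aeval t0 (φ s) := by
      funext s
      exact hf0 s
    exact (congrArg (fun M : Matrix (Ro n k d) (Dg n k) L => (M.submatrix f g).det)
      (congrArg (Mx d k) h2)).trans h1.symm
  refine ⟨MvPolynomial.map (Int.castRingHom K) (M.submatrix f g).det, fun h => hne ?_,
    fun t F hF hFc hFP => ?_⟩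
  · exact MvPolynomial.map_injective _ (RingHom.injective_int (Int.castRingHom K))
      (by rw [h, map_zero])
  · unfold ik
    rw [hilb_thm n k r d L f0 h0, hilb_thm n k r d K F hF]
    rw [hev K] at hFP
    have h2 : (fun s : Io n d => (F s.1).coeff s.2.1) = fun s => aeval t (φ s) := by
      funext s
      exact hFc s
    rw [← h2] at hFP
    exact rank_ge_of_minor _ _ f g hFP

/-- The family contains the powers of linear forms. -/
def Pows {n r : ℕ} (d : Fin r → ℕ) {τ : Type} (φ : Io n d → MvPolynomial τ ℤ) : Prop :=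
  ∀ (L : Type) [Field L] [CharZero L] (p : Fin r → Fin n → L), ∃ t0 : τ → L,
    ∀ s : Io n d, (lf (p s.1) ^ d s.1).coeff s.2.1 = aeval t0 (φ s)

/-- One degree, injectivity. -/
theorem ind_fam (k : ℕ) (K : Type) [Field K] [CharZero K] (r : ℕ) (u : ℝ) (hu0 : 3 ≤ u)
    (hu : u ^ (k + 2) = r) (d : Fin r → ℕ) {τ : Type} (φ : Io (k + 3) d → MvPolynomial τ ℤ)
    (hφ : Pows d φ) (D W : ℕ) (hw : ∀ i, D + 1 - d i ≤ W) (h : u * (W + k + 1) + k < D) :
    ∃ P : MvPolynomial τ K, P ≠ 0 ∧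
      ∀ (t : τ → K) (f : Fin r → MvPolynomial (Fin (k + 3)) K), (∀ i, (f i).IsHomogeneous (d i)) →
        (∀ s : Io (k + 3) d, (f s.1).coeff s.2.1 = aeval t (φ s)) → MvPolynomial.eval t P ≠ 0 →
        Fintype.card (Ro (k + 3) D d) ≤ Module.finrank K (ik f D) := by
  classical
  obtain ⟨L, _, _, p, hp⟩ := fat_ind k r D W (fun i => D + 1 - d i) u hu0 hu hw h
  have h1 := emsalem_iarrobino D d p
  rw [dim_thm (k + 3) D L, card_Mon_choose (k + 2) D] at h1
  have hRo := card_Ro_choose (k + 2) r D d (by omega)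
  obtain ⟨t0, ht0⟩ := hφ L p
  obtain ⟨P, hP, hP2⟩ := spec_fam K L (k + 3) r D d φ t0 (fun i => lf (p i) ^ d i) (fun i => by
    have h := (lf_hom (p i)).pow (d i)
    rwa [one_mul] at h) ht0
  refine ⟨P, hP, fun t f hf hfc hfP => le_trans ?_ (hP2 t f hf hfc hfP)⟩
  rw [hRo]
  have e1 : ∀ i : Fin r, D + 1 - d i + (k + 2 - 1) = D + 1 - d i + (k + 1) := fun i => by omega
  simp only [e1]
  omega

/-- One degree, surjectivity. -/
theorem emp_fam (k : ℕ) (K : Type) [Field K] [CharZero K] (r : ℕ) (u : ℝ) (hu0 : 3 ≤ u)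
    (hu : u ^ (k + 2) = r) (d : Fin r → ℕ) {τ : Type} (φ : Io (k + 3) d → MvPolynomial τ ℤ)
    (hφ : Pows d φ) (D : ℕ) (h : u ^ (k + 1) * D < ∑ i, ((D + 1 - d i : ℕ) : ℝ)) :
    ∃ P : MvPolynomial τ K, P ≠ 0 ∧
      ∀ (t : τ → K) (f : Fin r → MvPolynomial (Fin (k + 3)) K), (∀ i, (f i).IsHomogeneous (d i)) →
        (∀ s : Io (k + 3) d, (f s.1).coeff s.2.1 = aeval t (φ s)) → MvPolynomial.eval t P ≠ 0 →
        (Mon (k + 3) D).card ≤ Module.finrank K (ik f D) := by
  classical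
  obtain ⟨L, _, _, p, hp⟩ := fat_empty k r D (fun i => D + 1 - d i) u hu0 hu h
  have h1 := emsalem_iarrobino D d p
  rw [dim_thm (k + 3) D L, hp, finrank_bot, add_zero] at h1
  obtain ⟨t0, ht0⟩ := hφ L p
  obtain ⟨P, hP, hP2⟩ := spec_fam K L (k + 3) r D d φ t0 (fun i => lf (p i) ^ d i) (fun i => by
    have h := (lf_hom (p i)).pow (d i)
    rwa [one_mul] at h) ht0
  refine ⟨P, hP, fun t f hf hfc hfP => le_trans ?_ (hP2 t f hf hfc hfP)⟩
  exact h1.ge

/-- Arbitrary degrees: both maximal rank and the formula. -/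
theorem fam_all (k : ℕ) (K : Type) [Field K] [CharZero K] (r : ℕ) (u : ℝ) (hu0 : 3 ≤ u)
    (hu : u ^ (k + 2) = r) (d : Fin r → ℕ) {τ : Type} (φ : Io (k + 3) d → MvPolynomial τ ℤ)
    (hφ : Pows d φ) (δ : ℕ) (hδ : 1 ≤ δ) (hd : ∀ i, δ ≤ d i)
    (htop : u ^ (k + 1) * (2 * δ - 1) < ∑ i, ((2 * δ - d i : ℕ) : ℝ)) :
    ∃ P : MvPolynomial τ K, P ≠ 0 ∧
      ∀ (t : τ → K) (f : Fin r → MvPolynomial (Fin (k + 3)) K), (∀ i, (f i).IsHomogeneous (d i)) →
        (∀ s : Io (k + 3) d, (f s.1).coeff s.2.1 = aeval t (φ s)) → MvPolynomial.eval t P ≠ 0 →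
        ∀ D : ℕ,
          (D < 2 * δ → u * (D + 1 - δ + k + 1) + k < D →
            Fintype.card (Ro (k + 3) D d) ≤ Module.finrank K (ik f D)) ∧
          (u ^ (k + 1) * D < ∑ i, ((D + 1 - d i : ℕ) : ℝ) → D < 2 * δ →
            (Mon (k + 3) D).card ≤ Module.finrank K (ik f D)) ∧
          ((D < δ ∨ 2 * δ - 1 ≤ D ∨ u * (D + 1 - δ + k + 1) + k < D ∨
            u ^ (k + 1) * D < ∑ i, ((D + 1 - d i : ℕ) : ℝ)) →
          hilb f D = fro (k + 3) d D) := by
  classical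
  -- one degree
  have hA : ∀ D : ℕ, ∃ P : MvPolynomial τ K, P ≠ 0 ∧
      ∀ (t : τ → K) (f : Fin r → MvPolynomial (Fin (k + 3)) K), (∀ i, (f i).IsHomogeneous (d i)) →
        (∀ s : Io (k + 3) d, (f s.1).coeff s.2.1 = aeval t (φ s)) → MvPolynomial.eval t P ≠ 0 →
        u * (((D + 1 - δ : ℕ) : ℝ) + k + 1) + k < D →
          Fintype.card (Ro (k + 3) D d) ≤ Module.finrank K (ik f D) := by
    intro D
    by_cases h : u * (((D + 1 - δ : ℕ) : ℝ) + k + 1) + k < D
    · obtain ⟨P, hP, hP2⟩ := ind_fam k K r u hu0 hu d φ hφ D (D + 1 - δ)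
        (fun i => by have := hd i; omega) h
      exact ⟨P, hP, fun t f hf hfc hfP _ => hP2 t f hf hfc hfP⟩
    · exact ⟨1, one_ne_zero, fun t f _ _ _ h' => absurd h' h⟩
  have hB : ∀ D : ℕ, ∃ P : MvPolynomial τ K, P ≠ 0 ∧
      ∀ (t : τ → K) (f : Fin r → MvPolynomial (Fin (k + 3)) K), (∀ i, (f i).IsHomogeneous (d i)) →
        (∀ s : Io (k + 3) d, (f s.1).coeff s.2.1 = aeval t (φ s)) → MvPolynomial.eval t P ≠ 0 →
        u ^ (k + 1) * D < ∑ i, ((D + 1 - d i : ℕ) : ℝ) →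
          (Mon (k + 3) D).card ≤ Module.finrank K (ik f D) := by
    intro D
    by_cases h : u ^ (k + 1) * D < ∑ i, ((D + 1 - d i : ℕ) : ℝ)
    · obtain ⟨P, hP, hP2⟩ := emp_fam k K r u hu0 hu d φ hφ D h
      exact ⟨P, hP, fun t f hf hfc hfP _ => hP2 t f hf hfc hfP⟩
    · exact ⟨1, one_ne_zero, fun t f _ _ _ h' => absurd h' h⟩
  choose P1 hP1 hP1' using hA
  choose P2 hP2 hP2' using hB
  refine ⟨∏ D ∈ Finset.range (2 * δ), (P1 D * P2 D), Finset.prod_ne_zero_iff.2
    fun D _ => mul_ne_zero (hP1 D) (hP2 D), fun t f hf hfc hfP => ?_⟩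
  rw [map_prod, Finset.prod_ne_zero_iff] at hfP
  have hfD : ∀ D < 2 * δ, MvPolynomial.eval t (P1 D) ≠ 0 ∧ MvPolynomial.eval t (P2 D) ≠ 0 := by
    intro D hD
    have h := hfP D (Finset.mem_range.2 hD)
    rw [map_mul] at h
    exact ⟨left_ne_zero_of_mul h, right_ne_zero_of_mul h⟩
  -- the degree `2 δ - 1`
  have htop' : homogeneousSubmodule (Fin (k + 3)) K (2 * δ - 1) ≤ ik f (2 * δ - 1) := by
    refine ik_top_of_card f _ (hP2' (2 * δ - 1) t f hf hfc (hfD _ (by omega)).2 ?_)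
    have e1 : ∀ i, 2 * δ - 1 + 1 - d i = 2 * δ - d i := fun i => by omega
    simp only [e1]
    rw [Nat.cast_sub (by omega)]
    push_cast
    exact htop
  intro D
  have hI : D < 2 * δ → u * (D + 1 - δ + k + 1) + k < D →
      Fintype.card (Ro (k + 3) D d) ≤ Module.finrank K (ik f D) := by
    intro hD h
    rcases lt_or_ge D δ with hk1 | hk1
    · have h1 : Fintype.card (Ro (k + 3) D d) = 0 := by
        rw [card_Ro]
        refine Finset.sum_eq_zero fun i _ => if_neg ?_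
        have := hd i
        omega
      rw [h1]
      exact Nat.zero_le _
    · refine hP1' D t f hf hfc (hfD D hD).1 ?_
      rw [Nat.cast_sub (by omega)]
      push_cast
      exact h
  have hJ : u ^ (k + 1) * D < ∑ i, ((D + 1 - d i : ℕ) : ℝ) → D < 2 * δ →
      (Mon (k + 3) D).card ≤ Module.finrank K (ik f D) :=
    fun h hD => hP2' D t f hf hfc (hfD D hD).2 h
  refine ⟨hI, hJ, fun hD => ?_⟩
  rcases lt_or_ge D δ with hk1 | hk1
  · refine hilb_eq K (k + 3) r D d (by omega) (fun i => by have := hd i; omega) f hf ?_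
    have h1 : Fintype.card (Ro (k + 3) D d) = 0 := by
      rw [card_Ro]
      refine Finset.sum_eq_zero fun i _ => if_neg ?_
      have := hd i
      omega
    rw [h1]
    exact (min_le_left _ _).trans (Nat.zero_le _)
  rcases lt_or_ge D (2 * δ - 1) with hk2 | hk2
  swap
  · rw [fro_zero K (k + 3) r δ d (by omega) hd f hf (2 * δ - 1) (by omega) htop' D hk2]
    exact hilb_zero_of_top f D (ik_top_mono f _ D hk2 htop')
  have hl : ∀ i, D < 2 * d i := fun i => by have := hd i; omega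
  rcases hD with hD | hD | hD | hD
  · omega
  · omega
  · exact hilb_eq K (k + 3) r D d (by omega) hl f hf ((min_le_left _ _).trans (hI (by omega) hD))
  · exact hilb_eq K (k + 3) r D d (by omega) hl f hf ((min_le_right _ _).trans
      (hJ hD (by omega)))

/-- The arithmetic of the exceptional degrees for equal degrees. -/
theorem window (j : ℕ) (r δ : ℕ) (u : ℝ) (hu0 : 3 ≤ u) (hδ : 1 ≤ δ) :
    ∃ k₀ : ℕ, ∀ k : ℕ, (k < k₀ ∨ (k₀ : ℝ) + (j + 1) + (2 * j + 1) / (u - 1) < k) →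
      (u * (k + 1 - δ + j + 1) + j < k ∨ (k : ℝ) < u * (k + 1 - δ)) := by
  classical
  have hδR : (1 : ℝ) ≤ δ := by exact_mod_cast hδ
  have hex : ∃ k : ℕ, (k : ℝ) ≤ u * (k + 1 - δ + j + 1) + j := by
    refine ⟨2 * δ, ?_⟩
    push_cast
    have hj : (0 : ℝ) ≤ j := Nat.cast_nonneg j
    have h1 : 3 * ((2 : ℝ) * δ + 1 - δ + j + 1) ≤ u * (2 * δ + 1 - δ + j + 1) :=
      mul_le_mul_of_nonneg_right hu0 (by linarith)
    linarith
  obtain ⟨k₀, hk₀, hmin⟩ : ∃ k₀ : ℕ, (k₀ : ℝ) ≤ u * (k₀ + 1 - δ + j + 1) + j ∧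
      ∀ k < k₀, ¬ (k : ℝ) ≤ u * (k + 1 - δ + j + 1) + j :=
    ⟨Nat.find hex, Nat.find_spec hex, fun k hk => Nat.find_min hex hk⟩
  refine ⟨k₀, fun k hk => ?_⟩
  rcases hk with hk | hk
  · left
    have := hmin k hk
    push Not at this
    exact this
  · right
    by_contra hcon
    push Not at hcon
    have hu1 : 0 < u - 1 := by linarith
    have h2 : (u - 1) * ((k₀ : ℝ) + (j + 1) + (2 * j + 1) / (u - 1)) < (u - 1) * k :=
      mul_lt_mul_of_pos_left hk hu1
    have h3 : (u - 1) * ((2 * (j : ℝ) + 1) / (u - 1)) = 2 * j + 1 := by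
      field_simp
    have h4 : (u - 1) * ((k₀ : ℝ) + (j + 1) + (2 * j + 1) / (u - 1)) =
        (u - 1) * (k₀ + (j + 1)) + (2 * j + 1) := by rw [mul_add, h3]
    rw [h4] at h2
    nlinarith

/-- Equal degrees. -/
theorem fam_eq (j : ℕ) (K : Type) [Field K] [CharZero K] (r δ : ℕ) (u : ℝ)
    (hu0 : 3 ≤ u) (hu : u ^ (j + 2) = r) (hδ : 1 ≤ δ) {τ : Type}
    (φ : Io (j + 3) (fun _ : Fin r => δ) → MvPolynomial τ ℤ) (hφ : Pows (fun _ : Fin r => δ) φ) :
    ∃ k₀ : ℕ, ∃ P : MvPolynomial τ K, P ≠ 0 ∧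
      ∀ (t : τ → K) (f : Fin r → MvPolynomial (Fin (j + 3)) K), (∀ i, (f i).IsHomogeneous δ) →
        (∀ s : Io (j + 3) (fun _ : Fin r => δ), (f s.1).coeff s.2.1 = aeval t (φ s)) →
        MvPolynomial.eval t P ≠ 0 →
        ∀ k : ℕ, (u * (k + 1 - δ + j + 1) + j < k ∨ (k : ℝ) < u * (k + 1 - δ) ∨
            k < k₀ ∨ (k₀ : ℝ) + (j + 1) + (2 * j + 1) / (u - 1) < k) →
          hilb f k = fro (j + 3) (fun _ : Fin r => δ) k := by
  classical
  have hδR : (1 : ℝ) ≤ δ := by exact_mod_cast hδ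
  have hup : 0 < u := by linarith
  have htop : u ^ (j + 1) * (2 * δ - 1) < ∑ _i : Fin r, ((2 * δ - δ : ℕ) : ℝ) := by
    have e : 2 * δ - δ = δ := by omega
    rw [e, Finset.sum_const, Finset.card_univ, Fintype.card_fin, nsmul_eq_mul, ← hu]
    have h3 : u ^ (j + 2) * (δ : ℝ) = u ^ (j + 1) * (u * δ) := by ring
    rw [h3]
    refine mul_lt_mul_of_pos_left ?_ (by positivity)
    have h4 : 3 * (δ : ℝ) ≤ u * δ := mul_le_mul_of_nonneg_right hu0 (by linarith)
    linarith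
  obtain ⟨P, hP, hP2⟩ := fam_all j K r u hu0 hu (fun _ => δ) φ hφ δ hδ (fun _ => le_rfl) htop
  obtain ⟨k₀, hk₀⟩ := window j r δ u hu0 hδ
  refine ⟨k₀, P, hP, fun t f hf hfc hfP k hk => ?_⟩
  have hmain := (hP2 t f hf hfc hfP k).2.2
  have hAB : u * (k + 1 - δ + j + 1) + j < k ∨ (k : ℝ) < u * (k + 1 - δ) := by
    rcases hk with h | h | h | h
    · exact Or.inl h
    · exact Or.inr h
    · exact hk₀ k (Or.inl h)
    · exact hk₀ k (Or.inr h)
  rcases hAB with h | h
  · exact hmain (Or.inr (Or.inr (Or.inl h)))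
  · refine hmain (Or.inr (Or.inr (Or.inr ?_)))
    rw [Finset.sum_const, Finset.card_univ, Fintype.card_fin, nsmul_eq_mul, ← hu]
    have h3 : (k : ℝ) + 1 - δ ≤ ((k + 1 - δ : ℕ) : ℝ) := by
      rcases le_total δ (k + 1) with h | h
      · rw [Nat.cast_sub h]
        push_cast
        linarith
      · have : ((k + 1 : ℕ) : ℝ) ≤ (δ : ℝ) := by exact_mod_cast h
        push_cast at this
        have h0 : (0 : ℝ) ≤ ((k + 1 - δ : ℕ) : ℝ) := Nat.cast_nonneg _
        linarith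
    calc u ^ (j + 1) * (k : ℝ) < u ^ (j + 1) * (u * ((k : ℝ) + 1 - δ)) :=
          mul_lt_mul_of_pos_left h (by positivity)
      _ ≤ u ^ (j + 1) * (u * ((k + 1 - δ : ℕ) : ℝ)) :=
          mul_le_mul_of_nonneg_left (mul_le_mul_of_nonneg_left h3 hup.le) (by positivity)
      _ = _ := by ring

end Pool.Agent.TH176.RK
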