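import Pool.Agent.TH176.RK.Fam

/-!
Ideals generated by powers of linear forms and by powers of generic forms.
-/

set_option autoImplicit false

namespace Pool.Agent.TH176.RK

open MvPolynomial Finset Pool.Agent.TH206.Fro Pool.Agent.TH176.FB

/-- The generic linear forms. -/
noncomputable def gl (n r : ℕ) (i : Fin r) :
    MvPolynomial (Fin n) (MvPolynomial (Fin r × Fin n) ℤ) :=
  ∑ j, C (X (i, j)) * X j

lemma map_gl {n r : ℕ} {F : Type} [Field F] (t : Fin r × Fin n → F) (i : Fin r) :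
    map (aeval t : MvPolynomial (Fin r × Fin n) ℤ →ₐ[ℤ] F).toRingHom (gl n r i) =
      lf (fun j => t (i, j)) := by
  unfold gl lf
  rw [map_sum]
  refine Finset.sum_congr rfl fun j _ => ?_
  rw [map_mul, map_C, map_X]
  congr 2
  exact aeval_X t (i, j)

/-- The coefficients of the powers. -/
noncomputable def phiL (n : ℕ) {r : ℕ} (d : Fin r → ℕ) (s : Io n d) :
    MvPolynomial (Fin r × Fin n) ℤ :=
  coeff s.2.1 (gl n r s.1 ^ d s.1)

lemma aeval_phiL {n r : ℕ} (d : Fin r → ℕ) {F : Type} [Field F] (t : Fin r × Fin n → F)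
    (s : Io n d) : (lf (fun j => t (s.1, j)) ^ d s.1).coeff s.2.1 = aeval t (phiL n d s) := by
  have h : aeval t (phiL n d s) = coeff s.2.1
      (map (aeval t : MvPolynomial (Fin r × Fin n) ℤ →ₐ[ℤ] F).toRingHom (gl n r s.1 ^ d s.1)) := by
    rw [coeff_map]
    rfl
  rw [h, map_pow, map_gl]

theorem pows_phiL {n r : ℕ} (d : Fin r → ℕ) : Pows d (phiL n d) := by
  intro L _ _ p
  refine ⟨fun q : Fin r × Fin n => p q.1 q.2, fun s => ?_⟩
  rw [← aeval_phiL d (fun q : Fin r × Fin n => p q.1 q.2) s]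

/-- The generic forms of degree `a`. -/
noncomputable def gf (n r a : ℕ) (i : Fin r) :
    MvPolynomial (Fin n) (MvPolynomial (Io n (fun _ : Fin r => a)) ℤ) := by
  classical
  exact ∑ m ∈ (Mon n a).attach, monomial m.1 (X ⟨i, ⟨m.1, mem_Mon'.1 m.2⟩⟩)

lemma coeff_sum_mon' {n a : ℕ} {R : Type} [CommRing R] (c : {m // m ∈ Mon n a} → R)
    (m : Fin n →₀ ℕ) :
    coeff m (∑ q ∈ (Mon n a).attach, monomial q.1 (c q)) =
      if h : m ∈ Mon n a then c ⟨m, h⟩ else 0 := by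
  classical
  rw [coeff_sum]
  simp only [coeff_monomial]
  split_ifs with h
  · rw [Finset.sum_eq_single (⟨m, h⟩ : {m // m ∈ Mon n a})]
    · rw [if_pos rfl]
    · intro s _ hs
      rw [if_neg]
      intro h'
      exact hs (Subtype.ext h')
    · intro h'
      exact absurd (Finset.mem_attach _ _) h'
  · refine Finset.sum_eq_zero fun s _ => ?_
    rw [if_neg]
    rintro rfl
    exact h s.2

lemma map_gf {n r a : ℕ} {F : Type} [Field F] (g : Fin r → MvPolynomial (Fin n) F)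
    (hg : ∀ i, (g i).IsHomogeneous a) (i : Fin r) :
    map (aeval (fun s : Io n (fun _ : Fin r => a) => (g s.1).coeff s.2.1) :
      MvPolynomial (Io n (fun _ : Fin r => a)) ℤ →ₐ[ℤ] F).toRingHom (gf n r a i) = g i := by
  classical
  ext m
  rw [coeff_map]
  unfold gf
  rw [coeff_sum_mon']
  split_ifs with h
  · exact aeval_X _ _
  · rw [map_zero]
    symm
    exact (hg i).coeff_eq_zero fun h' => h (mem_Mon'.2 h')

/-- The coefficients of the powers of the generic forms. -/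
noncomputable def phiF (n r a e : ℕ) (s : Io n (fun _ : Fin r => a * e)) :
    MvPolynomial (Io n (fun _ : Fin r => a)) ℤ :=
  coeff s.2.1 (gf n r a s.1 ^ e)

lemma aeval_phiF {n r a e : ℕ} {F : Type} [Field F] (g : Fin r → MvPolynomial (Fin n) F)
    (hg : ∀ i, (g i).IsHomogeneous a) (s : Io n (fun _ : Fin r => a * e)) :
    (g s.1 ^ e).coeff s.2.1 =
      aeval (fun s : Io n (fun _ : Fin r => a) => (g s.1).coeff s.2.1) (phiF n r a e s) := by
  have h : aeval (fun s : Io n (fun _ : Fin r => a) => (g s.1).coeff s.2.1) (phiF n r a e s) =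
      coeff s.2.1 (map (aeval (fun s : Io n (fun _ : Fin r => a) => (g s.1).coeff s.2.1) :
      MvPolynomial (Io n (fun _ : Fin r => a)) ℤ →ₐ[ℤ] F).toRingHom (gf n r a s.1 ^ e)) := by
    rw [coeff_map]
    rfl
  rw [h, map_pow, map_gf g hg]

theorem pows_phiF {n r : ℕ} (a e : ℕ) : Pows (fun _ : Fin r => a * e) (phiF n r a e) := by
  intro L _ _ p
  have hg : ∀ i, (lf (p i) ^ a).IsHomogeneous a := fun i => by
    have h := (lf_hom (p i)).pow a
    rwa [one_mul] at h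
  refine ⟨fun s => ((fun i => lf (p i) ^ a) s.1).coeff s.2.1, fun s => ?_⟩
  rw [← aeval_phiF (fun i => lf (p i) ^ a) hg s]
  rw [pow_mul]

/-- Power ideals. -/
theorem pow_lin (j : ℕ) (K : Type) [Field K] [CharZero K] (r d : ℕ) (u : ℝ)
    (hu0 : 3 ≤ u) (hu : u ^ (j + 2) = r) (hd : 1 ≤ d) :
    ∃ k₀ : ℕ, ∃ P : MvPolynomial (Fin r × Fin (j + 3)) K, P ≠ 0 ∧
      ∀ t : Fin r × Fin (j + 3) → K, MvPolynomial.eval t P ≠ 0 →
        ∀ k : ℕ, (u * (k + 1 - d + j + 1) + j < k ∨ (k : ℝ) < u * (k + 1 - d) ∨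
            k < k₀ ∨ (k₀ : ℝ) + (j + 1) + (2 * j + 1) / (u - 1) < k) →
          hilb (fun i : Fin r => lf (fun l => t (i, l)) ^ d) k =
            fro (j + 3) (fun _ : Fin r => d) k := by
  obtain ⟨k₀, P, hP, hP2⟩ := fam_eq j K r d u hu0 hu hd (phiL (j + 3) (fun _ : Fin r => d))
    (pows_phiL _)
  refine ⟨k₀, P, hP, fun t ht k hk => hP2 t _ (fun i => ?_) (fun s => aeval_phiL _ t s) ht k hk⟩
  have h := (lf_hom (fun l => t (i, l))).pow d
  rwa [one_mul] at h

/-- Powers of generic forms. -/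
theorem pow_forms (j : ℕ) (K : Type) [Field K] [CharZero K] (r a e : ℕ) (u : ℝ)
    (hu0 : 3 ≤ u) (hu : u ^ (j + 2) = r) (ha : 1 ≤ a) (he : 1 ≤ e) :
    ∃ k₀ : ℕ, ∃ P : MvPolynomial (Io (j + 3) (fun _ : Fin r => a)) K, P ≠ 0 ∧
      ∀ g : Fin r → MvPolynomial (Fin (j + 3)) K, (∀ i, (g i).IsHomogeneous a) →
        MvPolynomial.eval (fun s : Io (j + 3) (fun _ : Fin r => a) => (g s.1).coeff s.2.1) P ≠ 0 →
        ∀ k : ℕ, (u * (k + 1 - (a * e : ℕ) + j + 1) + j < k ∨
            (k : ℝ) < u * (k + 1 - (a * e : ℕ)) ∨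
            k < k₀ ∨ (k₀ : ℝ) + (j + 1) + (2 * j + 1) / (u - 1) < k) →
          hilb (fun i : Fin r => g i ^ e) k = fro (j + 3) (fun _ : Fin r => a * e) k := by
  obtain ⟨k₀, P, hP, hP2⟩ := fam_eq j K r (a * e) u hu0 hu (Nat.mul_pos ha he)
    (phiF (j + 3) r a e) (pows_phiF a e)
  refine ⟨k₀, P, hP, fun g hg ht k hk => hP2 _ _ (fun i => (hg i).pow e)
    (fun s => aeval_phiF g hg s) ht k hk⟩

end Pool.Agent.TH176.RK
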