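import Pool.Agent.TH176.RK.Fam2

/-!
Powers of generic forms: the Hilbert function is the least possible outside the exceptional degrees.
-/

set_option autoImplicit false

namespace Pool.Agent.TH176.RK

open MvPolynomial Finset Pool.Agent.TH206.Fro Pool.Agent.TH176.FB

/-- Equal degrees, the rank is as large as possible. -/
theorem fam_max (j : ℕ) (K : Type) [Field K] [CharZero K] (r δ : ℕ) (u : ℝ)
    (hu0 : 3 ≤ u) (hu : u ^ (j + 2) = r) (hδ : 1 ≤ δ) {τ : Type}
    (φ : Io (j + 3) (fun _ : Fin r => δ) → MvPolynomial τ ℤ) (hφ : Pows (fun _ : Fin r => δ) φ) :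
    ∃ k₀ : ℕ, ∃ P : MvPolynomial τ K, P ≠ 0 ∧
      ∀ (t : τ → K) (f : Fin r → MvPolynomial (Fin (j + 3)) K), (∀ i, (f i).IsHomogeneous δ) →
        (∀ s : Io (j + 3) (fun _ : Fin r => δ), (f s.1).coeff s.2.1 = aeval t (φ s)) →
        MvPolynomial.eval t P ≠ 0 →
        ∀ k : ℕ, (u * (k + 1 - δ + j + 1) + j < k ∨ (k : ℝ) < u * (k + 1 - δ) ∨
            k < k₀ ∨ (k₀ : ℝ) + (j + 1) + (2 * j + 1) / (u - 1) < k) →
          ∀ f' : Fin r → MvPolynomial (Fin (j + 3)) K, (∀ i, (f' i).IsHomogeneous δ) →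
            Module.finrank K (ik f' k) ≤ Module.finrank K (ik f k) := by
  classical
  have hδR : (1 : ℝ) ≤ δ := by exact_mod_cast hδ
  have hup : 0 < u := by linarith
  have htop : u ^ (j + 1) * (2 * δ - 1) < ∑ _i : Fin r, ((2 * δ - δ : ℕ) : ℝ) := by
    have e : 2 * δ - δ = δ := by omega
    rw [e, Finset.sum_const, Finset.card_univ, Fintype.card_fin, nsmul_eq_mul, ← hu]
    have h3 : u ^ (j + 2) * (δ : ℝ) = u ^ (j + 1) * (u * δ) := by ring
    rw [h3]
    refine mul_lt_mul_of_pos_left ?_ (by positivity)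
    have h4 : 3 * (δ : ℝ) ≤ u * δ := mul_le_mul_of_nonneg_right hu0 (by linarith)
    linarith
  obtain ⟨P, hP, hP2⟩ := fam_all j K r u hu0 hu (fun _ => δ) φ hφ δ hδ (fun _ => le_rfl) htop
  obtain ⟨k₀, hk₀⟩ := window j r δ u hu0 hδ
  refine ⟨k₀, P, hP, fun t f hf hfc hfP k hk f' hf' => ?_⟩
  have hmain := fun D => hP2 t f hf hfc hfP D
  have hle := finrank_ik_le K (j + 3) r k (fun _ => δ) f' hf'
  have hAB : u * (k + 1 - δ + j + 1) + j < k ∨ (k : ℝ) < u * (k + 1 - δ) := by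
    rcases hk with h | h | h | h
    · exact Or.inl h
    · exact Or.inr h
    · exact hk₀ k (Or.inl h)
    · exact hk₀ k (Or.inr h)
  rcases lt_or_ge k (2 * δ) with hk2 | hk2
  · rcases hAB with h | h
    · exact (hle.trans (min_le_left _ _)).trans ((hmain k).1 hk2 h)
    · refine (hle.trans (min_le_right _ _)).trans ((hmain k).2.1 ?_ hk2)
      rw [Finset.sum_const, Finset.card_univ, Fintype.card_fin, nsmul_eq_mul, ← hu]
      have h3 : (k : ℝ) + 1 - δ ≤ ((k + 1 - δ : ℕ) : ℝ) := by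
        rcases le_total δ (k + 1) with h | h
        · rw [Nat.cast_sub h]
          push_cast
          linarith
        · have : ((k + 1 : ℕ) : ℝ) ≤ (δ : ℝ) := by exact_mod_cast h
          push_cast at this
          have h0 : (0 : ℝ) ≤ ((k + 1 - δ : ℕ) : ℝ) := Nat.cast_nonneg _
          linarith
      calc u ^ (j + 1) * (k : ℝ) < u ^ (j + 1) * (u * ((k : ℝ) + 1 - δ)) :=
            mul_lt_mul_of_pos_left h (by positivity)
        _ ≤ u ^ (j + 1) * (u * ((k + 1 - δ : ℕ) : ℝ)) :=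
            mul_le_mul_of_nonneg_left (mul_le_mul_of_nonneg_left h3 hup.le) (by positivity)
        _ = _ := by ring
  · have htop' : homogeneousSubmodule (Fin (j + 3)) K (2 * δ - 1) ≤ ik f (2 * δ - 1) := by
      refine ik_top_of_card f _ ((hmain (2 * δ - 1)).2.1 ?_ (by omega))
      have e1 : 2 * δ - 1 + 1 - δ = 2 * δ - δ := by omega
      simp only [e1]
      rw [Nat.cast_sub (by omega)]
      push_cast
      exact htop
    have h1 := ik_top_mono f (2 * δ - 1) k (by omega) htop'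
    have h2 : ik f' k ≤ ik f k := le_trans inf_le_right h1
    haveI : FiniteDimensional K (ik f k) :=
      Submodule.finiteDimensional_of_le (S₂ := homogeneousSubmodule (Fin (j + 3)) K k) inf_le_right
    exact Submodule.finrank_mono h2

/-- Powers of generic forms: least possible Hilbert function. -/
theorem pow_forms_min (j : ℕ) (K : Type) [Field K] [CharZero K] (r a e : ℕ) (u : ℝ)
    (hu0 : 3 ≤ u) (hu : u ^ (j + 2) = r) (ha : 1 ≤ a) (he : 1 ≤ e) :
    ∃ k₀ : ℕ, ∃ P : MvPolynomial (Io (j + 3) (fun _ : Fin r => a)) K, P ≠ 0 ∧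
      ∀ g : Fin r → MvPolynomial (Fin (j + 3)) K, (∀ i, (g i).IsHomogeneous a) →
        MvPolynomial.eval (fun s : Io (j + 3) (fun _ : Fin r => a) => (g s.1).coeff s.2.1) P ≠ 0 →
        ∀ k : ℕ, (u * (k + 1 - (a * e : ℕ) + j + 1) + j < k ∨
            (k : ℝ) < u * (k + 1 - (a * e : ℕ)) ∨
            k < k₀ ∨ (k₀ : ℝ) + (j + 1) + (2 * j + 1) / (u - 1) < k) →
          ∀ f : Fin r → MvPolynomial (Fin (j + 3)) K, (∀ i, (f i).IsHomogeneous (a * e)) →
            hilb (fun i : Fin r => g i ^ e) k ≤ hilb f k := by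
  obtain ⟨k₀, P, hP, hP2⟩ := fam_max j K r (a * e) u hu0 hu (Nat.mul_pos ha he)
    (phiF (j + 3) r a e) (pows_phiF a e)
  refine ⟨k₀, P, hP, fun g hg ht k hk f hf => ?_⟩
  have h := hP2 _ _ (fun i => (hg i).pow e) (fun s => aeval_phiF g hg s) ht k hk f hf
  unfold hilb
  unfold ik at h
  omega

end Pool.Agent.TH176.RK
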