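import Pool.Agent.TH176.RK.Comb
import Pool.Agent.TH176.FB.Big2

/-!
The formula of Froeberg for at least `3 ^ (n - 1)` forms in `n` variables.
-/

set_option autoImplicit false

namespace Pool.Agent.TH176.RK

open MvPolynomial Finset Pool.Agent.TH206.Fro Pool.Agent.TH176.FB

/-- One degree, injectivity. -/
theorem ind_each (k : ℕ) (K : Type) [Field K] [CharZero K] (r : ℕ) (u : ℝ) (hu0 : 3 ≤ u)
    (hu : u ^ (k + 2) = r) (d : Fin r → ℕ) (D W : ℕ) (hw : ∀ i, D + 1 - d i ≤ W)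
    (h : u * (W + k + 1) + k < D) :
    ∃ P : MvPolynomial (Io (k + 3) d) K, P ≠ 0 ∧
      ∀ f : Fin r → MvPolynomial (Fin (k + 3)) K, (∀ i, (f i).IsHomogeneous (d i)) →
        MvPolynomial.eval (fun s : Io (k + 3) d => (f s.1).coeff s.2.1) P ≠ 0 →
        Fintype.card (Ro (k + 3) D d) ≤ Module.finrank K (ik f D) := by
  classical
  obtain ⟨L, _, _, p, hp⟩ := fat_ind k r D W (fun i => D + 1 - d i) u hu0 hu hw h
  have h1 := emsalem_iarrobino D d p
  rw [dim_thm (k + 3) D L, card_Mon_choose (k + 2) D] at h1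
  have hRo := card_Ro_choose (k + 2) r D d (by omega)
  obtain ⟨P, hP, hP2⟩ := spec' K L (k + 3) r D d (fun i => lf (p i) ^ d i) (fun i => by
    have h := (lf_hom (p i)).pow (d i)
    rwa [one_mul] at h)
  refine ⟨P, hP, fun f hf hfP => le_trans ?_ (hP2 f hf hfP)⟩
  rw [hRo]
  have e1 : ∀ i : Fin r, D + 1 - d i + (k + 2 - 1) = D + 1 - d i + (k + 1) := fun i => by omega
  simp only [e1]
  omega

/-- One degree, surjectivity. -/
theorem emp_each (k : ℕ) (K : Type) [Field K] [CharZero K] (r : ℕ) (u : ℝ) (hu0 : 3 ≤ u)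
    (hu : u ^ (k + 2) = r) (d : Fin r → ℕ) (D : ℕ)
    (h : u ^ (k + 1) * D < ∑ i, ((D + 1 - d i : ℕ) : ℝ)) :
    ∃ P : MvPolynomial (Io (k + 3) d) K, P ≠ 0 ∧
      ∀ f : Fin r → MvPolynomial (Fin (k + 3)) K, (∀ i, (f i).IsHomogeneous (d i)) →
        MvPolynomial.eval (fun s : Io (k + 3) d => (f s.1).coeff s.2.1) P ≠ 0 →
        (Mon (k + 3) D).card ≤ Module.finrank K (ik f D) := by
  classical
  obtain ⟨L, _, _, p, hp⟩ := fat_empty k r D (fun i => D + 1 - d i) u hu0 hu h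
  have h1 := emsalem_iarrobino D d p
  rw [dim_thm (k + 3) D L, hp, finrank_bot, add_zero] at h1
  obtain ⟨P, hP, hP2⟩ := spec' K L (k + 3) r D d (fun i => lf (p i) ^ d i) (fun i => by
    have h := (lf_hom (p i)).pow (d i)
    rwa [one_mul] at h)
  refine ⟨P, hP, fun f hf hfP => le_trans ?_ (hP2 f hf hfP)⟩
  exact h1.ge

/-- Arbitrary degrees. -/
theorem fro_all (k : ℕ) (K : Type) [Field K] [CharZero K] (r : ℕ) (u : ℝ) (hu0 : 3 ≤ u)
    (hu : u ^ (k + 2) = r) (d : Fin r → ℕ) (δ : ℕ) (hδ : 1 ≤ δ) (hd : ∀ i, δ ≤ d i)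
    (htop : u ^ (k + 1) * (2 * δ - 1) < ∑ i, ((2 * δ - d i : ℕ) : ℝ)) :
    ∃ P : MvPolynomial (Io (k + 3) d) K, P ≠ 0 ∧
      ∀ f : Fin r → MvPolynomial (Fin (k + 3)) K, (∀ i, (f i).IsHomogeneous (d i)) →
        MvPolynomial.eval (fun s : Io (k + 3) d => (f s.1).coeff s.2.1) P ≠ 0 →
        ∀ D : ℕ, (D < δ ∨ 2 * δ - 1 ≤ D ∨ u * (D + 1 - δ + k + 1) + k < D ∨
            u ^ (k + 1) * D < ∑ i, ((D + 1 - d i : ℕ) : ℝ) ∨
            (∀ i, d i ≤ D → Cond (k + 3) (D - d i) (d i))) →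
          hilb f D = fro (k + 3) d D := by
  classical
  -- one degree
  have hA : ∀ D : ℕ, ∃ P : MvPolynomial (Io (k + 3) d) K, P ≠ 0 ∧
      ∀ f : Fin r → MvPolynomial (Fin (k + 3)) K, (∀ i, (f i).IsHomogeneous (d i)) →
        MvPolynomial.eval (fun s : Io (k + 3) d => (f s.1).coeff s.2.1) P ≠ 0 →
        u * (((D + 1 - δ : ℕ) : ℝ) + k + 1) + k < D →
          Fintype.card (Ro (k + 3) D d) ≤ Module.finrank K (ik f D) := by
    intro D
    by_cases h : u * (((D + 1 - δ : ℕ) : ℝ) + k + 1) + k < D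
    · obtain ⟨P, hP, hP2⟩ := ind_each k K r u hu0 hu d D (D + 1 - δ)
        (fun i => by have := hd i; omega) h
      exact ⟨P, hP, fun f hf hfP _ => hP2 f hf hfP⟩
    · exact ⟨1, one_ne_zero, fun f _ _ h' => absurd h' h⟩
  have hB : ∀ D : ℕ, ∃ P : MvPolynomial (Io (k + 3) d) K, P ≠ 0 ∧
      ∀ f : Fin r → MvPolynomial (Fin (k + 3)) K, (∀ i, (f i).IsHomogeneous (d i)) →
        MvPolynomial.eval (fun s : Io (k + 3) d => (f s.1).coeff s.2.1) P ≠ 0 →
        u ^ (k + 1) * D < ∑ i, ((D + 1 - d i : ℕ) : ℝ) →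
          (Mon (k + 3) D).card ≤ Module.finrank K (ik f D) := by
    intro D
    by_cases h : u ^ (k + 1) * D < ∑ i, ((D + 1 - d i : ℕ) : ℝ)
    · obtain ⟨P, hP, hP2⟩ := emp_each k K r u hu0 hu d D h
      exact ⟨P, hP, fun f hf hfP _ => hP2 f hf hfP⟩
    · exact ⟨1, one_ne_zero, fun f _ _ h' => absurd h' h⟩
  have hC : ∀ D : ℕ, ∃ P : MvPolynomial (Io (k + 3) d) K, P ≠ 0 ∧
      ∀ f : Fin r → MvPolynomial (Fin (k + 3)) K, (∀ i, (f i).IsHomogeneous (d i)) →
        MvPolynomial.eval (fun s : Io (k + 3) d => (f s.1).coeff s.2.1) P ≠ 0 →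
        (D < 2 * δ ∧ ∀ i, d i ≤ D → Cond (k + 3) (D - d i) (d i)) →
          hilb f D = fro (k + 3) d D := by
    intro D
    by_cases h : D < 2 * δ ∧ ∀ i, d i ≤ D → Cond (k + 3) (D - d i) (d i)
    · obtain ⟨P, hP, hP2⟩ := Pool.Agent.TH206.Fro.final K (k + 3) r D d (by omega)
        (fun i => by have := hd i; omega) (fun i hi => h.2 i hi)
      exact ⟨P, hP, fun f hf hfP _ => hP2 f hf hfP D le_rfl⟩
    · exact ⟨1, one_ne_zero, fun f _ _ h' => absurd h' h⟩
  choose P1 hP1 hP1' using hA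
  choose P2 hP2 hP2' using hB
  choose P3 hP3 hP3' using hC
  refine ⟨∏ D ∈ Finset.range (2 * δ), (P1 D * P2 D * P3 D), Finset.prod_ne_zero_iff.2
    fun D _ => mul_ne_zero (mul_ne_zero (hP1 D) (hP2 D)) (hP3 D), fun f hf hfP => ?_⟩
  rw [map_prod, Finset.prod_ne_zero_iff] at hfP
  have hfD : ∀ D < 2 * δ,
      MvPolynomial.eval (fun s : Io (k + 3) d => (f s.1).coeff s.2.1) (P1 D) ≠ 0 ∧
      MvPolynomial.eval (fun s : Io (k + 3) d => (f s.1).coeff s.2.1) (P2 D) ≠ 0 ∧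
      MvPolynomial.eval (fun s : Io (k + 3) d => (f s.1).coeff s.2.1) (P3 D) ≠ 0 := by
    intro D hD
    have h := hfP D (Finset.mem_range.2 hD)
    rw [map_mul, map_mul] at h
    exact ⟨left_ne_zero_of_mul (left_ne_zero_of_mul h), right_ne_zero_of_mul
      (left_ne_zero_of_mul h), right_ne_zero_of_mul h⟩
  -- the degree `2 δ - 1`
  have htop' : homogeneousSubmodule (Fin (k + 3)) K (2 * δ - 1) ≤ ik f (2 * δ - 1) := by
    refine ik_top_of_card f _ (hP2' (2 * δ - 1) f hf (hfD _ (by omega)).2.1 ?_)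
    have e1 : ∀ i, 2 * δ - 1 + 1 - d i = 2 * δ - d i := fun i => by omega
    simp only [e1]
    rw [Nat.cast_sub (by omega)]
    push_cast
    exact htop
  intro D hD
  rcases lt_or_ge D δ with hk1 | hk1
  · refine hilb_eq K (k + 3) r D d (by omega) (fun i => by have := hd i; omega) f hf ?_
    have h1 : Fintype.card (Ro (k + 3) D d) = 0 := by
      rw [card_Ro]
      refine Finset.sum_eq_zero fun i _ => if_neg ?_
      have := hd i
      omega
    rw [h1]
    exact (min_le_left _ _).trans (Nat.zero_le _)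
  rcases lt_or_ge D (2 * δ - 1) with hk2 | hk2
  swap
  · rw [fro_zero K (k + 3) r δ d (by omega) hd f hf (2 * δ - 1) (by omega) htop' D hk2]
    exact hilb_zero_of_top f D (ik_top_mono f _ D hk2 htop')
  have hl : ∀ i, D < 2 * d i := fun i => by have := hd i; omega
  rcases hD with hD | hD | hD | hD | hD
  · omega
  · omega
  · refine hilb_eq K (k + 3) r D d (by omega) hl f hf ((min_le_left _ _).trans
      (hP1' D f hf (hfD D (by omega)).1 ?_))
    rw [Nat.cast_sub (by omega)]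
    push_cast
    exact hD
  · exact hilb_eq K (k + 3) r D d (by omega) hl f hf ((min_le_right _ _).trans
      (hP2' D f hf (hfD D (by omega)).2.1 hD))
  · exact hP3' D f hf (hfD D (by omega)).2.2 ⟨by omega, hD⟩

end Pool.Agent.TH176.RK
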