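import Pool.Agent.TH176.RK.Fro

/-!
The formula of Froeberg for at least `3 ^ (n - 1)` forms in `n` variables: the exceptional degrees.
-/

set_option autoImplicit false

namespace Pool.Agent.TH176.RK

open MvPolynomial Finset Pool.Agent.TH206.Fro Pool.Agent.TH176.FB

namespace FroTwo

/-- Comparison of rising factorials. -/
lemma asc_le {m : ℕ} {v D : ℝ} (hm : 1 ≤ m) (hv : 0 ≤ v) (h : v * m ≤ D) (p : ℕ) :
    v ^ p * ((m + 1).ascFactorial p : ℝ) ≤ (p + 1).factorial * D ^ p := by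
  have hmR : (1 : ℝ) ≤ m := by exact_mod_cast hm
  have hD : 0 ≤ D := le_trans (by positivity) h
  induction p with
  | zero => simp
  | succ p ih =>
    rw [Nat.ascFactorial_succ, Nat.factorial_succ]
    push_cast
    have h1 : v * ((m : ℝ) + 1 + p) ≤ (p + 2) * D := by
      have h2 : v * ((m : ℝ) + 1 + p) ≤ v * (m * (p + 2)) := by
        refine mul_le_mul_of_nonneg_left ?_ hv
        have : (0 : ℝ) ≤ ((m : ℝ) - 1) * (p + 1) := mul_nonneg (by linarith) (by positivity)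
        nlinarith
      have h3 : v * m * ((p : ℝ) + 2) ≤ D * (p + 2) :=
        mul_le_mul_of_nonneg_right h (by positivity)
      linarith
    calc v ^ (p + 1) * (((m : ℝ) + 1 + p) * ((m + 1).ascFactorial p : ℝ)) =
          (v * ((m : ℝ) + 1 + p)) * (v ^ p * ((m + 1).ascFactorial p : ℝ)) := by ring
      _ ≤ ((p + 2) * D) * ((p + 1).factorial * D ^ p) :=
          mul_le_mul h1 ih (by positivity) (by positivity)
      _ = _ := by
          rw [Nat.factorial_succ]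
          push_cast
          ring

lemma le_asc (δ p : ℕ) : (δ : ℝ) ^ p ≤ ((δ + 1).ascFactorial p : ℝ) := by
  have h : δ ^ p ≤ (δ + 1).ascFactorial p :=
    (Nat.pow_le_pow_left (Nat.le_succ δ) p).trans (Nat.pow_succ_le_ascFactorial _ _)
  exact_mod_cast h

/-- The condition for the small degrees. -/
lemma cond {j m δ a : ℕ} {u D : ℝ} (hm : 1 ≤ m) (hu : 1 < u) (h : (u - 1) * m ≤ D)
    (ha : δ ≤ a)
    (hD : 2 * (j + 2).factorial * D ^ (j + 3) ≤ (u - 1) ^ (j + 3) * (δ : ℝ) ^ (j + 2)) :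
    Cond (j + 3) (m - 1) a := by
  obtain ⟨e, rfl⟩ : ∃ e, m = e + 1 := ⟨m - 1, by omega⟩
  rw [Nat.add_sub_cancel]
  right
  have hv : 0 < u - 1 := by linarith
  have h1 := asc_le hm hv.le h (j + 2)
  have h2 := le_asc a (j + 2)
  have hδa : (δ : ℝ) ^ (j + 2) ≤ (a : ℝ) ^ (j + 2) :=
    pow_le_pow_left₀ (Nat.cast_nonneg _) (by exact_mod_cast ha) _
  -- the real inequality
  have h3 : 2 * (((e + 1 : ℕ) : ℝ) * ((e + 1 + 1).ascFactorial (j + 2) : ℝ)) ≤
      (j + 3) * ((a + 1).ascFactorial (j + 2) : ℝ) := by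
    refine le_of_mul_le_mul_left ?_ (pow_pos hv (j + 3))
    calc (u - 1) ^ (j + 3) * (2 * (((e + 1 : ℕ) : ℝ) * ((e + 1 + 1).ascFactorial (j + 2) : ℝ))) =
          2 * (((u - 1) * ((e + 1 : ℕ) : ℝ)) *
            ((u - 1) ^ (j + 2) * ((e + 1 + 1).ascFactorial (j + 2) : ℝ))) := by ring
      _ ≤ 2 * (D * ((j + 2 + 1).factorial * D ^ (j + 2))) := by
          refine mul_le_mul_of_nonneg_left ?_ (by norm_num)
          exact mul_le_mul h h1 (by positivity) (le_trans (by positivity) h)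
      _ = (j + 3) * (2 * (j + 2).factorial * D ^ (j + 3)) := by
          rw [Nat.factorial_succ (j + 2)]
          push_cast
          ring
      _ ≤ (j + 3) * ((u - 1) ^ (j + 3) * (δ : ℝ) ^ (j + 2)) :=
          mul_le_mul_of_nonneg_left hD (by positivity)
      _ ≤ (j + 3) * ((u - 1) ^ (j + 3) * ((a + 1).ascFactorial (j + 2) : ℝ)) := by
          refine mul_le_mul_of_nonneg_left (mul_le_mul_of_nonneg_left (hδa.trans h2) ?_) ?_ <;>
            positivity
      _ = _ := by ring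
  have h4 : 2 * ((e + 1) * (e + 1 + 1).ascFactorial (j + 2)) ≤
      (j + 3) * (a + 1).ascFactorial (j + 2) := by exact_mod_cast h3
  have h5 : (e + 1) * (e + 1 + 1).ascFactorial (j + 2) =
      (j + 3).factorial * (e + (j + 3)).choose (j + 3) := by
    rw [← Nat.ascFactorial_eq_factorial_mul_choose, Nat.succ_ascFactorial,
      ← Nat.ascFactorial_succ]
  rw [h5, Nat.ascFactorial_eq_factorial_mul_choose, Nat.factorial_succ (j + 2)] at h4
  have h6 : 2 * (e + (j + 3)).choose (j + 3) ≤ (a + (j + 2)).choose (j + 2) := by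
    have hf : 0 < (j + 3) * (j + 2).factorial := by positivity
    refine Nat.le_of_mul_le_mul_left ?_ hf
    calc (j + 3) * (j + 2).factorial * (2 * (e + (j + 3)).choose (j + 3)) =
          2 * ((j + 2 + 1) * (j + 2).factorial * (e + (j + 3)).choose (j + 3)) := by ring
      _ ≤ _ := h4
      _ = _ := by ring
  have e1 : (j + 3 + e) * (j + 3 + e - 1).choose e = (j + 3 + e).choose (j + 3) * (j + 3) := by
    have h7 : j + 3 + e - 1 = j + 2 + e := by omega
    rw [h7, ← Nat.choose_symm_of_eq_add (show j + 2 + e = (j + 2) + e by ring)]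
    have h8 := Nat.add_one_mul_choose_eq (j + 2 + e) (j + 2)
    have h9 : j + 2 + e + 1 = j + 3 + e := by omega
    rw [h9] at h8
    exact h8
  have e2 : (j + 3 + a - 1).choose a = (j + 2 + a).choose (j + 2) := by
    have h7 : j + 3 + a - 1 = j + 2 + a := by omega
    rw [h7]
    exact (Nat.choose_symm_of_eq_add (show j + 2 + a = (j + 2) + a by ring)).symm
  rw [mul_assoc, e1, e2]
  rw [add_comm e, add_comm a] at h6
  calc 2 * ((j + 3 + e).choose (j + 3) * (j + 3)) =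
        (j + 3) * (2 * (j + 3 + e).choose (j + 3)) := by ring
    _ ≤ _ := Nat.mul_le_mul_left _ h6

end FroTwo

open FroTwo in
/-- At least `3 ^ (n - 1)` forms in `n = j + 3` variables. -/
theorem fro_final (j : ℕ) (K : Type) [Field K] [CharZero K] (r δ s : ℕ) (d : Fin r → ℕ) (u : ℝ)
    (hu0 : 3 ≤ u) (hu : u ^ (j + 2) = r) (hδ : 1 ≤ δ) (hd : ∀ i, δ ≤ d i)
    (htop : (∀ i, 3 * d i ≤ 4 * δ) ∨
      u ^ (j + 1) * (2 * δ - 1) < ∑ i, ((2 * δ - d i : ℕ) : ℝ)) :
    ∃ k₀ : ℕ, ∃ P : MvPolynomial (Io (j + 3) d) K, P ≠ 0 ∧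
      ∀ f : Fin r → MvPolynomial (Fin (j + 3)) K, (∀ i, (f i).IsHomogeneous (d i)) →
        MvPolynomial.eval (fun s : Io (j + 3) d => (f s.1).coeff s.2.1) P ≠ 0 →
        ∀ k : ℕ, (u * (k + j + 2 - δ) + j < k ∨
            u ^ (j + 1) * k < ∑ i, ((k + 1 - d i : ℕ) : ℝ) ∨
            ((∀ i, d i ≤ δ + s) ∧
              (k < k₀ ∨ (k₀ : ℝ) + (j + 1 + s) + (2 * j + 1 + s) / (u - 1) < k)) ∨
            ((∀ i, d i ≤ δ + s) ∧ 2 * (j + 2).factorial * (δ - 1 + u * s) ^ (j + 3) ≤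
              (u - 1) ^ (j + 3) * (δ : ℝ) ^ (j + 2))) →
          hilb f k = fro (j + 3) d k := by
  classical
  have hδR : (1 : ℝ) ≤ δ := by exact_mod_cast hδ
  have hup : 0 < u := by linarith
  have htop' : u ^ (j + 1) * (2 * δ - 1) < ∑ i, ((2 * δ - d i : ℕ) : ℝ) := by
    rcases htop with h | h
    · have h1 : ∀ i, (2 * (δ : ℝ)) / 3 ≤ ((2 * δ - d i : ℕ) : ℝ) := by
        intro i
        have h2 := h i
        have h3 : 2 * δ ≤ 3 * (2 * δ - d i) := by omega
        have h4 : ((2 * δ : ℕ) : ℝ) ≤ ((3 * (2 * δ - d i) : ℕ) : ℝ) := by exact_mod_cast h3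
        push_cast at h4
        linarith
      have h2 : (r : ℝ) * ((2 * (δ : ℝ)) / 3) ≤ ∑ i, ((2 * δ - d i : ℕ) : ℝ) := by
        calc (r : ℝ) * ((2 * (δ : ℝ)) / 3) = ∑ _i : Fin r, (2 * (δ : ℝ)) / 3 := by simp
          _ ≤ _ := Finset.sum_le_sum fun i _ => h1 i
      refine lt_of_lt_of_le ?_ h2
      rw [← hu]
      have h3 : u ^ (j + 2) * ((2 * (δ : ℝ)) / 3) = u ^ (j + 1) * (u * (2 * δ) / 3) := by ring
      rw [h3]
      refine mul_lt_mul_of_pos_left ?_ (by positivity)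
      have h4 : 3 * (2 * (δ : ℝ)) ≤ u * (2 * δ) := mul_le_mul_of_nonneg_right hu0 (by linarith)
      linarith
    · exact h
  obtain ⟨P, hP, hP2⟩ := fro_all j K r u hu0 hu d δ hδ hd htop'
  -- the first exceptional degree
  have hex : ∃ k : ℕ, (k : ℝ) ≤ u * (k + j + 2 - δ) + j := by
    refine ⟨2 * δ, ?_⟩
    push_cast
    have hj : (0 : ℝ) ≤ j := Nat.cast_nonneg j
    have h1 : 3 * ((2 : ℝ) * δ + j + 2 - δ) ≤ u * (2 * δ + j + 2 - δ) :=
      mul_le_mul_of_nonneg_right hu0 (by linarith)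
    linarith
  obtain ⟨k₀, hk₀, hmin⟩ : ∃ k₀ : ℕ, (k₀ : ℝ) ≤ u * (k₀ + j + 2 - δ) + j ∧
      ∀ k < k₀, ¬ (k : ℝ) ≤ u * (k + j + 2 - δ) + j :=
    ⟨Nat.find hex, Nat.find_spec hex, fun k hk => Nat.find_min hex hk⟩
  refine ⟨k₀, P, hP, fun f hf hfP k hk => ?_⟩
  have hmain := hP2 f hf hfP k
  have e1 : u * ((k : ℝ) + 1 - δ + j + 1) + j = u * (k + j + 2 - δ) + j := by ring
  rw [e1] at hmain
  by_cases hB : u ^ (j + 1) * k < ∑ i, ((k + 1 - d i : ℕ) : ℝ)
  · exact hmain (Or.inr (Or.inr (Or.inr (Or.inl hB))))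
  by_cases hA : u * (k + j + 2 - δ) + j < k
  · exact hmain (Or.inr (Or.inr (Or.inl hA)))
  push Not at hA
  -- the exceptional degrees
  have hexc : (∀ i, d i ≤ δ + s) → u * ((k : ℝ) + 1 - δ - s) ≤ k := by
    intro hs
    by_contra hcon
    push Not at hcon
    apply hB
    have h1 := Big.sum_lb (k := k) (δ := δ) (s := s) (d := d) (fun i => ⟨hd i, hs i⟩)
    have h2 : ((r * (k + 1 - (δ + s)) : ℕ) : ℝ) ≤ ((∑ i, (k + 1 - d i) : ℕ) : ℝ) := by
      exact_mod_cast h1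
    have h3 : (k : ℝ) + 1 - δ - s ≤ ((k + 1 - (δ + s) : ℕ) : ℝ) := by
      rcases le_total (δ + s) (k + 1) with h | h
      · rw [Nat.cast_sub h]
        push_cast
        linarith
      · have : ((k + 1 : ℕ) : ℝ) ≤ ((δ + s : ℕ) : ℝ) := by exact_mod_cast h
        push_cast at this
        have h0 : (0 : ℝ) ≤ ((k + 1 - (δ + s) : ℕ) : ℝ) := Nat.cast_nonneg _
        linarith
    have h4 : ((∑ i, (k + 1 - d i) : ℕ) : ℝ) = ∑ i, ((k + 1 - d i : ℕ) : ℝ) := by push_cast; rfl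
    rw [← h4]
    refine lt_of_lt_of_le ?_ h2
    push_cast
    rw [← hu]
    calc u ^ (j + 1) * (k : ℝ) < u ^ (j + 1) * (u * ((k : ℝ) + 1 - δ - s)) :=
          mul_lt_mul_of_pos_left hcon (by positivity)
      _ ≤ u ^ (j + 1) * (u * ((k + 1 - (δ + s) : ℕ) : ℝ)) :=
          mul_le_mul_of_nonneg_left (mul_le_mul_of_nonneg_left h3 hup.le) (by positivity)
      _ = _ := by ring
  rcases hk with hk | hk | ⟨hs, hk⟩ | ⟨hs, hk⟩
  · exact hmain (Or.inr (Or.inr (Or.inl hk)))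
  · exact absurd hk hB
  · exfalso
    have h1 := hexc hs
    rcases hk with h | h
    · exact hmin k h hA
    · have hu1 : 0 < u - 1 := by linarith
      have h2 : (u - 1) * ((k₀ : ℝ) + (j + 1 + s) + (2 * j + 1 + s) / (u - 1)) < (u - 1) * k :=
        mul_lt_mul_of_pos_left h hu1
      have h3 : (u - 1) * ((2 * (j : ℝ) + 1 + s) / (u - 1)) = 2 * j + 1 + s := by
        field_simp
      have h4 : (u - 1) * ((k₀ : ℝ) + (j + 1 + s) + (2 * j + 1 + s) / (u - 1)) =
          (u - 1) * (k₀ + (j + 1 + s)) + (2 * j + 1 + s) := by rw [mul_add, h3]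
      rw [h4] at h2
      nlinarith
  · rcases lt_or_ge k δ with h | h
    · exact hmain (Or.inl h)
    · refine hmain (Or.inr (Or.inr (Or.inr (Or.inr fun i hi => ?_))))
      have h1 := hexc hs
      have h2 : (u - 1) * ((k + 1 - δ : ℕ) : ℝ) ≤ δ - 1 + u * s := by
        rw [Nat.cast_sub (by omega)]
        push_cast
        linarith
      have h3 := cond (j := j) (m := k + 1 - δ) (a := d i) (by omega) (by linarith) h2 (hd i) hk
      exact h3.mono (by omega) (by have := hd i; omega)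

end Pool.Agent.TH176.RK
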