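import Pool.Agent.TH176.FB.Base
import Pool.Agent.TH176.RK.Defs

/-! From polynomials in `X`, `Y` and the spectators to forms. -/

set_option autoImplicit false

namespace Pool.Agent.TH176.RK

namespace ToFat_

open Pool.Agent.TH396.IN Pool.Agent.TH159.IA MvPolynomial

/-- the exponents of the spectators -/
def tot : (k : ℕ) → (Fin k → ℕ) → Sp k
  | 0 => fun _ => ()
  | k + 1 => fun s => (s 0, tot k (fun j => s j.succ))

theorem tot_zero : (k : ℕ) → tot k 0 = 0
  | 0 => rfl
  | k + 1 => by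
    show ((0 : ℕ), tot k (fun _ => 0)) = ((0 : ℕ), (0 : Sp k))
    rw [show (fun _ => 0 : Fin k → ℕ) = 0 from rfl, tot_zero k]

theorem tot_add : (k : ℕ) → (s t : Fin k → ℕ) → tot k (s + t) = tot k s + tot k t
  | 0, _, _ => rfl
  | k + 1, s, t => by
    show ((s 0 + t 0 : ℕ), tot k ((fun j => s j.succ) + (fun j => t j.succ))) =
      ((s 0 + t 0 : ℕ), tot k (fun j => s j.succ) + tot k (fun j => t j.succ))
    rw [tot_add k]

theorem dgp_tot : (k : ℕ) → (s : Fin k → ℕ) → dgp k (tot k s) = ∑ j, s j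
  | 0, _ => rfl
  | k + 1, s => by
    show s 0 + dgp k (tot k fun j => s j.succ) = _
    rw [dgp_tot k, Fin.sum_univ_succ]

theorem tot_inj : (k : ℕ) → (s t : Fin k → ℕ) → tot k s = tot k t → s = t
  | 0, _, _, _ => Subsingleton.elim _ _
  | k + 1, s, t, h => by
    have h1 : s 0 = t 0 := congrArg Prod.fst h
    have h2 := tot_inj k _ _ (congrArg Prod.snd h)
    funext j
    refine Fin.cases h1 (fun i => congrFun h2 i) j

theorem fin_dgp (d : ℕ) : (k : ℕ) → {c : Sp k | dgp k c ≤ d}.Finite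
  | 0 => Set.Finite.subset (Set.finite_singleton (() : Sp 0)) fun _ _ => rfl
  | k + 1 => by
    refine Set.Finite.subset ((Set.finite_Iic d).prod (fin_dgp d k)) ?_
    rintro ⟨a, c⟩ h
    have h' : a + dgp k c ≤ d := h
    exact ⟨show a ≤ d by omega, show dgp k c ≤ d by omega⟩

theorem fin_Sx (k d : ℕ) : (Sx (dgp k) d).Finite := by
  refine Set.Finite.subset ((Set.finite_Icc (0 : ℤ) d).prod
    ((Set.finite_Iic d).prod (fin_dgp d k))) ?_
  rintro ⟨l, a, c⟩ ⟨h1, h2⟩
  simp only at h1 h2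
  refine ⟨⟨h1, ?_⟩, ?_, ?_⟩
  · show l ≤ d
    omega
  · show a ≤ d
    omega
  · show dgp k c ≤ d
    omega

theorem fin_spn {K : Type} [Field K] {P : Type} [AddCommMonoid P] {S : Set (ℤ × P)}
    (hS : S.Finite) : FiniteDimensional K (spn K S) := by
  have := hS.to_subtype
  let L : ↥(spn K S) →ₗ[K] (S → K) :=
    { toFun := fun f m => f.1.coeff m.1
      map_add' := fun f g => rfl
      map_smul' := fun c f => rfl }
  refine FiniteDimensional.of_injective L ?_
  intro f g h
  refine Subtype.ext ?_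
  ext m
  by_cases hm : m ∈ S
  · exact congrFun h ⟨m, hm⟩
  · have h1 : f.1.coeff m = 0 := by
      by_contra h1
      exact hm (f.2 m h1)
    have h2 : g.1.coeff m = 0 := by
      by_contra h2
      exact hm (g.2 m h2)
    rw [h1, h2]

/-- the exponents: the first variable is set to one -/
noncomputable def gx (k : ℕ) : (Fin (k + 3) →₀ ℕ) →+ ℤ × (ℕ × Sp k) where
  toFun s := ((s 1 : ℤ), (s 2, tot k fun j => s j.succ.succ.succ))
  map_zero' := by
    show (((0 : ℕ) : ℤ), ((0 : ℕ), tot k fun _ => 0)) = ((0 : ℤ), ((0 : ℕ), (0 : Sp k)))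
    rw [show (fun _ => 0 : Fin k → ℕ) = 0 from rfl, tot_zero k]
    rfl
  map_add' s t := by
    show (((s 1 + t 1 : ℕ) : ℤ), ((s 2 + t 2 : ℕ),
      tot k ((fun j => s j.succ.succ.succ) + (fun j => t j.succ.succ.succ)))) =
      ((s 1 : ℤ) + (t 1 : ℤ), ((s 2 + t 2 : ℕ),
      tot k (fun j => s j.succ.succ.succ) + tot k (fun j => t j.succ.succ.succ)))
    rw [tot_add k, Nat.cast_add]

theorem gx_apply (k : ℕ) (s : Fin (k + 3) →₀ ℕ) :
    gx k s = ((s 1 : ℤ), (s 2, tot k fun j => s j.succ.succ.succ)) := rfl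

theorem degree_eq (k : ℕ) (s : Fin (k + 3) →₀ ℕ) :
    s.degree = s 0 + (s 1 + (s 2 + ∑ j : Fin k, s j.succ.succ.succ)) := by
  rw [Finsupp.degree_eq_sum, Fin.sum_univ_succ, Fin.sum_univ_succ, Fin.sum_univ_succ]
  rfl

theorem gx_inj (k d : ℕ) (s t : Fin (k + 3) →₀ ℕ) (hs : s.degree = d) (ht : t.degree = d)
    (h : gx k s = gx k t) : s = t := by
  rw [gx_apply, gx_apply, Prod.mk.injEq, Prod.mk.injEq] at h
  obtain ⟨h1, h2, h3⟩ := h
  have h1' : s 1 = t 1 := by exact_mod_cast h1
  have h4 := tot_inj k _ _ h3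
  have h5 : ∑ j : Fin k, s j.succ.succ.succ = ∑ j : Fin k, t j.succ.succ.succ :=
    Finset.sum_congr rfl fun j _ => congrFun h4 j
  rw [degree_eq] at hs ht
  have h0 : s 0 = t 0 := by omega
  ext j
  refine Fin.cases h0 (fun j => ?_) j
  refine Fin.cases h1' (fun j => ?_) j
  refine Fin.cases h2 (fun j => ?_) j
  exact congrFun h4 j

theorem gx_mem (k d : ℕ) (s : Fin (k + 3) →₀ ℕ) (hs : s.degree = d) :
    gx k s ∈ Sx (dgp k) d := by
  rw [degree_eq] at hs
  refine ⟨?_, ?_⟩
  · rw [gx_apply]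
    exact Int.natCast_nonneg _
  · rw [gx_apply]
    simp only
    rw [dgp_tot]
    omega

/-- the first variable is set to one -/
noncomputable def phi (K : Type) [Field K] (k : ℕ) :
    MvPolynomial (Fin (k + 3)) K →ₐ[K] LP K (ℕ × Sp k) :=
  AddMonoidAlgebra.mapDomainAlgHom K K (gx k)

theorem phi_monomial (K : Type) [Field K] (k : ℕ) (s : Fin (k + 3) →₀ ℕ) (c : K) :
    phi K k (monomial s c) = AddMonoidAlgebra.single (gx k s) c :=
  AddMonoidAlgebra.mapDomain_single

theorem phi_eq (K : Type) [Field K] (k : ℕ) (F : MvPolynomial (Fin (k + 3)) K) :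
    phi K k F = ∑ s ∈ F.support, AddMonoidAlgebra.single (gx k s) (coeff s F) := by
  conv_lhs => rw [← F.support_sum_monomial_coeff]
  rw [map_sum]
  exact Finset.sum_congr rfl fun s _ => phi_monomial K k s _

open Classical in
theorem coeff_phi (K : Type) [Field K] (k : ℕ) (F : MvPolynomial (Fin (k + 3)) K)
    (m : ℤ × (ℕ × Sp k)) :
    (phi K k F).coeff m = ∑ s ∈ F.support, if gx k s = m then coeff s F else 0 := by
  rw [phi_eq]
  rw [AddMonoidAlgebra.coeff_sum, Finsupp.finsetSum_apply]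
  refine Finset.sum_congr rfl fun s _ => ?_
  rw [AddMonoidAlgebra.coeff_single, Finsupp.single_apply]

theorem phi_mem (K : Type) [Field K] (k d : ℕ) (F : MvPolynomial (Fin (k + 3)) K)
    (hF : F.IsHomogeneous d) : phi K k F ∈ spn K (Sx (dgp k) d) := by
  classical
  intro m hm
  rw [coeff_phi] at hm
  obtain ⟨s, hs, hs2⟩ := Finset.exists_ne_zero_of_sum_ne_zero hm
  have h1 : gx k s = m := by
    by_contra h
    rw [if_neg h] at hs2
    exact hs2 rfl
  rw [← h1]
  refine gx_mem k d s ?_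
  by_contra h
  exact (mem_support_iff.1 hs) (hF.coeff_eq_zero h)

theorem phi_inj (K : Type) [Field K] (k d : ℕ) (F : MvPolynomial (Fin (k + 3)) K)
    (hF : F.IsHomogeneous d) (h : phi K k F = 0) : F = 0 := by
  classical
  ext s
  rw [coeff_zero]
  by_contra hs
  have hd : ∀ t ∈ F.support, t.degree = d := by
    intro t ht
    by_contra h
    exact (mem_support_iff.1 ht) (hF.coeff_eq_zero h)
  have h1 := coeff_phi K k F (gx k s)
  rw [h, Finset.sum_eq_single s] at h1
  · rw [if_pos rfl] at h1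
    exact hs (by rw [← h1]; simp)
  · intro t ht hts
    rw [if_neg]
    intro hg
    exact hts (gx_inj k d t s (hd t ht) (hd s (mem_support_iff.2 hs)) hg)
  · intro hs'
    exact absurd (mem_support_iff.2 hs) hs'

theorem shift_shift {K : Type} [Field K] {σ : Type} (p : σ → K) (F : MvPolynomial σ K) :
    FB.shift (fun i => - p i) (FB.shift p F) = F := by
  have h : (FB.shift (fun i => - p i)).comp (FB.shift p) = AlgHom.id K (MvPolynomial σ K) := by
    apply MvPolynomial.algHom_ext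
    intro i
    simp [FB.shift]
  exact DFunLike.congr_fun h F

theorem prod_mem {K : Type} [Field K] {n : ℕ} {A : Type} [CommRing A] [Algebra K A]
    (I : Ideal A) (g : Fin n → A) (hg : ∀ j, g j ∈ I) (s : Fin n →₀ ℕ) :
    ∏ j, g j ^ s j ∈ I ^ s.degree := by
  rw [Finsupp.degree_eq_sum, ← Finset.prod_pow_eq_pow_sum]
  exact Ideal.prod_mem_prod fun j _ => Ideal.pow_mem_pow (hg j) _

theorem phi_mu {K : Type} [Field K] (k : ℕ) (e : LP K (ℕ × Sp k) →ₐ[K] K) (w : ℕ)
    (F : MvPolynomial (Fin (k + 3)) K)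
    (hF : ∀ s : Fin (k + 3) →₀ ℕ, s.degree < w →
      coeff s (FB.shift (fun j => e (phi K k (X j))) F) = 0) :
    phi K k F ∈ RingHom.ker e ^ w := by
  set p : Fin (k + 3) → K := fun j => e (phi K k (X j)) with hp
  set G := FB.shift p F with hG
  have h1 : F = FB.shift (fun i => - p i) G := (shift_shift p F).symm
  rw [h1, ← G.support_sum_monomial_coeff, map_sum, map_sum]
  refine Ideal.sum_mem _ fun s hs => ?_
  have h2 : w ≤ s.degree := by
    by_contra h
    exact (mem_support_iff.1 hs) (hF s (by omega))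
  have h3 : phi K k (FB.shift (fun i => - p i) (monomial s (coeff s G))) =
      algebraMap K _ (coeff s G) *
        ∏ j, (phi K k (X j) - algebraMap K _ (p j)) ^ s j := by
    rw [FB.shift, aeval_monomial, map_mul, Finsupp.prod_fintype _ _ (fun _ => pow_zero _),
      map_prod]
    congr 1
    · exact AlgHom.commutes _ _
    · refine Finset.prod_congr rfl fun j _ => ?_
      rw [map_pow, map_add, C_neg, map_neg, ← sub_eq_add_neg]
      congr 2
      exact AlgHom.commutes _ _
  rw [h3]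
  refine Ideal.mul_mem_left _ _ ?_
  refine Ideal.pow_le_pow_right h2 ?_
  refine prod_mem (K := K) _ _ (fun j => ?_) s
  rw [RingHom.mem_ker, map_sub]
  rw [AlgHom.commutes]
  exact sub_self _

end ToFat_

open Pool.Agent.TH396.IN Pool.Agent.TH159.IA

theorem to_fat (k r d : ℕ) (w : Fin r → ℕ) {K : Type} [Field K] [CharZero K]
    (e : Fin r → (LP K (ℕ × Sp k) →ₐ[K] K)) :
    ∃ p : Fin r → Fin (k + 3) → K,
      Module.finrank K (FB.fat d w p) ≤
        Module.finrank K ↥(spn K (Sx (dgp k) d) ⊓ mu e w) := by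
  refine ⟨fun i j => e i (ToFat_.phi K k (MvPolynomial.X j)), ?_⟩
  have := ToFat_.fin_spn (K := K) (ToFat_.fin_Sx k d)
  have : FiniteDimensional K ↥(spn K (Sx (dgp k) d) ⊓ mu e w) :=
    Submodule.finiteDimensional_of_le (inf_le_left : _ ≤ spn K (Sx (dgp k) d))
  let L : ↥(FB.fat d w fun i j => e i (ToFat_.phi K k (MvPolynomial.X j))) →ₗ[K]
      ↥(spn K (Sx (dgp k) d) ⊓ mu e w) :=
    LinearMap.codRestrict _ ((ToFat_.phi K k).toLinearMap.comp (Submodule.subtype _))
      fun F => ⟨ToFat_.phi_mem K k d F.1 F.2.1, fun i =>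
        ToFat_.phi_mu k (e i) (w i) F.1 (F.2.2 i)⟩
  refine LinearMap.finrank_le_finrank_of_injective (f := L) ?_
  rw [injective_iff_map_eq_zero]
  intro F hF
  refine Subtype.ext ?_
  exact ToFat_.phi_inj K k d F.1 F.2.1 (congrArg Subtype.val hF)

end Pool.Agent.TH176.RK
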